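import Mathlib

set_option autoImplicit false

namespace Pool.Agent.P.MP_2ca0d6_al

/-- Coboundary in the inhomogeneous bar complex with trivial real coefficients:
`(δf)(g₀,…,gₙ) = f(g₁,…,gₙ) + ∑_{j<n} (-1)^{j+1} f(…, g_j g_{j+1}, …) + (-1)^{n+1} f(g₀,…,g_{n-1})`
(the formula of Mathlib's `inhomogeneousCochains.d`). -/
def delta {G : Type} [Group G] {n : ℕ} (f : (Fin n → G) → ℝ) (g : Fin (n + 1) → G) : ℝ :=
  f (fun i => g i.succ) +
    ∑ j : Fin (n + 1), (-1 : ℝ) ^ ((j : ℕ) + 1) * f (Fin.contractNth j (· * ·) g)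

/-- A bounded real function. -/
def Bdd {X : Type} (f : X → ℝ) : Prop := ∃ C : ℝ, ∀ x, |f x| ≤ C

end Pool.Agent.P.MP_2ca0d6_al
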