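import Mathlib

set_option autoImplicit false
set_option linter.dupNamespace false

namespace Pool.Agent.P.MP_2ca0d6_al

open FreeGroup Finset

variable {α : Type} [DecidableEq α]

/-- length of the geodesic from `x` to `y` -/
def len (x y : FreeGroup α) : ℕ := (x⁻¹ * y).toWord.length

/-- `i`-th vertex of the geodesic from `x` to `y` (clamped at `y`). -/
def P (x y : FreeGroup α) (i : ℕ) : FreeGroup α := x * mk ((x⁻¹ * y).toWord.take i)

lemma P_zero (x y : FreeGroup α) : P x y 0 = x := by
  simp [P, ← one_eq_mk]

lemma P_ge (x y : FreeGroup α) {i : ℕ} (h : len x y ≤ i) : P x y i = y := by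
  unfold P
  rw [List.take_of_length_le h, mk_toWord]
  simp

lemma len_mul (g x y : FreeGroup α) : len (g * x) (g * y) = len x y := by
  unfold len
  congr 2
  group

lemma P_mul (g x y : FreeGroup α) (i : ℕ) : P (g * x) (g * y) i = g * P x y i := by
  unfold P
  have : (g * x)⁻¹ * (g * y) = x⁻¹ * y := by group
  rw [this, mul_assoc]

lemma len_symm (x y : FreeGroup α) : len y x = len x y := by
  unfold len
  have : y⁻¹ * x = (x⁻¹ * y)⁻¹ := by group
  rw [this, toWord_inv, invRev_length]

omit [DecidableEq α] in
lemma invRev_take (w : List (α × Bool)) (i : ℕ) :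
    (invRev w).take i = invRev (w.drop (w.length - i)) := by
  unfold invRev
  rw [List.take_reverse, List.length_map, List.map_drop]

lemma P_rev (x y : FreeGroup α) (i : ℕ) : P y x i = P x y (len x y - i) := by
  unfold P len
  have h1 : y⁻¹ * x = (x⁻¹ * y)⁻¹ := by group
  rw [h1, toWord_inv, invRev_take, ← inv_mk]
  set w := (x⁻¹ * y).toWord with hw
  have h2 : mk (w.take (w.length - i)) * mk (w.drop (w.length - i)) = x⁻¹ * y := by
    rw [mul_mk, List.take_append_drop, hw, mk_toWord]
  have h3 : y = x * (mk (w.take (w.length - i)) * mk (w.drop (w.length - i))) := by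
    rw [h2]; group
  calc y * (mk (w.drop (w.length - i)))⁻¹
      = x * (mk (w.take (w.length - i)) * mk (w.drop (w.length - i))) *
          (mk (w.drop (w.length - i)))⁻¹ := by rw [← h3]
    _ = x * mk (w.take (w.length - i)) := by group

lemma len_P (x y : FreeGroup α) {i j : ℕ} (h : i ≤ j) : len (P x y i) (P x y j) ≤ j - i := by
  unfold P len
  set w := (x⁻¹ * y).toWord
  have h1 : mk (w.take j) = mk (w.take i) * mk ((w.take j).drop i) := by
    rw [mul_mk]
    congr 1
    conv_lhs => rw [← List.take_append_drop i (w.take j)]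
    rw [List.take_take, min_eq_left h]
  have h2 : (x * mk (w.take i))⁻¹ * (x * mk (w.take j)) = mk ((w.take j).drop i) := by
    rw [h1]; group
  rw [h2]
  refine le_trans (norm_mk_le (L₁ := (w.take j).drop i)) ?_
  simp only [List.length_drop, List.length_take]
  omega

/-- `m` lies on the geodesic from `x` to `y`. -/
def Btw (x m y : FreeGroup α) : Prop :=
  (x⁻¹ * y).toWord = (x⁻¹ * m).toWord ++ (m⁻¹ * y).toWord

lemma Btw.len_eq {x m y : FreeGroup α} (h : Btw x m y) : len x y = len x m + len m y := by
  unfold len; rw [h, List.length_append]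

lemma Btw.P_left {x m y : FreeGroup α} (h : Btw x m y) (i : ℕ) :
    P x m i = P x y (min i (len x m)) := by
  unfold P len
  rw [h, List.take_append_of_le_length (min_le_right _ _)]
  congr 2
  rcases le_total i (x⁻¹ * m).toWord.length with hi | hi
  · rw [min_eq_left hi]
  · rw [min_eq_right hi, List.take_of_length_le hi, List.take_length]

lemma Btw.P_right {x m y : FreeGroup α} (h : Btw x m y) (i : ℕ) :
    P m y i = P x y (len x m + i) := by
  unfold P len
  rw [h, List.take_length_add_append, ← mul_mk, mk_toWord]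
  group

omit [DecidableEq α] in
lemma cancel_decomp (B : List (α × Bool)) : ∀ (A : List (α × Bool)), IsReduced A → IsReduced B →
    ∃ A1 C B1, A = A1 ++ C ∧ B = invRev C ++ B1 ∧ IsReduced (A1 ++ B1) := by
  induction B with
  | nil => intro A hA _; exact ⟨A, [], [], by simp, by simp, by simpa using hA⟩
  | cons b B ih =>
    intro A hA hB
    rcases List.eq_nil_or_concat A with rfl | ⟨A', a, rfl⟩
    · exact ⟨[], [], b :: B, by simp, by simp, by simpa using hB⟩
    · rw [List.concat_eq_append] at hA ⊢
      by_cases hab : a.1 = b.1 → a.2 = b.2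
      · refine ⟨A' ++ [a], [], b :: B, by simp, by simp, ?_⟩
        unfold FreeGroup.IsReduced at *
        rw [List.isChain_append]
        refine ⟨hA, hB, ?_⟩
        intro x hx y hy
        simp at hx hy
        subst hx; subst hy; exact hab
      · have hA' : IsReduced A' := List.IsChain.left_of_append hA
        have hB' : IsReduced B := List.IsChain.right_of_append (l₁ := [b]) hB
        obtain ⟨A1, C, B1, h1, h2, h3⟩ := ih A' hA' hB'
        refine ⟨A1, C ++ [a], B1, by rw [h1, List.append_assoc], ?_, h3⟩
        rw [invRev_append, h2]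
        have : invRev [a] = [b] := by
          obtain ⟨a1, a2⟩ := a
          obtain ⟨b1, b2⟩ := b
          simp only [Classical.not_imp] at hab
          obtain ⟨h4, h5⟩ := hab
          subst h4
          cases a2 <;> cases b2 <;> simp_all [invRev]
        rw [this]; simp

lemma exists_median (x y w : FreeGroup α) : ∃ m, Btw x m y ∧ Btw y m w ∧ Btw x m w := by
  obtain ⟨A1, C, B1, h1, h2, h3⟩ := cancel_decomp (y⁻¹ * w).toWord (x⁻¹ * y).toWord
    isReduced_toWord isReduced_toWord
  have rA : IsReduced (A1 ++ C) := h1 ▸ isReduced_toWord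
  have rB : IsReduced (invRev C ++ B1) := h2 ▸ isReduced_toWord
  have rA1 : IsReduced A1 := List.IsChain.left_of_append rA
  have rC : IsReduced C := List.IsChain.right_of_append rA
  have rC' : IsReduced (invRev C) := List.IsChain.left_of_append rB
  have rB1 : IsReduced B1 := List.IsChain.right_of_append rB
  have e1 : x⁻¹ * y = mk A1 * mk C := by rw [mul_mk, ← h1, mk_toWord]
  have e2 : y⁻¹ * w = (mk C)⁻¹ * mk B1 := by rw [inv_mk, mul_mk, ← h2, mk_toWord]
  have ey : y = x * mk A1 * mk C := by rw [mul_assoc, ← e1]; group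
  have ew : w = x * mk A1 * mk B1 := by
    have : w = y * (y⁻¹ * w) := by group
    rw [this, e2, ey]; group
  have f1 : x⁻¹ * (x * mk A1) = mk A1 := by group
  have f2 : (x * mk A1)⁻¹ * y = mk C := by rw [ey]; group
  have f3 : y⁻¹ * (x * mk A1) = mk (invRev C) := by rw [← inv_mk, ey]; group
  have f4 : (x * mk A1)⁻¹ * w = mk B1 := by rw [ew]; group
  have f5 : x⁻¹ * w = mk (A1 ++ B1) := by rw [← mul_mk, ew]; group
  refine ⟨x * mk A1, ?_, ?_, ?_⟩
  · unfold Btw; rw [h1, f1, f2, toWord_mk, toWord_mk, rA1.reduce_eq, rC.reduce_eq]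
  · unfold Btw; rw [h2, f3, f4, toWord_mk, toWord_mk, rC'.reduce_eq, rB1.reduce_eq]
  · unfold Btw
    rw [f5, f1, f4, toWord_mk, toWord_mk, toWord_mk, rA1.reduce_eq, rB1.reduce_eq, h3.reduce_eq]

/-- sliding-window sum along the geodesic from `x` to `y` -/
def S {V : Type} [AddCommMonoid V] (u : FreeGroup α → FreeGroup α → V) (L : ℕ)
    (x y : FreeGroup α) : V :=
  ∑ k ∈ range (len x y + L + 1), u (P x y (k - L)) (P x y k)

lemma S_rev {V : Type} [AddCommMonoid V] (u : FreeGroup α → FreeGroup α → V) (L : ℕ)
    (x y : FreeGroup α) : S u L y x = S (fun a b => u b a) L x y := by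
  unfold S
  rw [len_symm x y, ← sum_range_reflect]
  refine sum_congr rfl fun k hk => ?_
  rw [mem_range] at hk
  rw [P_rev x y, P_rev x y]
  have e1 : len x y - (len x y + L + 1 - 1 - k) = k - L := by omega
  rw [e1]
  rcases le_total k (len x y) with h | h
  · have e2 : len x y - (len x y + L + 1 - 1 - k - L) = k := by omega
    rw [e2]
  · have e2 : len x y - (len x y + L + 1 - 1 - k - L) = len x y := by omega
    rw [e2, P_ge x y h, P_ge x y le_rfl]

lemma split_bound (u : FreeGroup α → FreeGroup α → ℝ) (L : ℕ) (hL : 1 ≤ L) (D : ℝ)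
    (h0 : ∀ a, u a a = 0)
    (hD : ∀ a b e, len a b ≤ L → len b e ≤ L → len a e ≤ L → |u a e - u a b - u b e| ≤ D)
    {x m y : FreeGroup α} (h : Btw x m y) :
    |S u L x y - S u L x m - S u L m y| ≤ ((L : ℝ) - 1) * D := by
  set a := len x m with ha
  set b := len m y with hb
  set p := P x y with hp
  have hm : p a = m := by
    have := h.P_left a
    rw [min_self, P_ge x m le_rfl] at this
    exact this.symm
  have e1 : S u L x m = ∑ k ∈ range (a + b + L + 1), u (p (min (k - L) a)) (p (min k a)) := by
    unfold S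
    simp only [h.P_left]
    refine sum_subset (range_subset_range.2 (by omega)) fun k _ hk => ?_
    rw [mem_range] at hk
    rw [min_eq_right (by omega), min_eq_right (by omega), h0]
  have e2 : S u L m y = ∑ k ∈ range (a + b + L + 1), u (p (max (k - L) a)) (p (max k a)) := by
    unfold S
    simp only [h.P_right]
    have : a + b + L + 1 = a + (b + L + 1) := by ring
    rw [this, sum_range_add _ a]
    have z : ∑ k ∈ range a, u (p (max (k - L) a)) (p (max k a)) = 0 := by
      refine sum_eq_zero fun k hk => ?_
      rw [mem_range] at hk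
      rw [max_eq_right (by omega), max_eq_right (by omega), h0]
    rw [z, zero_add]
    refine sum_congr rfl fun k _ => ?_
    have e3 : max (a + k - L) a = a + (k - L) := by omega
    have e4 : max (a + k) a = a + k := by omega
    rw [e3, e4]
  have e3 : S u L x y = ∑ k ∈ range (a + b + L + 1), u (p (k - L)) (p k) := by
    unfold S; rw [h.len_eq]
  rw [e1, e2, e3, ← sum_sub_distrib, ← sum_sub_distrib]
  have e4 : ∑ k ∈ range (a + b + L + 1), (u (p (k - L)) (p k) - u (p (min (k - L) a)) (p (min k a))
      - u (p (max (k - L) a)) (p (max k a))) = ∑ k ∈ Ioo a (a + L), (u (p (k - L)) (p k)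
        - u (p (min (k - L) a)) (p (min k a)) - u (p (max (k - L) a)) (p (max k a))) := by
    symm
    refine sum_subset (fun k hk => ?_) fun k _ hk => ?_
    · rw [mem_Ioo] at hk; rw [mem_range]; omega
    · rw [mem_Ioo] at hk
      rcases le_or_gt k a with h1 | h1
      · rw [min_eq_left (by omega), min_eq_left h1, max_eq_right (by omega), max_eq_right h1, h0]
        ring
      · rw [min_eq_right (by omega), min_eq_right h1.le, max_eq_left (by omega),
          max_eq_left h1.le, h0]
        ring
  rw [e4]
  refine le_trans (abs_sum_le_sum_abs _ _) ?_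
  refine le_trans (sum_le_card_nsmul _ _ D fun k hk => ?_) ?_
  · rw [mem_Ioo] at hk
    rw [min_eq_left (by omega), min_eq_right hk.1.le, max_eq_right (by omega),
      max_eq_left hk.1.le]
    refine hD _ _ _ (le_trans (len_P x y (by omega)) (by omega))
      (le_trans (len_P x y (by omega)) (by omega)) (le_trans (len_P x y (by omega)) (by omega))
  · rw [Nat.card_Ioo, nsmul_eq_mul]
    have : a + L - a - 1 = L - 1 := by omega
    rw [this, Nat.cast_sub hL]
    simp

lemma tri_bound (u : FreeGroup α → FreeGroup α → ℝ) (L : ℕ) (hL : 1 ≤ L) (D : ℝ)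
    (hanti : ∀ a b, u b a = - u a b)
    (hD : ∀ a b e, len a b ≤ L → len b e ≤ L → len a e ≤ L → |u a e - u a b - u b e| ≤ D)
    (x y w : FreeGroup α) :
    |S u L y w - S u L x w + S u L x y| ≤ 3 * (((L : ℝ) - 1) * D) := by
  have h0 : ∀ a, u a a = 0 := fun a => by have := hanti a a; linarith
  obtain ⟨m, h1, h2, h3⟩ := exists_median x y w
  have b1 := split_bound u L hL D h0 hD h1
  have b2 := split_bound u L hL D h0 hD h2
  have b3 := split_bound u L hL D h0 hD h3
  have e : S u L y m = - S u L m y := by
    rw [S_rev]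
    unfold S
    rw [← sum_neg_distrib]
    exact sum_congr rfl fun k _ => hanti _ _
  rw [abs_le] at b1 b2 b3 ⊢
  constructor <;> linarith [b1.1, b1.2, b2.1, b2.2, b3.1, b3.2]

lemma S_approx (u : FreeGroup α → FreeGroup α → ℝ) (M : ℝ) (hM : ∀ a b, |u a b| ≤ M)
    (x y : FreeGroup α) (L : ℕ) :
    |S u L x y - L * u x y| ≤ (5 * len x y + 1) * M := by
  set l := len x y with hl
  have e1 : S u L x y - ((l + L + 1 : ℕ) : ℝ) * u x y
      = ∑ k ∈ range (l + L + 1), (u (P x y (k - L)) (P x y k) - u x y) := by
    unfold S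
    rw [sum_sub_distrib, sum_const, card_range, nsmul_eq_mul]
  have e2 : ∑ k ∈ range (l + L + 1), (u (P x y (k - L)) (P x y k) - u x y)
      = ∑ k ∈ range l ∪ Ioc L (l + L), (u (P x y (k - L)) (P x y k) - u x y) := by
    symm
    refine sum_subset (fun k hk => ?_) fun k hk' hk => ?_
    · simp only [mem_union, mem_range, mem_Ioc] at hk ⊢; omega
    · simp only [mem_union, mem_range, mem_Ioc] at hk hk'
      have : k - L = 0 := by omega
      rw [this, P_zero, P_ge x y (by omega)]
      ring
  have hM0 : 0 ≤ M := le_trans (abs_nonneg _) (hM x y)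
  have e3 : |∑ k ∈ range l ∪ Ioc L (l + L), (u (P x y (k - L)) (P x y k) - u x y)|
      ≤ (2 * l) * (2 * M) := by
    refine le_trans (abs_sum_le_sum_abs _ _) ?_
    refine le_trans (sum_le_card_nsmul _ _ (2 * M) fun k _ => ?_) ?_
    · have := hM (P x y (k - L)) (P x y k)
      have := hM x y
      refine le_trans (abs_sub _ _) (by linarith)
    · rw [nsmul_eq_mul]
      have : (range l ∪ Ioc L (l + L)).card ≤ 2 * l := by
        refine le_trans (card_union_le _ _) ?_
        rw [card_range, Nat.card_Ioc]; omega
      have : ((range l ∪ Ioc L (l + L)).card : ℝ) ≤ 2 * l := by exact_mod_cast this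
      exact mul_le_mul_of_nonneg_right this (by linarith)
  rw [← e2, ← e1] at e3
  have e4 : S u L x y - L * u x y
      = (S u L x y - ((l + L + 1 : ℕ) : ℝ) * u x y) + ((l : ℝ) + 1) * u x y := by
    push_cast; ring
  have e5 : |((l : ℝ) + 1) * u x y| ≤ (l + 1) * M := by
    rw [abs_mul, abs_of_nonneg (by positivity)]
    exact mul_le_mul_of_nonneg_left (hM x y) (by positivity)
  rw [e4]
  refine le_trans (abs_add_le _ _) ?_
  nlinarith

end Pool.Agent.P.MP_2ca0d6_al
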