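import Mathlib
import Pool.Agent.P.MP_2ca0d6_al.Geo

/-!
The greedy anchor/pointer automaton and the quasimorphism it defines on a free group.
Letters: `(n, false)` is the anchor `n`, `(n, true)` is the pointer to `n`.
-/

set_option autoImplicit false
set_option linter.dupNamespace false

namespace Pool.Agent.P.MP_2ca0d6_al.Cup

open Classical FreeGroup

/-- letters: anchors `(n, false)` and pointers `(n, true)` -/
abbrev Let := ℕ × Bool

/-- positive words -/
abbrev Wd := List Let

/-- one step of the automaton on the set of live anchors -/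
noncomputable def step (S : Set ℕ) (x : Let) : Set ℕ :=
  if x.2 = true then (if x.1 ∈ S then ∅ else S) else insert x.1 S

/-- a pointer to a live anchor counts one -/
noncomputable def hit (S : Set ℕ) (x : Let) : ℕ :=
  if x.2 = true ∧ x.1 ∈ S then 1 else 0

/-- the state after reading a word -/
noncomputable def st (S : Set ℕ) (w : Wd) : Set ℕ := w.foldl step S

/-- the count after reading a word -/
noncomputable def G : Set ℕ → Wd → ℕ
  | _, [] => 0
  | S, x :: w => hit S x + G (step S x) w

theorem G_realize : True := by have := @G.eq_def; trivial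

@[simp] lemma st_nil (S : Set ℕ) : st S [] = S := rfl
@[simp] lemma st_cons (S : Set ℕ) (x : Let) (w : Wd) : st S (x :: w) = st (step S x) w := rfl
lemma st_append (S : Set ℕ) (u v : Wd) : st S (u ++ v) = st (st S u) v := by
  simp [st, List.foldl_append]

@[simp] lemma G_nil (S : Set ℕ) : G S [] = 0 := by simp [G]
@[simp] lemma G_cons (S : Set ℕ) (x : Let) (w : Wd) :
    G S (x :: w) = hit S x + G (step S x) w := by simp [G]

lemma G_append (u v : Wd) : ∀ S : Set ℕ, G S (u ++ v) = G S u + G (st S u) v := by
  induction u with
  | nil => intro S; simp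
  | cons x u ih => intro S; simp [ih, add_assoc]

lemma G_mono_lip (w : Wd) :
    (∀ S S' : Set ℕ, S ⊆ S' → G S w ≤ G S' w) ∧ (∀ S S' : Set ℕ, G S' w ≤ G S w + 1) := by
  induction w with
  | nil => simp
  | cons x w ih =>
    obtain ⟨hm, hl⟩ := ih
    obtain ⟨n, b⟩ := x
    cases b with
    | false =>
      refine ⟨fun S S' h => ?_, fun S S' => ?_⟩
      · simpa [hit, step] using hm _ _ (Set.insert_subset_insert h)
      · simpa [hit, step] using hl _ _
    | true =>
      refine ⟨fun S S' h => ?_, fun S S' => ?_⟩
      · by_cases h1 : n ∈ S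
        · have h2 : n ∈ S' := h h1
          simp [hit, step, h1, h2]
        · by_cases h2 : n ∈ S'
          · have := hl ∅ S
            simp only [G_cons, hit, step, h1, h2, true_and, if_true, if_false]
            omega
          · simpa [hit, step, h1, h2] using hm _ _ h
      · by_cases h1 : n ∈ S <;> by_cases h2 : n ∈ S'
        · simp [hit, step, h1, h2]
        · have := hl ∅ S'
          simp only [G_cons, hit, step, h1, h2, true_and, if_true, if_false]
          omega
        · have := hm ∅ S (Set.empty_subset _)
          simp only [G_cons, hit, step, h1, h2, true_and, if_true, if_false]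
          omega
        · simpa [hit, step, h1, h2] using hl S S'

/-- the count from the empty state -/
noncomputable def c (w : Wd) : ℕ := G ∅ w

@[simp] lemma c_nil : c [] = 0 := by simp [c]

lemma c_append (u v : Wd) : c u + c v ≤ c (u ++ v) ∧ c (u ++ v) ≤ c u + c v + 1 := by
  have h1 := (G_mono_lip v).1 ∅ (st ∅ u) (Set.empty_subset _)
  have h2 := (G_mono_lip v).2 ∅ (st ∅ u)
  simp only [c, G_append]
  omega

/-- the positive letters of a group word -/
def pos (w : List (Let × Bool)) : Wd := (w.filter (fun x => x.2)).map Prod.fst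

lemma pos_append (u v : List (Let × Bool)) : pos (u ++ v) = pos u ++ pos v := by
  simp [pos]

/-- the antisymmetrised count on group words -/
noncomputable def psi (w : List (Let × Bool)) : ℝ := (c (pos w) : ℝ) - c (pos (invRev w))

lemma psi_append (u v : List (Let × Bool)) : |psi (u ++ v) - psi u - psi v| ≤ 1 := by
  have h1 := c_append (pos u) (pos v)
  have h2 := c_append (pos (invRev v)) (pos (invRev u))
  simp only [psi, invRev_append, pos_append]
  obtain ⟨a1, a2⟩ := h1
  obtain ⟨b1, b2⟩ := h2
  have a1' : ((c (pos u) : ℝ) + c (pos v)) ≤ c (pos u ++ pos v) := by exact_mod_cast a1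
  have a2' : (c (pos u ++ pos v) : ℝ) ≤ c (pos u) + c (pos v) + 1 := by exact_mod_cast a2
  have b1' : ((c (pos (invRev v)) : ℝ) + c (pos (invRev u))) ≤
      c (pos (invRev v) ++ pos (invRev u)) := by exact_mod_cast b1
  have b2' : (c (pos (invRev v) ++ pos (invRev u)) : ℝ) ≤
      c (pos (invRev v)) + c (pos (invRev u)) + 1 := by exact_mod_cast b2
  rw [abs_le]
  constructor <;> linarith

lemma psi_invRev (u : List (Let × Bool)) : psi (invRev u) = - psi u := by
  simp [psi]

/-- the quasimorphism -/
noncomputable def phi (g : FreeGroup Let) : ℝ := psi g.toWord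

/-- its bounded 2-cocycle -/
noncomputable def f (x y : FreeGroup Let) : ℝ := phi x + phi y - phi (x * y)

lemma f_bdd (x y : FreeGroup Let) : |f x y| ≤ 3 := by
  obtain ⟨A1, C, B1, h1, h2, h3⟩ := cancel_decomp y.toWord x.toWord
    isReduced_toWord isReduced_toWord
  have e1 : x = mk A1 * mk C := by rw [mul_mk, ← h1, mk_toWord]
  have e2 : y = (mk C)⁻¹ * mk B1 := by rw [inv_mk, mul_mk, ← h2, mk_toWord]
  have e3 : x * y = mk (A1 ++ B1) := by
    rw [← mul_mk, e1, e2]; group
  have e4 : (x * y).toWord = A1 ++ B1 := by rw [e3, toWord_mk, h3.reduce_eq]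
  have p1 := psi_append A1 C
  have p2 := psi_append (invRev C) B1
  have p3 := psi_append A1 B1
  rw [psi_invRev] at p2
  simp only [f, phi, e4]
  rw [h1, h2]
  rw [abs_le] at *
  constructor <;> linarith [p1.1, p1.2, p2.1, p2.2, p3.1, p3.2]

lemma f_cocycle (x y z : FreeGroup Let) : f y z - f (x * y) z + f x (y * z) - f x y = 0 := by
  simp only [f, mul_assoc]; ring

/-- the group element of a positive word -/
def emb (w : Wd) : FreeGroup Let := mk (w.map fun a => (a, true))

lemma emb_append (u v : Wd) : emb (u ++ v) = emb u * emb v := by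
  simp [emb, mul_mk]

lemma red_pos : ∀ (L : List (Let × Bool)), (∀ l ∈ L, l.2 = true) → IsReduced L
  | [], _ => IsReduced.nil
  | [_], _ => IsReduced.singleton
  | a :: b :: L, h => by
    refine List.isChain_cons_cons.2 ⟨fun _ => ?_, red_pos (b :: L) fun l hl => h l (by simp [hl])⟩
    rw [h a (by simp), h b (by simp)]

lemma phi_emb (w : Wd) : phi (emb w) = c w := by
  have h1 : (emb w).toWord = w.map fun a => (a, true) := by
    rw [emb, toWord_mk]
    refine (red_pos _ fun l hl => ?_).reduce_eq
    simp only [List.mem_map] at hl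
    obtain ⟨a, -, rfl⟩ := hl
    rfl
  have h2 : pos (w.map fun a => (a, true)) = w := by
    simp [pos, List.filter_map, Function.comp_def]
  have h3 : pos (invRev (w.map fun a => (a, true))) = [] := by
    simp [pos, invRev]
  simp [phi, psi, h1, h2, h3]

/-- the cocycle on positive words -/
noncomputable def F (u v : Wd) : ℝ := (c u : ℝ) + c v - c (u ++ v)

lemma f_emb (u v : Wd) : f (emb u) (emb v) = F u v := by
  simp [f, F, ← emb_append, phi_emb]

end Pool.Agent.P.MP_2ca0d6_al.Cup
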