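import Mathlib
import Pool.Agent.P.MP_2ca0d6_al.CupA

/-!
An idempotent ultrafilter on the free monoid `List ℕ` concentrated on nonempty lists of large
numbers, and the random segments it defines.
-/

set_option autoImplicit false
set_option linter.dupNamespace false

namespace Pool.Agent.P.MP_2ca0d6_al.Cup

open Classical Filter

/-- lists of anchor names -/
abbrev Ls := List ℕ

lemma ev_bind {X Y : Type} (U : Ultrafilter X) (k : X → Ultrafilter Y) (p : Y → Prop) :
    (∀ᶠ y in ((U >>= k : Ultrafilter Y) : Filter Y), p y) ↔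
      ∀ᶠ x in (U : Filter X), ∀ᶠ y in (k x : Filter Y), p y := Iff.rfl

lemma ev_pure {Y : Type} (y : Y) (p : Y → Prop) :
    (∀ᶠ z in ((pure y : Ultrafilter Y) : Filter Y), p z) ↔ p y := Iff.rfl

lemma bassoc {X Y Z : Type} (U : Ultrafilter X) (k : X → Ultrafilter Y) (l : Y → Ultrafilter Z) :
    (U >>= k) >>= l = U >>= fun x => k x >>= l := by
  apply Ultrafilter.coe_injective
  apply Filter.ext'
  intro p
  rfl

lemma pbind {X Y : Type} (x : X) (k : X → Ultrafilter Y) :
    ((pure x : Ultrafilter X) >>= k) = k x := by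
  apply Ultrafilter.coe_injective
  apply Filter.ext'
  intro p
  rfl

lemma affine {X Y : Type} (U : Ultrafilter X) (V : Ultrafilter Y) :
    (U >>= fun _ => V) = V := by
  apply Ultrafilter.coe_injective
  apply Filter.ext'
  intro p
  rw [ev_bind]
  exact Filter.eventually_const

attribute [local instance] Ultrafilter.mul Ultrafilter.semigroup in
theorem exists_U : ∃ U : Ultrafilter Ls,
    (U >>= fun v => U >>= fun v' => (pure (v ++ v') : Ultrafilter Ls)) = U ∧
    ∀ N : ℕ, ∀ᶠ v in (U : Filter Ls), v ≠ [] ∧ ∀ a ∈ v, N ≤ a := by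
  let X : ℕ → Set (FreeMonoid ℕ) := fun N =>
    {v | FreeMonoid.toList v ≠ [] ∧ ∀ a ∈ FreeMonoid.toList v, N ≤ a}
  let s : Set (Ultrafilter (FreeMonoid ℕ)) := ⋂ N, {U | X N ∈ U}
  have hs : IsClosed s := isClosed_iInter fun N => ultrafilter_isClosed_basic _
  have hne : s.Nonempty := by
    refine ⟨Ultrafilter.map FreeMonoid.of (Ultrafilter.of atTop), Set.mem_iInter.2 fun N => ?_⟩
    show X N ∈ Ultrafilter.map FreeMonoid.of (Ultrafilter.of atTop)
    rw [Ultrafilter.mem_map]
    apply Ultrafilter.of_le atTop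
    filter_upwards [eventually_ge_atTop N] with n hn
    simpa [X] using hn
  have hmul : ∀ x ∈ s, ∀ y ∈ s, x * y ∈ s := by
    intro x hx y hy
    refine Set.mem_iInter.2 fun N => ?_
    have h1 : ∀ᶠ v in (x : Filter (FreeMonoid ℕ)), v ∈ X N := Set.mem_iInter.1 hx N
    have h2 : ∀ᶠ v in (y : Filter (FreeMonoid ℕ)), v ∈ X N := Set.mem_iInter.1 hy N
    show ∀ᶠ v in ((x * y : Ultrafilter (FreeMonoid ℕ)) : Filter (FreeMonoid ℕ)), v ∈ X N
    rw [Ultrafilter.eventually_mul]
    filter_upwards [h1] with v hv
    filter_upwards [h2] with w hw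
    refine ⟨by simp [hv.1], fun a ha => ?_⟩
    rw [FreeMonoid.toList_mul, List.mem_append] at ha
    rcases ha with ha | ha
    · exact hv.2 a ha
    · exact hw.2 a ha
  obtain ⟨U, hU, hUU⟩ := exists_idempotent_in_compact_subsemigroup
    Ultrafilter.continuous_mul_left s hne hs.isCompact hmul
  refine ⟨Ultrafilter.map FreeMonoid.toList U, ?_, fun N => ?_⟩
  · apply Ultrafilter.coe_injective
    apply Filter.ext'
    intro p
    have := Ultrafilter.eventually_mul U U (fun m => p (FreeMonoid.toList m))
    rw [hUU] at this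
    simp only [ev_bind, ev_pure, Ultrafilter.coe_map, eventually_map]
    exact this.symm
  · exact Set.mem_iInter.1 hU N

/-- the chosen idempotent ultrafilter -/
noncomputable def U : Ultrafilter Ls := exists_U.choose

lemma U_fresh (N : ℕ) : ∀ᶠ v in (U : Filter Ls), v ≠ [] ∧ ∀ a ∈ v, N ≤ a :=
  exists_U.choose_spec.2 N

lemma idem {X : Type} (k : Ls → Ultrafilter X) :
    (U >>= fun v => U >>= fun v' => k (v ++ v')) = U >>= k := by
  have h : (U >>= fun v => U >>= fun v' => (pure (v ++ v') : Ultrafilter Ls)) = U :=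
    exists_U.choose_spec.1
  conv_rhs => rw [← h]
  simp only [bassoc, pbind]

/-- a block of anchors -/
def anch (v : Ls) : Wd := v.map fun n => (n, false)

lemma anch_append (u v : Ls) : anch (u ++ v) = anch u ++ anch v := by simp [anch]

/-- the random segment with pointers to the names in `A`, separated by blocks of fresh anchors;
the second component lists the anchors used -/
noncomputable def seg : Ls → Ultrafilter (Wd × Ls)
  | [] => U >>= fun v => pure (anch v, v)
  | a :: A => U >>= fun v => seg A >>= fun y => pure (anch v ++ (a, true) :: y.1, v ++ y.2)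

theorem seg_realize : True := by have := @seg.eq_def; trivial

lemma seg_nil : seg [] = U >>= fun v => pure (anch v, v) := by simp only [seg]

lemma seg_cons (a : ℕ) (A : Ls) : seg (a :: A) =
    U >>= fun v => seg A >>= fun y => pure (anch v ++ (a, true) :: y.1, v ++ y.2) := by
  simp only [seg]

lemma absorb {X : Type} (A : Ls) (k : Wd × Ls → Ultrafilter X) :
    (U >>= fun v => seg A >>= fun y => k (anch v ++ y.1, v ++ y.2)) = seg A >>= k := by
  cases A with
  | nil =>
    simp only [seg_nil, bassoc, pbind]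
    rw [← idem (fun u => k (anch u, u))]
    simp only [anch_append]
  | cons a A =>
    simp only [seg_cons, bassoc, pbind]
    rw [← idem (fun u => seg A >>= fun y => k (anch u ++ (a, true) :: y.1, u ++ y.2))]
    simp only [anch_append, List.append_assoc]

lemma seg_append {X : Type} (A A' : Ls) : ∀ (k : Wd × Ls → Ultrafilter X),
    (seg A >>= fun x => seg A' >>= fun y => k (x.1 ++ y.1, x.2 ++ y.2)) = seg (A ++ A') >>= k := by
  induction A with
  | nil =>
    intro k
    simp only [seg_nil, bassoc, pbind, List.nil_append]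
    exact absorb A' k
  | cons a A ih =>
    intro k
    simp only [seg_cons, bassoc, pbind, List.cons_append]
    congr 1
    funext v
    rw [← ih (fun y => k (anch v ++ (a, true) :: y.1, v ++ y.2))]
    simp only [List.append_assoc, List.cons_append]

lemma seg_snd {X : Type} (A : Ls) : ∀ (k : Ls → Ultrafilter X),
    (seg A >>= fun x => k x.2) = U >>= k := by
  induction A with
  | nil => intro k; simp only [seg_nil, bassoc, pbind]
  | cons a A ih =>
    intro k
    simp only [seg_cons, bassoc, pbind]
    rw [← idem k]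
    congr 1
    funext v
    exact ih (fun u => k (v ++ u))

/-- no name of `A` is live -/
def Dj (S : Set ℕ) (A : Ls) : Prop := ∀ a ∈ A, a ∉ S

lemma G_anch (v : Ls) : ∀ S : Set ℕ, G S (anch v) = 0 ∧ st S (anch v) = S ∪ {a | a ∈ v} := by
  induction v with
  | nil => intro S; simp [anch]
  | cons a v ih =>
    intro S
    have h := ih (insert a S)
    simp only [anch, List.map_cons, G_cons, st_cons, hit, step] at h ⊢
    simp only [Bool.false_eq_true, false_and, if_false, zero_add]
    refine ⟨h.1, ?_⟩
    rw [h.2]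
    ext x
    simp only [Set.mem_union, Set.mem_insert_iff, Set.mem_ofPred_eq, List.mem_cons]
    tauto

/-- what a segment does to the automaton -/
def SegOK (N : ℕ) (A : Ls) (x : Wd × Ls) : Prop :=
  (∀ a ∈ x.2, N ≤ a) ∧ ∀ S : Set ℕ,
    (Dj S A → G S x.1 = 0 ∧ S ⊆ st S x.1 ∧ st S x.1 ⊆ S ∪ {a | a ∈ x.2}) ∧
    (¬ Dj S A → G S x.1 = 1 ∧ st S x.1 ⊆ {a | a ∈ x.2}) ∧
    ¬ Dj (st S x.1) x.2

lemma seg_ok (N : ℕ) (A : Ls) (hA : ∀ a ∈ A, a < N) :
    ∀ᶠ x in (seg A : Filter (Wd × Ls)), SegOK N A x := by
  induction A with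
  | nil =>
    simp only [seg_nil, ev_bind, ev_pure]
    filter_upwards [U_fresh N] with v hv
    refine ⟨hv.2, fun S => ?_⟩
    obtain ⟨h1, h2⟩ := G_anch v S
    refine ⟨fun _ => ⟨h1, ?_, ?_⟩, fun h => ?_, fun h => ?_⟩
    · simp only [h2]; exact Set.subset_union_left
    · simp only [h2]; exact subset_rfl
    · exact absurd (by simp [Dj]) h
    · obtain ⟨a, ha⟩ := List.exists_mem_of_ne_nil v hv.1
      exact h a ha (by simp only [h2]; exact Or.inr ha)
  | cons a A ih =>
    simp only [seg_cons, ev_bind, ev_pure]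
    filter_upwards [U_fresh N] with v hv
    filter_upwards [ih fun b hb => hA b (List.mem_cons_of_mem _ hb)] with y hy
    have haN : a < N := hA a List.mem_cons_self
    refine ⟨fun b hb => ?_, fun S => ?_⟩
    · rcases List.mem_append.1 hb with hb | hb
      · exact hv.2 b hb
      · exact hy.1 b hb
    obtain ⟨h1, h2⟩ := G_anch v S
    have hnv : ∀ b, b < N → (b ∈ S ∪ {a | a ∈ v} ↔ b ∈ S) := by
      intro b hb
      constructor
      · rintro (h | h)
        · exact h
        · exact absurd (hv.2 b h) (by omega)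
      · exact Or.inl
    have hsub : {b | b ∈ y.2} ⊆ {b | b ∈ v ++ y.2} := fun b hb => List.mem_append_right _ hb
    simp only [G_append, st_append, h1, h2, G_cons, st_cons, zero_add]
    by_cases haS : a ∈ S
    · have e1 : hit (S ∪ {a | a ∈ v}) (a, true) = 1 := by simp [hit, haS]
      have e2 : step (S ∪ {a | a ∈ v}) (a, true) = ∅ := by simp [step, haS]
      rw [e1, e2]
      obtain ⟨k1, -, k3⟩ := hy.2 ∅
      obtain ⟨k1, -, k2⟩ := k1 (fun _ _ => Set.notMem_empty _)
      refine ⟨fun h => absurd haS (h a List.mem_cons_self), fun _ => ⟨by omega, ?_⟩, fun h => ?_⟩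
      · rw [Set.empty_union] at k2
        exact k2.trans hsub
      · exact k3 fun b hb => h b (List.mem_append_right _ hb)
    · have haS' : a ∉ S ∪ {a | a ∈ v} := fun h => haS ((hnv a haN).1 h)
      have e1 : hit (S ∪ {a | a ∈ v}) (a, true) = 0 := by
        simp only [hit, haS', and_false, if_false]
      have e2 : step (S ∪ {a | a ∈ v}) (a, true) = S ∪ {a | a ∈ v} := by
        simp only [step, haS', if_true, if_false]
      rw [e1, e2]
      obtain ⟨k1, k2, k3⟩ := hy.2 (S ∪ {a | a ∈ v})
      have hD : Dj (S ∪ {a | a ∈ v}) A ↔ Dj S (a :: A) := by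
        constructor
        · intro h b hb
          rcases List.mem_cons.1 hb with rfl | hb
          · exact haS
          · exact fun hbS => h b hb (Or.inl hbS)
        · intro h b hb hbS
          exact h b (List.mem_cons_of_mem _ hb)
            ((hnv b (hA b (List.mem_cons_of_mem _ hb))).1 hbS)
      refine ⟨fun h => ?_, fun h => ?_, fun h => ?_⟩
      · obtain ⟨m1, m2, m3⟩ := k1 (hD.2 h)
        refine ⟨by omega, Set.subset_union_left.trans m2, m3.trans ?_⟩
        rintro b ((hb | hb) | hb)
        · exact Or.inl hb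
        · exact Or.inr (List.mem_append_left _ hb)
        · exact Or.inr (List.mem_append_right _ hb)
      · obtain ⟨m1, m2⟩ := k2 (fun h' => h (hD.1 h'))
        exact ⟨by omega, m2.trans hsub⟩
      · exact k3 fun b hb => h b (List.mem_append_right _ hb)

end Pool.Agent.P.MP_2ca0d6_al.Cup
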