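import Mathlib
import Pool.Agent.P.MP_2ca0d6_al.CupB

/-!
Stationary random words made of segments whose pointers refer to the anchors one period back,
for periods `5` and `4`, and the merging of two consecutive segments of each period.
-/

set_option autoImplicit false
set_option linter.dupNamespace false

namespace Pool.Agent.P.MP_2ca0d6_al.Cup

open Classical Filter

section generic

variable {σ : Type} (sp : σ → Ultrafilter (Wd × σ))

/-- `m` steps, concatenating the words -/
noncomputable def run : ℕ → σ → Ultrafilter (Wd × σ)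
  | 0, q => pure ([], q)
  | m + 1, q => sp q >>= fun x => run m x.2 >>= fun y => pure (x.1 ++ y.1, y.2)

theorem run_realize : True := by have := @run.eq_def; trivial

lemma run_zero (q : σ) : run sp 0 q = pure ([], q) := by simp only [run]

lemma run_succ (m : ℕ) (q : σ) : run sp (m + 1) q =
    sp q >>= fun x => run sp m x.2 >>= fun y => pure (x.1 ++ y.1, y.2) := by simp only [run]

lemma run_add {X : Type} (a b : ℕ) : ∀ (q : σ) (k : Wd × σ → Ultrafilter X),
    (run sp a q >>= fun x => run sp b x.2 >>= fun y => k (x.1 ++ y.1, y.2)) =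
      run sp (a + b) q >>= k := by
  induction a with
  | zero => intro q k; simp only [run_zero, pbind, List.nil_append, zero_add]
  | succ a ih =>
    intro q k
    rw [show a + 1 + b = (a + b) + 1 by ring]
    simp only [run_succ, bassoc, pbind]
    congr 1
    funext x
    rw [← ih x.2 (fun y => k (x.1 ++ y.1, y.2))]
    simp only [List.append_assoc]

lemma run_stat {X : Type} (ini : Ultrafilter σ)
    (hst : ∀ k : σ → Ultrafilter X, (ini >>= fun q => sp q >>= fun x => k x.2) = ini >>= k)
    (m : ℕ) : ∀ k : σ → Ultrafilter X,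
      (ini >>= fun q => run sp m q >>= fun x => k x.2) = ini >>= k := by
  induction m with
  | zero => intro k; simp only [run_zero, pbind]
  | succ m ih =>
    intro k
    simp only [run_succ, bassoc, pbind]
    rw [hst (fun q => run sp m q >>= fun y => k y.2), ih]

/-- law of three consecutive words -/
noncomputable def law3 (ini : Ultrafilter σ) (a b c : ℕ) : Ultrafilter (Wd × Wd × Wd) :=
  ini >>= fun q => run sp a q >>= fun x => run sp b x.2 >>= fun y => run sp c y.2 >>= fun z =>
    pure (x.1, y.1, z.1)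

/-- law of four consecutive words -/
noncomputable def law4 (ini : Ultrafilter σ) (a b c d : ℕ) : Ultrafilter (Wd × Wd × Wd × Wd) :=
  ini >>= fun q => run sp a q >>= fun x => run sp b x.2 >>= fun y => run sp c y.2 >>= fun z =>
    run sp d z.2 >>= fun t => pure (x.1, y.1, z.1, t.1)

lemma face0 (ini : Ultrafilter σ)
    (hst : ∀ k : σ → Ultrafilter (Wd × Wd × Wd),
      (ini >>= fun q => sp q >>= fun x => k x.2) = ini >>= k) (a b c d : ℕ) :
    (law4 sp ini a b c d >>= fun w => pure (w.2.1, w.2.2.1, w.2.2.2)) = law3 sp ini b c d := by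
  simp only [law4, law3, bassoc, pbind]
  exact run_stat sp ini hst a (fun q => run sp b q >>= fun x => run sp c x.2 >>= fun y =>
    run sp d y.2 >>= fun z => pure (x.1, y.1, z.1))

lemma face1 (ini : Ultrafilter σ) (a b c d : ℕ) :
    (law4 sp ini a b c d >>= fun w => pure (w.1 ++ w.2.1, w.2.2.1, w.2.2.2)) =
      law3 sp ini (a + b) c d := by
  simp only [law4, law3, bassoc, pbind]
  congr 1
  funext q
  exact run_add sp a b q (fun x => run sp c x.2 >>= fun y =>
    run sp d y.2 >>= fun z => pure (x.1, y.1, z.1))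

lemma face2 (ini : Ultrafilter σ) (a b c d : ℕ) :
    (law4 sp ini a b c d >>= fun w => pure (w.1, w.2.1 ++ w.2.2.1, w.2.2.2)) =
      law3 sp ini a (b + c) d := by
  simp only [law4, law3, bassoc, pbind]
  congr 1
  funext q
  congr 1
  funext x
  exact run_add sp b c x.2 (fun y => run sp d y.2 >>= fun z => pure (x.1, y.1, z.1))

lemma face3 (ini : Ultrafilter σ) (a b c d : ℕ) :
    (law4 sp ini a b c d >>= fun w => pure (w.1, w.2.1, w.2.2.1 ++ w.2.2.2)) =
      law3 sp ini a b (c + d) := by
  simp only [law4, law3, bassoc, pbind]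
  congr 1
  funext q
  congr 1
  funext x
  congr 1
  funext y
  exact run_add sp c d y.2 (fun z => pure (x.1, y.1, z.1))

lemma face4 (ini : Ultrafilter σ) (a b c d : ℕ) :
    (law4 sp ini a b c d >>= fun w => pure (w.1, w.2.1, w.2.2.1)) = law3 sp ini a b c := by
  simp only [law4, law3, bassoc, pbind, affine]

end generic

/-- queue of the anchor lists of the last five segments -/
abbrev Q5 := Ls × Ls × Ls × Ls × Ls
/-- queue of the anchor lists of the last four segments -/
abbrev Q4 := Ls × Ls × Ls × Ls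

/-- one segment, period five -/
noncomputable def sp5 (q : Q5) : Ultrafilter (Wd × Q5) :=
  seg q.1 >>= fun x => pure (x.1, q.2.1, q.2.2.1, q.2.2.2.1, q.2.2.2.2, x.2)

/-- one segment, period four -/
noncomputable def sp4 (q : Q4) : Ultrafilter (Wd × Q4) :=
  seg q.1 >>= fun x => pure (x.1, q.2.1, q.2.2.1, q.2.2.2, x.2)

/-- stationary initial law, period five -/
noncomputable def ini5 : Ultrafilter Q5 :=
  U >>= fun A => U >>= fun B => U >>= fun C => U >>= fun D => U >>= fun E => pure (A, B, C, D, E)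

/-- stationary initial law, period four -/
noncomputable def ini4 : Ultrafilter Q4 :=
  U >>= fun A => U >>= fun B => U >>= fun C => U >>= fun D => pure (A, B, C, D)

lemma stat5 {X : Type} (k : Q5 → Ultrafilter X) :
    (ini5 >>= fun q => sp5 q >>= fun x => k x.2) = ini5 >>= k := by
  simp only [ini5, sp5, bassoc, pbind]
  have h : ∀ A B C D E : Ls, (seg A >>= fun x => k (B, C, D, E, x.2)) =
      U >>= fun L => k (B, C, D, E, L) := fun A B C D E => seg_snd A (fun L => k (B, C, D, E, L))
  simp only [h, affine]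

/-- merge the entries `i` and `i+1` of the queue -/
def mu (i : ℕ) (q : Q5) : Q4 :=
  if i = 0 then (q.1 ++ q.2.1, q.2.2.1, q.2.2.2.1, q.2.2.2.2)
  else if i = 1 then (q.1, q.2.1 ++ q.2.2.1, q.2.2.2.1, q.2.2.2.2)
  else if i = 2 then (q.1, q.2.1, q.2.2.1 ++ q.2.2.2.1, q.2.2.2.2)
  else (q.1, q.2.1, q.2.2.1, q.2.2.2.1 ++ q.2.2.2.2)

lemma mu0 (A B C D E : Ls) : mu 0 (A, B, C, D, E) = (A ++ B, C, D, E) := by simp [mu]
lemma mu1 (A B C D E : Ls) : mu 1 (A, B, C, D, E) = (A, B ++ C, D, E) := by simp [mu]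
lemma mu2 (A B C D E : Ls) : mu 2 (A, B, C, D, E) = (A, B, C ++ D, E) := by simp [mu]
lemma mu3 (A B C D E : Ls) : mu 3 (A, B, C, D, E) = (A, B, C, D ++ E) := by simp [mu]

lemma ini_mu {X : Type} (i : ℕ) (hi : i < 4) (k : Q4 → Ultrafilter X) :
    (ini5 >>= fun q => k (mu i q)) = ini4 >>= k := by
  simp only [ini5, ini4, bassoc, pbind]
  interval_cases i
  · simp only [mu0]
    exact idem (fun A => U >>= fun C => U >>= fun D => U >>= fun E => k (A, C, D, E))
  · simp only [mu1]
    congr 1
    funext A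
    exact idem (fun B => U >>= fun D => U >>= fun E => k (A, B, D, E))
  · simp only [mu2]
    congr 1
    funext A
    congr 1
    funext B
    exact idem (fun C => U >>= fun E => k (A, B, C, E))
  · simp only [mu3]
    congr 1
    funext A
    congr 1
    funext B
    congr 1
    funext C
    exact idem (fun D => k (A, B, C, D))

/-- number of fine steps making `n` coarse steps -/
def fine (i n : ℕ) : ℕ := n + (n + 3 - i) / 4

/-- position of the merged pair after `n` coarse steps -/
def nxt (i n : ℕ) : ℕ := (i + 3 * n) % 4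

lemma sim {X : Type} (n : ℕ) : ∀ (i : ℕ), i < 4 → ∀ (q : Q5) (k : Wd × Q4 → Ultrafilter X),
    (run sp5 (fine i n) q >>= fun x => k (x.1, mu (nxt i n) x.2)) = run sp4 n (mu i q) >>= k := by
  induction n with
  | zero =>
    intro i hi q k
    have h1 : fine i 0 = 0 := by unfold fine; omega
    have h2 : nxt i 0 = i := by unfold nxt; omega
    simp only [h1, h2, run_zero, pbind]
  | succ n ih =>
    intro i hi q k
    obtain ⟨A, B, C, D, E⟩ := q
    rcases Nat.eq_zero_or_pos i with rfl | hpos
    · have h1 : fine 0 (n + 1) = fine 3 n + 1 + 1 := by unfold fine; omega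
      have h2 : nxt 0 (n + 1) = nxt 3 n := by unfold nxt; omega
      simp only [h1, h2, run_succ, sp5, sp4, mu0, bassoc, pbind]
      rw [← seg_append A B (fun x => run sp4 n (C, D, E, x.2) >>= fun y => k (x.1 ++ y.1, y.2))]
      congr 1
      funext x
      congr 1
      funext x'
      have := ih 3 (by norm_num) (C, D, E, x.2, x'.2) (fun y => k (x.1 ++ x'.1 ++ y.1, y.2))
      rw [mu3] at this
      simp only [List.append_assoc] at this ⊢
      exact this
    · obtain ⟨j, rfl⟩ : ∃ j, i = j + 1 := ⟨i - 1, by omega⟩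
      have h1 : fine (j + 1) (n + 1) = fine j n + 1 := by unfold fine; omega
      have h2 : nxt (j + 1) (n + 1) = nxt j n := by unfold nxt; omega
      have hj : j < 3 := by omega
      simp only [h1, h2, run_succ, sp5, sp4, bassoc, pbind]
      have e1 : (mu (j + 1) (A, B, C, D, E)).1 = A := by
        interval_cases j <;> simp [mu]
      rw [e1]
      congr 1
      funext x
      have := ih j (by omega) (B, C, D, E, x.2) (fun y => k (x.1 ++ y.1, y.2))
      rw [this]
      congr 2
      interval_cases j <;> simp [mu]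

lemma law3_merge (i : ℕ) (hi : i < 4) (a b c : ℕ) :
    law3 sp5 ini5 (fine i a) (fine (nxt i a) b) (fine (nxt (nxt i a) b) c) =
      law3 sp4 ini4 a b c := by
  have hn : ∀ j n, nxt j n < 4 := fun j n => Nat.mod_lt _ (by norm_num)
  simp only [law3]
  rw [← ini_mu i hi]
  congr 1
  funext q
  rw [← sim a i hi q]
  congr 1
  funext x
  rw [← sim b _ (hn i a) x.2]
  congr 1
  funext y
  rw [← sim c _ (hn _ b) y.2]

/-- the first `e` queue entries are dead and entry `e` (if any) is live -/
def Inv (S : Set ℕ) (q : Q5) (e : ℕ) : Prop :=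
  (0 < e → Dj S q.1) ∧ (1 < e → Dj S q.2.1) ∧ (2 < e → Dj S q.2.2.1) ∧ (3 < e → Dj S q.2.2.2.1) ∧
  (4 < e → Dj S q.2.2.2.2) ∧
  (e = 0 → ¬ Dj S q.1) ∧ (e = 1 → ¬ Dj S q.2.1) ∧ (e = 2 → ¬ Dj S q.2.2.1) ∧
  (e = 3 → ¬ Dj S q.2.2.2.1) ∧ (e = 4 → ¬ Dj S q.2.2.2.2)

lemma exists_bound (A : Ls) : ∃ N, ∀ a ∈ A, a < N := by
  induction A with
  | nil => exact ⟨0, by simp⟩
  | cons a A ih =>
    obtain ⟨N, hN⟩ := ih
    refine ⟨max N (a + 1), fun b hb => ?_⟩
    rcases List.mem_cons.1 hb with rfl | hb
    · omega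
    · have := hN b hb; omega

lemma step_ok (S : Set ℕ) (q : Q5) (e : ℕ) (he : e ≤ 5) (h : Inv S q e) :
    ∀ᶠ x in (sp5 q : Filter (Wd × Q5)),
      G S x.1 = (if e = 0 then 1 else 0) ∧ Inv (st S x.1) x.2 (if e = 0 then 4 else e - 1) := by
  obtain ⟨A, B, C, D, E⟩ := q
  obtain ⟨N, hN⟩ := exists_bound (A ++ B ++ C ++ D ++ E)
  simp only [List.mem_append] at hN
  simp only [sp5, ev_bind, ev_pure]
  filter_upwards [seg_ok N A (fun a ha => hN a (by tauto))] with x hx
  obtain ⟨hf, hx⟩ := hx
  obtain ⟨k1, k2, k3⟩ := hx S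
  have fresh : ∀ Z : Ls, (∀ a ∈ Z, a < N) → ∀ a ∈ Z, a ∉ x.2 := by
    intro Z hZ a ha hb
    have := hZ a ha
    have := hf a hb
    omega
  have fB := fresh B (fun a ha => hN a (by tauto))
  have fC := fresh C (fun a ha => hN a (by tauto))
  have fD := fresh D (fun a ha => hN a (by tauto))
  have fE := fresh E (fun a ha => hN a (by tauto))
  obtain ⟨d0, d1, d2, d3, d4, l0, l1, l2, l3, l4⟩ := h
  simp only at d0 d1 d2 d3 d4 l0 l1 l2 l3 l4
  by_cases h0 : e = 0
  · obtain ⟨m1, m2⟩ := k2 (l0 h0)
    have dead : ∀ Z : Ls, (∀ a ∈ Z, a ∉ x.2) → Dj (st S x.1) Z :=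
      fun Z hZ a ha hb => hZ a ha (m2 hb)
    simp only [h0, if_true]
    refine ⟨m1, fun _ => dead B fB, fun _ => dead C fC, fun _ => dead D fD, fun _ => dead E fE,
      by omega, by omega, by omega, by omega, by omega, fun _ => k3⟩
  · obtain ⟨m1, m2, m3⟩ := k1 (d0 (by omega))
    have dead : ∀ Z : Ls, (∀ a ∈ Z, a ∉ x.2) → Dj S Z → Dj (st S x.1) Z := by
      intro Z hZ hS a ha hb
      rcases m3 hb with hb | hb
      · exact hS a ha hb
      · exact hZ a ha hb
    have live : ∀ Z : Ls, ¬ Dj S Z → ¬ Dj (st S x.1) Z :=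
      fun Z hZ hb => hZ fun a ha hc => hb a ha (m2 hc)
    simp only [h0, if_false]
    refine ⟨m1, fun _ => dead B fB (d1 (by omega)), fun _ => dead C fC (d2 (by omega)),
      fun _ => dead D fD (d3 (by omega)), fun _ => dead E fE (d4 (by omega)), by omega,
      fun _ => live B (l1 (by omega)), fun _ => live C (l2 (by omega)),
      fun _ => live D (l3 (by omega)), fun _ => live E (l4 (by omega)), fun _ => k3⟩

lemma run_ok (m : ℕ) : ∀ (S : Set ℕ) (q : Q5) (e : ℕ), e ≤ 5 → Inv S q e →
    ∀ᶠ x in (run sp5 m q : Filter (Wd × Q5)), G S x.1 = (m + 4 - e) / 5 := by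
  induction m with
  | zero =>
    intro S q e he _
    rw [run_zero, ev_pure]
    simp only [G_nil]
    omega
  | succ m ih =>
    intro S q e he h
    simp only [run_succ, ev_bind, ev_pure]
    filter_upwards [step_ok S q e he h] with x hx
    filter_upwards [ih _ _ _ (by split_ifs <;> omega) hx.2] with y hy
    rw [G_append, hx.1, hy]
    split_ifs <;> omega

lemma c_run (m : ℕ) (q : Q5) :
    ∀ᶠ x in (run sp5 m q : Filter (Wd × Q5)), c x.1 = (m - 1) / 5 := by
  have hI : Inv ∅ q 5 := by simp [Inv, Dj]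
  filter_upwards [run_ok m ∅ q 5 le_rfl hI] with x hx
  rw [c, hx]
  omega

/-- the value of the cocycle on two consecutive words -/
noncomputable def Fn (a b : ℕ) : ℝ :=
  (((a - 1) / 5 : ℕ) : ℝ) + (((b - 1) / 5 : ℕ) : ℝ) - (((a + b - 1) / 5 : ℕ) : ℝ)

lemma F_run (a b : ℕ) (q : Q5) :
    ∀ᶠ x in (run sp5 a q : Filter (Wd × Q5)), ∀ᶠ y in (run sp5 b x.2 : Filter (Wd × Q5)),
      F x.1 y.1 = Fn a b := by
  have h3 := c_run (a + b) q
  have e := run_add sp5 a b q (fun x => (pure x : Ultrafilter (Wd × Q5)))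
  have e2 : (run sp5 (a + b) q >>= fun x => (pure x : Ultrafilter (Wd × Q5))) =
      run sp5 (a + b) q := by
    apply Ultrafilter.coe_injective
    apply Filter.ext'
    intro p
    rfl
  rw [e2] at e
  rw [← e] at h3
  simp only [ev_bind, ev_pure] at h3
  filter_upwards [h3, c_run a q] with x hx h1
  filter_upwards [hx, c_run b x.2] with y hy h2
  simp only [F, Fn, h1, h2, hy]

lemma FF_law4 (a b c d : ℕ) :
    ∀ᶠ w in (law4 sp5 ini5 a b c d : Filter (Wd × Wd × Wd × Wd)),
      F w.1 w.2.1 * F w.2.2.1 w.2.2.2 = Fn a b * Fn c d := by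
  simp only [law4, ev_bind, ev_pure]
  refine Eventually.of_forall fun q => ?_
  filter_upwards [F_run a b q] with x hx
  filter_upwards [hx] with y hy
  filter_upwards [F_run c d y.2] with z hz
  filter_upwards [hz] with t ht
  rw [hy, ht]

end Pool.Agent.P.MP_2ca0d6_al.Cup
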