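import Mathlib
import Pool.Agent.P.MP_2ca0d6_al.CupC

/-!
The alternating sum over the 24 cyclic types of five points on a circle, and the averaging over
winding numbers.
-/

set_option autoImplicit false
set_option linter.dupNamespace false

namespace Pool.Agent.P.MP_2ca0d6_al.Cup

open Finset

lemma Fn0 (a b : ℕ) (h : (a - 1) / 5 + (b - 1) / 5 = (a + b - 1) / 5) : Fn a b = 0 := by
  unfold Fn
  rw [← h]
  push_cast
  ring

lemma Fn1 (a b : ℕ) (h : (a - 1) / 5 + (b - 1) / 5 + 1 = (a + b - 1) / 5) : Fn a b = -1 := by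
  unfold Fn
  rw [← h]
  push_cast
  ring

/-- sum over a box of winding numbers -/
noncomputable def Sm (T : ℕ → ℕ → ℕ → ℝ) (N s2 s3 s4 : ℕ) : ℝ :=
  ∑ n2 ∈ range N, ∑ n3 ∈ range N, ∑ n4 ∈ range N, T (4 * n2 + s2) (4 * n3 + s3) (4 * n4 + s4)

lemma shift1 (g : ℕ → ℝ) (K : ℝ) (hK : ∀ n, |g n| ≤ K) (N : ℕ) :
    |∑ n ∈ range N, g (n + 1) - ∑ n ∈ range N, g n| ≤ 2 * K := by
  have h1 := sum_range_succ g N
  have h2 := sum_range_succ' g N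
  have h3 := hK N
  have h4 := hK 0
  rw [abs_le] at *
  constructor <;> linarith [h3.1, h3.2, h4.1, h4.2]

lemma sum_bd (g : ℕ → ℝ) (K : ℝ) (hK : ∀ n, |g n| ≤ K) (N : ℕ) :
    |∑ n ∈ range N, g n| ≤ N * K := by
  refine (abs_sum_le_sum_abs _ _).trans ?_
  refine (sum_le_sum fun n _ => hK n).trans ?_
  simp

lemma Sm_shift2 (T : ℕ → ℕ → ℕ → ℝ) (K : ℝ) (hK : ∀ a b c, |T a b c| ≤ K) (N s2 s3 s4 : ℕ) :
    |Sm T N (s2 + 4) s3 s4 - Sm T N s2 s3 s4| ≤ 2 * (N * (N * K)) := by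
  have := shift1 (fun n2 => ∑ n3 ∈ range N, ∑ n4 ∈ range N,
    T (4 * n2 + s2) (4 * n3 + s3) (4 * n4 + s4)) (N * (N * K))
    (fun n => sum_bd _ _ (fun m => sum_bd _ _ (fun l => hK _ _ _) N) N) N
  simp only [Sm]
  convert this using 7
  ring

lemma Sm_shift3 (T : ℕ → ℕ → ℕ → ℝ) (K : ℝ) (hK : ∀ a b c, |T a b c| ≤ K) (N s2 s3 s4 : ℕ) :
    |Sm T N s2 (s3 + 4) s4 - Sm T N s2 s3 s4| ≤ 2 * (N * (N * K)) := by
  simp only [Sm]
  rw [← sum_sub_distrib]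
  refine (sum_bd _ (2 * (N * K)) (fun n2 => ?_) N).trans (le_of_eq (by ring))
  have := shift1 (fun n3 => ∑ n4 ∈ range N,
    T (4 * n2 + s2) (4 * n3 + s3) (4 * n4 + s4)) (N * K)
    (fun m => sum_bd _ _ (fun l => hK _ _ _) N) N
  convert this using 6
  ring

lemma Sm_shift4 (T : ℕ → ℕ → ℕ → ℝ) (K : ℝ) (hK : ∀ a b c, |T a b c| ≤ K) (N s2 s3 s4 : ℕ) :
    |Sm T N s2 s3 (s4 + 4) - Sm T N s2 s3 s4| ≤ 2 * (N * (N * K)) := by
  simp only [Sm]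
  rw [← sum_sub_distrib]
  refine (sum_bd _ (N * (2 * K)) (fun n2 => ?_) N).trans (le_of_eq (by ring))
  rw [← sum_sub_distrib]
  refine sum_bd _ (2 * K) (fun n3 => ?_) N
  have := shift1 (fun n4 => T (4 * n2 + s2) (4 * n3 + s3) (4 * n4 + s4)) K
    (fun l => hK _ _ _) N
  convert this using 5
  ring

lemma Sm_mod (T : ℕ → ℕ → ℕ → ℝ) (K : ℝ) (hK : ∀ a b c, |T a b c| ≤ K) (N s2 s3 s4 : ℕ)
    (h2 : s2 < 8) (h3 : s3 < 8) (h4 : s4 < 8) (r2 r3 r4 : ℕ)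
    (e2 : s2 % 4 = r2) (e3 : s3 % 4 = r3) (e4 : s4 % 4 = r4) :
    |Sm T N s2 s3 s4 - Sm T N r2 r3 r4| ≤ 6 * (N * (N * K)) := by
  have hK0 : 0 ≤ K := (abs_nonneg _).trans (hK 0 0 0)
  have hP : 0 ≤ (N : ℝ) * (N * K) := by positivity
  have a2 : |Sm T N s2 s3 s4 - Sm T N r2 s3 s4| ≤ 2 * (N * (N * K)) := by
    rcases (by omega : s2 = r2 ∨ s2 = r2 + 4) with h | h
    · rw [h, sub_self, abs_zero]; linarith
    · rw [h]; exact Sm_shift2 T K hK N r2 s3 s4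
  have a3 : |Sm T N r2 s3 s4 - Sm T N r2 r3 s4| ≤ 2 * (N * (N * K)) := by
    rcases (by omega : s3 = r3 ∨ s3 = r3 + 4) with h | h
    · rw [h, sub_self, abs_zero]; linarith
    · rw [h]; exact Sm_shift3 T K hK N r2 r3 s4
  have a4 : |Sm T N r2 r3 s4 - Sm T N r2 r3 r4| ≤ 2 * (N * (N * K)) := by
    rcases (by omega : s4 = r4 ∨ s4 = r4 + 4) with h | h
    · rw [h, sub_self, abs_zero]; linarith
    · rw [h]; exact Sm_shift4 T K hK N r2 r3 r4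
  rw [abs_le] at *
  constructor <;> linarith [a2.1, a2.2, a3.1, a3.2, a4.1, a4.2]

section

variable (T5 T4 : ℕ → ℕ → ℕ → ℝ)
  (H1 : ∀ a b c d, |Fn a b * Fn c d -
    (T5 b c d - T5 (a + b) c d + T5 a (b + c) d - T5 a b (c + d) + T5 a b c)| ≤ 1 / 24)
  (H2 : ∀ i i1 i2 a b c A B C : ℕ, i < 4 → (i + 3 * a) % 4 = i1 → (i1 + 3 * b) % 4 = i2 →
    A = a + (a + 3 - i) / 4 → B = b + (b + 3 - i1) / 4 → C = c + (c + 3 - i2) / 4 →
    T5 A B C = T4 a b c)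

include H1 H2

lemma type0 (n2 n3 n4 : ℕ) :
    |(0 : ℝ) - (T4 (4 * n2 + 5) (4 * n3 + 5) (4 * n4 + 5) - T4 (4 * n2 + 9) (4 * n3 + 5) (4 * n4 + 5)
      + T4 (5) (4 * n2 + 4 * n3 + 9) (4 * n4 + 5) - T4 (5) (4 * n2 + 5) (4 * n3 + 4 * n4 + 9)
      + T4 (5) (4 * n2 + 5) (4 * n3 + 5))| ≤ 1 / 24 := by
  have h := H1 (6) (5 * n2 + 6) (5 * n3 + 6) (5 * n4 + 6)
  rw [Fn0 (6) (5 * n2 + 6) (by omega), Fn0 (5 * n3 + 6) (5 * n4 + 6) (by omega)] at h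
  rw [H2 3 2 1 (4 * n2 + 5) (4 * n3 + 5) (4 * n4 + 5)
    (5 * n2 + 6) (5 * n3 + 6) (5 * n4 + 6)
    (by omega) (by omega) (by omega) (by omega) (by omega) (by omega)] at h
  rw [H2 0 3 2 (4 * n2 + 9) (4 * n3 + 5) (4 * n4 + 5)
    ((6) + (5 * n2 + 6)) (5 * n3 + 6) (5 * n4 + 6)
    (by omega) (by omega) (by omega) (by omega) (by omega) (by omega)] at h
  rw [H2 1 0 3 (5) (4 * n2 + 4 * n3 + 9) (4 * n4 + 5)
    (6) ((5 * n2 + 6) + (5 * n3 + 6)) (5 * n4 + 6)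
    (by omega) (by omega) (by omega) (by omega) (by omega) (by omega)] at h
  rw [H2 2 1 0 (5) (4 * n2 + 5) (4 * n3 + 4 * n4 + 9)
    (6) (5 * n2 + 6) ((5 * n3 + 6) + (5 * n4 + 6))
    (by omega) (by omega) (by omega) (by omega) (by omega) (by omega)] at h
  rw [H2 3 2 1 (5) (4 * n2 + 5) (4 * n3 + 5)
    (6) (5 * n2 + 6) (5 * n3 + 6)
    (by omega) (by omega) (by omega) (by omega) (by omega) (by omega)] at h
  simpa using h

lemma type1 (n2 n3 n4 : ℕ) :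
    |(0 : ℝ) - (T4 (4 * n2 + 5) (4 * n3 + 6) (4 * n4 + 3) - T4 (4 * n2 + 9) (4 * n3 + 6) (4 * n4 + 3)
      + T4 (5) (4 * n2 + 4 * n3 + 10) (4 * n4 + 3) - T4 (5) (4 * n2 + 5) (4 * n3 + 4 * n4 + 9)
      + T4 (5) (4 * n2 + 5) (4 * n3 + 5))| ≤ 1 / 24 := by
  have h := H1 (6) (5 * n2 + 6) (5 * n3 + 7) (5 * n4 + 4)
  rw [Fn0 (6) (5 * n2 + 6) (by omega), Fn1 (5 * n3 + 7) (5 * n4 + 4) (by omega)] at h
  rw [H2 3 2 0 (4 * n2 + 5) (4 * n3 + 6) (4 * n4 + 3)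
    (5 * n2 + 6) (5 * n3 + 7) (5 * n4 + 4)
    (by omega) (by omega) (by omega) (by omega) (by omega) (by omega)] at h
  rw [H2 0 3 1 (4 * n2 + 9) (4 * n3 + 6) (4 * n4 + 3)
    ((6) + (5 * n2 + 6)) (5 * n3 + 7) (5 * n4 + 4)
    (by omega) (by omega) (by omega) (by omega) (by omega) (by omega)] at h
  rw [H2 1 0 2 (5) (4 * n2 + 4 * n3 + 10) (4 * n4 + 3)
    (6) ((5 * n2 + 6) + (5 * n3 + 7)) (5 * n4 + 4)
    (by omega) (by omega) (by omega) (by omega) (by omega) (by omega)] at h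
  rw [H2 3 2 1 (5) (4 * n2 + 5) (4 * n3 + 4 * n4 + 9)
    (6) (5 * n2 + 6) ((5 * n3 + 7) + (5 * n4 + 4))
    (by omega) (by omega) (by omega) (by omega) (by omega) (by omega)] at h
  rw [H2 2 1 0 (5) (4 * n2 + 5) (4 * n3 + 5)
    (6) (5 * n2 + 6) (5 * n3 + 7)
    (by omega) (by omega) (by omega) (by omega) (by omega) (by omega)] at h
  simpa using h

lemma type2 (n2 n3 n4 : ℕ) :
    |(0 : ℝ) - (T4 (4 * n2 + 6) (4 * n3 + 3) (4 * n4 + 6) - T4 (4 * n2 + 10) (4 * n3 + 3) (4 * n4 + 6)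
      + T4 (5) (4 * n2 + 4 * n3 + 9) (4 * n4 + 5) - T4 (5) (4 * n2 + 5) (4 * n3 + 4 * n4 + 9)
      + T4 (5) (4 * n2 + 6) (4 * n3 + 3))| ≤ 1 / 24 := by
  have h := H1 (6) (5 * n2 + 7) (5 * n3 + 4) (5 * n4 + 7)
  rw [Fn0 (6) (5 * n2 + 7) (by omega), Fn1 (5 * n3 + 4) (5 * n4 + 7) (by omega)] at h
  rw [H2 3 1 2 (4 * n2 + 6) (4 * n3 + 3) (4 * n4 + 6)
    (5 * n2 + 7) (5 * n3 + 4) (5 * n4 + 7)
    (by omega) (by omega) (by omega) (by omega) (by omega) (by omega)] at h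
  rw [H2 0 2 3 (4 * n2 + 10) (4 * n3 + 3) (4 * n4 + 6)
    ((6) + (5 * n2 + 7)) (5 * n3 + 4) (5 * n4 + 7)
    (by omega) (by omega) (by omega) (by omega) (by omega) (by omega)] at h
  rw [H2 2 1 0 (5) (4 * n2 + 4 * n3 + 9) (4 * n4 + 5)
    (6) ((5 * n2 + 7) + (5 * n3 + 4)) (5 * n4 + 7)
    (by omega) (by omega) (by omega) (by omega) (by omega) (by omega)] at h
  rw [H2 1 0 3 (5) (4 * n2 + 5) (4 * n3 + 4 * n4 + 9)
    (6) (5 * n2 + 7) ((5 * n3 + 4) + (5 * n4 + 7))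
    (by omega) (by omega) (by omega) (by omega) (by omega) (by omega)] at h
  rw [H2 3 2 0 (5) (4 * n2 + 6) (4 * n3 + 3)
    (6) (5 * n2 + 7) (5 * n3 + 4)
    (by omega) (by omega) (by omega) (by omega) (by omega) (by omega)] at h
  simpa using h

lemma type3 (n2 n3 n4 : ℕ) :
    |(0 : ℝ) - (T4 (4 * n2 + 6) (4 * n3 + 5) (4 * n4 + 2) - T4 (4 * n2 + 10) (4 * n3 + 5) (4 * n4 + 2)
      + T4 (5) (4 * n2 + 4 * n3 + 10) (4 * n4 + 3) - T4 (5) (4 * n2 + 6) (4 * n3 + 4 * n4 + 7)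
      + T4 (5) (4 * n2 + 5) (4 * n3 + 5))| ≤ 1 / 24 := by
  have h := H1 (6) (5 * n2 + 7) (5 * n3 + 6) (5 * n4 + 3)
  rw [Fn0 (6) (5 * n2 + 7) (by omega), Fn0 (5 * n3 + 6) (5 * n4 + 3) (by omega)] at h
  rw [H2 3 1 0 (4 * n2 + 6) (4 * n3 + 5) (4 * n4 + 2)
    (5 * n2 + 7) (5 * n3 + 6) (5 * n4 + 3)
    (by omega) (by omega) (by omega) (by omega) (by omega) (by omega)] at h
  rw [H2 0 2 1 (4 * n2 + 10) (4 * n3 + 5) (4 * n4 + 2)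
    ((6) + (5 * n2 + 7)) (5 * n3 + 6) (5 * n4 + 3)
    (by omega) (by omega) (by omega) (by omega) (by omega) (by omega)] at h
  rw [H2 2 1 3 (5) (4 * n2 + 4 * n3 + 10) (4 * n4 + 3)
    (6) ((5 * n2 + 7) + (5 * n3 + 6)) (5 * n4 + 3)
    (by omega) (by omega) (by omega) (by omega) (by omega) (by omega)] at h
  rw [H2 3 2 0 (5) (4 * n2 + 6) (4 * n3 + 4 * n4 + 7)
    (6) (5 * n2 + 7) ((5 * n3 + 6) + (5 * n4 + 3))
    (by omega) (by omega) (by omega) (by omega) (by omega) (by omega)] at h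
  rw [H2 1 0 3 (5) (4 * n2 + 5) (4 * n3 + 5)
    (6) (5 * n2 + 7) (5 * n3 + 6)
    (by omega) (by omega) (by omega) (by omega) (by omega) (by omega)] at h
  simpa using h

lemma type4 (n2 n3 n4 : ℕ) :
    |(0 : ℝ) - (T4 (4 * n2 + 7) (4 * n3 + 2) (4 * n4 + 5) - T4 (4 * n2 + 11) (4 * n3 + 2) (4 * n4 + 5)
      + T4 (5) (4 * n2 + 4 * n3 + 9) (4 * n4 + 5) - T4 (5) (4 * n2 + 6) (4 * n3 + 4 * n4 + 7)
      + T4 (5) (4 * n2 + 6) (4 * n3 + 3))| ≤ 1 / 24 := by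
  have h := H1 (6) (5 * n2 + 8) (5 * n3 + 3) (5 * n4 + 6)
  rw [Fn0 (6) (5 * n2 + 8) (by omega), Fn0 (5 * n3 + 3) (5 * n4 + 6) (by omega)] at h
  rw [H2 3 0 2 (4 * n2 + 7) (4 * n3 + 2) (4 * n4 + 5)
    (5 * n2 + 8) (5 * n3 + 3) (5 * n4 + 6)
    (by omega) (by omega) (by omega) (by omega) (by omega) (by omega)] at h
  rw [H2 0 1 3 (4 * n2 + 11) (4 * n3 + 2) (4 * n4 + 5)
    ((6) + (5 * n2 + 8)) (5 * n3 + 3) (5 * n4 + 6)
    (by omega) (by omega) (by omega) (by omega) (by omega) (by omega)] at h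
  rw [H2 3 2 1 (5) (4 * n2 + 4 * n3 + 9) (4 * n4 + 5)
    (6) ((5 * n2 + 8) + (5 * n3 + 3)) (5 * n4 + 6)
    (by omega) (by omega) (by omega) (by omega) (by omega) (by omega)] at h
  rw [H2 1 0 2 (5) (4 * n2 + 6) (4 * n3 + 4 * n4 + 7)
    (6) (5 * n2 + 8) ((5 * n3 + 3) + (5 * n4 + 6))
    (by omega) (by omega) (by omega) (by omega) (by omega) (by omega)] at h
  rw [H2 2 1 3 (5) (4 * n2 + 6) (4 * n3 + 3)
    (6) (5 * n2 + 8) (5 * n3 + 3)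
    (by omega) (by omega) (by omega) (by omega) (by omega) (by omega)] at h
  simpa using h

lemma type5 (n2 n3 n4 : ℕ) :
    |(0 : ℝ) - (T4 (4 * n2 + 7) (4 * n3 + 3) (4 * n4 + 3) - T4 (4 * n2 + 11) (4 * n3 + 3) (4 * n4 + 3)
      + T4 (5) (4 * n2 + 4 * n3 + 10) (4 * n4 + 3) - T4 (5) (4 * n2 + 6) (4 * n3 + 4 * n4 + 7)
      + T4 (5) (4 * n2 + 6) (4 * n3 + 3))| ≤ 1 / 24 := by
  have h := H1 (6) (5 * n2 + 8) (5 * n3 + 4) (5 * n4 + 4)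
  rw [Fn0 (6) (5 * n2 + 8) (by omega), Fn1 (5 * n3 + 4) (5 * n4 + 4) (by omega)] at h
  rw [H2 3 0 1 (4 * n2 + 7) (4 * n3 + 3) (4 * n4 + 3)
    (5 * n2 + 8) (5 * n3 + 4) (5 * n4 + 4)
    (by omega) (by omega) (by omega) (by omega) (by omega) (by omega)] at h
  rw [H2 0 1 2 (4 * n2 + 11) (4 * n3 + 3) (4 * n4 + 3)
    ((6) + (5 * n2 + 8)) (5 * n3 + 4) (5 * n4 + 4)
    (by omega) (by omega) (by omega) (by omega) (by omega) (by omega)] at h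
  rw [H2 3 2 0 (5) (4 * n2 + 4 * n3 + 10) (4 * n4 + 3)
    (6) ((5 * n2 + 8) + (5 * n3 + 4)) (5 * n4 + 4)
    (by omega) (by omega) (by omega) (by omega) (by omega) (by omega)] at h
  rw [H2 2 1 3 (5) (4 * n2 + 6) (4 * n3 + 4 * n4 + 7)
    (6) (5 * n2 + 8) ((5 * n3 + 4) + (5 * n4 + 4))
    (by omega) (by omega) (by omega) (by omega) (by omega) (by omega)] at h
  rw [H2 1 0 2 (5) (4 * n2 + 6) (4 * n3 + 3)
    (6) (5 * n2 + 8) (5 * n3 + 4)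
    (by omega) (by omega) (by omega) (by omega) (by omega) (by omega)] at h
  simpa using h

lemma type6 (n2 n3 n4 : ℕ) :
    |(0 : ℝ) - (T4 (4 * n2 + 3) (4 * n3 + 6) (4 * n4 + 5) - T4 (4 * n2 + 9) (4 * n3 + 5) (4 * n4 + 5)
      + T4 (5) (4 * n2 + 4 * n3 + 9) (4 * n4 + 5) - T4 (6) (4 * n2 + 3) (4 * n3 + 4 * n4 + 10)
      + T4 (6) (4 * n2 + 3) (4 * n3 + 6))| ≤ 1 / 24 := by
  have h := H1 (7) (5 * n2 + 4) (5 * n3 + 7) (5 * n4 + 6)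
  rw [Fn1 (7) (5 * n2 + 4) (by omega), Fn0 (5 * n3 + 7) (5 * n4 + 6) (by omega)] at h
  rw [H2 2 3 1 (4 * n2 + 3) (4 * n3 + 6) (4 * n4 + 5)
    (5 * n2 + 4) (5 * n3 + 7) (5 * n4 + 6)
    (by omega) (by omega) (by omega) (by omega) (by omega) (by omega)] at h
  rw [H2 1 0 3 (4 * n2 + 9) (4 * n3 + 5) (4 * n4 + 5)
    ((7) + (5 * n2 + 4)) (5 * n3 + 7) (5 * n4 + 6)
    (by omega) (by omega) (by omega) (by omega) (by omega) (by omega)] at h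
  rw [H2 0 3 2 (5) (4 * n2 + 4 * n3 + 9) (4 * n4 + 5)
    (7) ((5 * n2 + 4) + (5 * n3 + 7)) (5 * n4 + 6)
    (by omega) (by omega) (by omega) (by omega) (by omega) (by omega)] at h
  rw [H2 2 0 1 (6) (4 * n2 + 3) (4 * n3 + 4 * n4 + 10)
    (7) (5 * n2 + 4) ((5 * n3 + 7) + (5 * n4 + 6))
    (by omega) (by omega) (by omega) (by omega) (by omega) (by omega)] at h
  rw [H2 3 1 2 (6) (4 * n2 + 3) (4 * n3 + 6)
    (7) (5 * n2 + 4) (5 * n3 + 7)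
    (by omega) (by omega) (by omega) (by omega) (by omega) (by omega)] at h
  simpa using h

lemma type7 (n2 n3 n4 : ℕ) :
    |(1 : ℝ) - (T4 (4 * n2 + 3) (4 * n3 + 7) (4 * n4 + 3) - T4 (4 * n2 + 9) (4 * n3 + 6) (4 * n4 + 3)
      + T4 (5) (4 * n2 + 4 * n3 + 10) (4 * n4 + 3) - T4 (6) (4 * n2 + 3) (4 * n3 + 4 * n4 + 10)
      + T4 (6) (4 * n2 + 3) (4 * n3 + 6))| ≤ 1 / 24 := by
  have h := H1 (7) (5 * n2 + 4) (5 * n3 + 8) (5 * n4 + 4)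
  rw [Fn1 (7) (5 * n2 + 4) (by omega), Fn1 (5 * n3 + 8) (5 * n4 + 4) (by omega)] at h
  rw [H2 2 3 0 (4 * n2 + 3) (4 * n3 + 7) (4 * n4 + 3)
    (5 * n2 + 4) (5 * n3 + 8) (5 * n4 + 4)
    (by omega) (by omega) (by omega) (by omega) (by omega) (by omega)] at h
  rw [H2 1 0 2 (4 * n2 + 9) (4 * n3 + 6) (4 * n4 + 3)
    ((7) + (5 * n2 + 4)) (5 * n3 + 8) (5 * n4 + 4)
    (by omega) (by omega) (by omega) (by omega) (by omega) (by omega)] at h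
  rw [H2 0 3 1 (5) (4 * n2 + 4 * n3 + 10) (4 * n4 + 3)
    (7) ((5 * n2 + 4) + (5 * n3 + 8)) (5 * n4 + 4)
    (by omega) (by omega) (by omega) (by omega) (by omega) (by omega)] at h
  rw [H2 3 1 2 (6) (4 * n2 + 3) (4 * n3 + 4 * n4 + 10)
    (7) (5 * n2 + 4) ((5 * n3 + 8) + (5 * n4 + 4))
    (by omega) (by omega) (by omega) (by omega) (by omega) (by omega)] at h
  rw [H2 2 0 1 (6) (4 * n2 + 3) (4 * n3 + 6)
    (7) (5 * n2 + 4) (5 * n3 + 8)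
    (by omega) (by omega) (by omega) (by omega) (by omega) (by omega)] at h
  simpa using h

lemma type8 (n2 n3 n4 : ℕ) :
    |(0 : ℝ) - (T4 (4 * n2 + 5) (4 * n3 + 2) (4 * n4 + 7) - T4 (4 * n2 + 10) (4 * n3 + 3) (4 * n4 + 6)
      + T4 (6) (4 * n2 + 4 * n3 + 7) (4 * n4 + 6) - T4 (5) (4 * n2 + 5) (4 * n3 + 4 * n4 + 9)
      + T4 (6) (4 * n2 + 5) (4 * n3 + 2))| ≤ 1 / 24 := by
  have h := H1 (7) (5 * n2 + 6) (5 * n3 + 3) (5 * n4 + 8)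
  rw [Fn0 (7) (5 * n2 + 6) (by omega), Fn1 (5 * n3 + 3) (5 * n4 + 8) (by omega)] at h
  rw [H2 2 1 3 (4 * n2 + 5) (4 * n3 + 2) (4 * n4 + 7)
    (5 * n2 + 6) (5 * n3 + 3) (5 * n4 + 8)
    (by omega) (by omega) (by omega) (by omega) (by omega) (by omega)] at h
  rw [H2 1 3 0 (4 * n2 + 10) (4 * n3 + 3) (4 * n4 + 6)
    ((7) + (5 * n2 + 6)) (5 * n3 + 3) (5 * n4 + 8)
    (by omega) (by omega) (by omega) (by omega) (by omega) (by omega)] at h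
  rw [H2 2 0 1 (6) (4 * n2 + 4 * n3 + 7) (4 * n4 + 6)
    (7) ((5 * n2 + 6) + (5 * n3 + 3)) (5 * n4 + 8)
    (by omega) (by omega) (by omega) (by omega) (by omega) (by omega)] at h
  rw [H2 0 3 2 (5) (4 * n2 + 5) (4 * n3 + 4 * n4 + 9)
    (7) (5 * n2 + 6) ((5 * n3 + 3) + (5 * n4 + 8))
    (by omega) (by omega) (by omega) (by omega) (by omega) (by omega)] at h
  rw [H2 3 1 0 (6) (4 * n2 + 5) (4 * n3 + 2)
    (7) (5 * n2 + 6) (5 * n3 + 3)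
    (by omega) (by omega) (by omega) (by omega) (by omega) (by omega)] at h
  simpa using h

lemma type9 (n2 n3 n4 : ℕ) :
    |(0 : ℝ) - (T4 (4 * n2 + 5) (4 * n3 + 5) (4 * n4 + 1) - T4 (4 * n2 + 10) (4 * n3 + 5) (4 * n4 + 2)
      + T4 (6) (4 * n2 + 4 * n3 + 9) (4 * n4 + 2) - T4 (6) (4 * n2 + 5) (4 * n3 + 4 * n4 + 6)
      + T4 (5) (4 * n2 + 5) (4 * n3 + 5))| ≤ 1 / 24 := by
  have h := H1 (7) (5 * n2 + 6) (5 * n3 + 6) (5 * n4 + 2)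
  rw [Fn0 (7) (5 * n2 + 6) (by omega), Fn0 (5 * n3 + 6) (5 * n4 + 2) (by omega)] at h
  rw [H2 2 1 0 (4 * n2 + 5) (4 * n3 + 5) (4 * n4 + 1)
    (5 * n2 + 6) (5 * n3 + 6) (5 * n4 + 2)
    (by omega) (by omega) (by omega) (by omega) (by omega) (by omega)] at h
  rw [H2 1 3 2 (4 * n2 + 10) (4 * n3 + 5) (4 * n4 + 2)
    ((7) + (5 * n2 + 6)) (5 * n3 + 6) (5 * n4 + 2)
    (by omega) (by omega) (by omega) (by omega) (by omega) (by omega)] at h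
  rw [H2 2 0 3 (6) (4 * n2 + 4 * n3 + 9) (4 * n4 + 2)
    (7) ((5 * n2 + 6) + (5 * n3 + 6)) (5 * n4 + 2)
    (by omega) (by omega) (by omega) (by omega) (by omega) (by omega)] at h
  rw [H2 3 1 0 (6) (4 * n2 + 5) (4 * n3 + 4 * n4 + 6)
    (7) (5 * n2 + 6) ((5 * n3 + 6) + (5 * n4 + 2))
    (by omega) (by omega) (by omega) (by omega) (by omega) (by omega)] at h
  rw [H2 0 3 2 (5) (4 * n2 + 5) (4 * n3 + 5)
    (7) (5 * n2 + 6) (5 * n3 + 6)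
    (by omega) (by omega) (by omega) (by omega) (by omega) (by omega)] at h
  simpa using h

lemma type10 (n2 n3 n4 : ℕ) :
    |(0 : ℝ) - (T4 (4 * n2 + 6) (4 * n3 + 1) (4 * n4 + 6) - T4 (4 * n2 + 11) (4 * n3 + 2) (4 * n4 + 5)
      + T4 (6) (4 * n2 + 4 * n3 + 7) (4 * n4 + 6) - T4 (5) (4 * n2 + 6) (4 * n3 + 4 * n4 + 7)
      + T4 (6) (4 * n2 + 5) (4 * n3 + 2))| ≤ 1 / 24 := by
  have h := H1 (7) (5 * n2 + 7) (5 * n3 + 2) (5 * n4 + 7)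
  rw [Fn0 (7) (5 * n2 + 7) (by omega), Fn0 (5 * n3 + 2) (5 * n4 + 7) (by omega)] at h
  rw [H2 2 0 3 (4 * n2 + 6) (4 * n3 + 1) (4 * n4 + 6)
    (5 * n2 + 7) (5 * n3 + 2) (5 * n4 + 7)
    (by omega) (by omega) (by omega) (by omega) (by omega) (by omega)] at h
  rw [H2 1 2 0 (4 * n2 + 11) (4 * n3 + 2) (4 * n4 + 5)
    ((7) + (5 * n2 + 7)) (5 * n3 + 2) (5 * n4 + 7)
    (by omega) (by omega) (by omega) (by omega) (by omega) (by omega)] at h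
  rw [H2 3 1 2 (6) (4 * n2 + 4 * n3 + 7) (4 * n4 + 6)
    (7) ((5 * n2 + 7) + (5 * n3 + 2)) (5 * n4 + 7)
    (by omega) (by omega) (by omega) (by omega) (by omega) (by omega)] at h
  rw [H2 0 3 1 (5) (4 * n2 + 6) (4 * n3 + 4 * n4 + 7)
    (7) (5 * n2 + 7) ((5 * n3 + 2) + (5 * n4 + 7))
    (by omega) (by omega) (by omega) (by omega) (by omega) (by omega)] at h
  rw [H2 2 0 3 (6) (4 * n2 + 5) (4 * n3 + 2)
    (7) (5 * n2 + 7) (5 * n3 + 2)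
    (by omega) (by omega) (by omega) (by omega) (by omega) (by omega)] at h
  simpa using h

lemma type11 (n2 n3 n4 : ℕ) :
    |(0 : ℝ) - (T4 (4 * n2 + 6) (4 * n3 + 3) (4 * n4 + 2) - T4 (4 * n2 + 11) (4 * n3 + 3) (4 * n4 + 3)
      + T4 (6) (4 * n2 + 4 * n3 + 9) (4 * n4 + 2) - T4 (6) (4 * n2 + 5) (4 * n3 + 4 * n4 + 6)
      + T4 (5) (4 * n2 + 6) (4 * n3 + 3))| ≤ 1 / 24 := by
  have h := H1 (7) (5 * n2 + 7) (5 * n3 + 4) (5 * n4 + 3)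
  rw [Fn0 (7) (5 * n2 + 7) (by omega), Fn1 (5 * n3 + 4) (5 * n4 + 3) (by omega)] at h
  rw [H2 2 0 1 (4 * n2 + 6) (4 * n3 + 3) (4 * n4 + 2)
    (5 * n2 + 7) (5 * n3 + 4) (5 * n4 + 3)
    (by omega) (by omega) (by omega) (by omega) (by omega) (by omega)] at h
  rw [H2 1 2 3 (4 * n2 + 11) (4 * n3 + 3) (4 * n4 + 3)
    ((7) + (5 * n2 + 7)) (5 * n3 + 4) (5 * n4 + 3)
    (by omega) (by omega) (by omega) (by omega) (by omega) (by omega)] at h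
  rw [H2 3 1 0 (6) (4 * n2 + 4 * n3 + 9) (4 * n4 + 2)
    (7) ((5 * n2 + 7) + (5 * n3 + 4)) (5 * n4 + 3)
    (by omega) (by omega) (by omega) (by omega) (by omega) (by omega)] at h
  rw [H2 2 0 3 (6) (4 * n2 + 5) (4 * n3 + 4 * n4 + 6)
    (7) (5 * n2 + 7) ((5 * n3 + 4) + (5 * n4 + 3))
    (by omega) (by omega) (by omega) (by omega) (by omega) (by omega)] at h
  rw [H2 0 3 1 (5) (4 * n2 + 6) (4 * n3 + 3)
    (7) (5 * n2 + 7) (5 * n3 + 4)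
    (by omega) (by omega) (by omega) (by omega) (by omega) (by omega)] at h
  simpa using h

lemma type12 (n2 n3 n4 : ℕ) :
    |(0 : ℝ) - (T4 (4 * n2 + 2) (4 * n3 + 5) (4 * n4 + 6) - T4 (4 * n2 + 9) (4 * n3 + 5) (4 * n4 + 5)
      + T4 (6) (4 * n2 + 4 * n3 + 7) (4 * n4 + 6) - T4 (6) (4 * n2 + 3) (4 * n3 + 4 * n4 + 10)
      + T4 (7) (4 * n2 + 2) (4 * n3 + 5))| ≤ 1 / 24 := by
  have h := H1 (8) (5 * n2 + 3) (5 * n3 + 6) (5 * n4 + 7)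
  rw [Fn1 (8) (5 * n2 + 3) (by omega), Fn0 (5 * n3 + 6) (5 * n4 + 7) (by omega)] at h
  rw [H2 1 3 2 (4 * n2 + 2) (4 * n3 + 5) (4 * n4 + 6)
    (5 * n2 + 3) (5 * n3 + 6) (5 * n4 + 7)
    (by omega) (by omega) (by omega) (by omega) (by omega) (by omega)] at h
  rw [H2 2 1 0 (4 * n2 + 9) (4 * n3 + 5) (4 * n4 + 5)
    ((8) + (5 * n2 + 3)) (5 * n3 + 6) (5 * n4 + 7)
    (by omega) (by omega) (by omega) (by omega) (by omega) (by omega)] at h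
  rw [H2 0 2 3 (6) (4 * n2 + 4 * n3 + 7) (4 * n4 + 6)
    (8) ((5 * n2 + 3) + (5 * n3 + 6)) (5 * n4 + 7)
    (by omega) (by omega) (by omega) (by omega) (by omega) (by omega)] at h
  rw [H2 1 3 0 (6) (4 * n2 + 3) (4 * n3 + 4 * n4 + 10)
    (8) (5 * n2 + 3) ((5 * n3 + 6) + (5 * n4 + 7))
    (by omega) (by omega) (by omega) (by omega) (by omega) (by omega)] at h
  rw [H2 3 0 2 (7) (4 * n2 + 2) (4 * n3 + 5)
    (8) (5 * n2 + 3) (5 * n3 + 6)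
    (by omega) (by omega) (by omega) (by omega) (by omega) (by omega)] at h
  simpa using h

lemma type13 (n2 n3 n4 : ℕ) :
    |(1 : ℝ) - (T4 (4 * n2 + 2) (4 * n3 + 7) (4 * n4 + 2) - T4 (4 * n2 + 9) (4 * n3 + 6) (4 * n4 + 3)
      + T4 (6) (4 * n2 + 4 * n3 + 9) (4 * n4 + 2) - T4 (7) (4 * n2 + 2) (4 * n3 + 4 * n4 + 9)
      + T4 (6) (4 * n2 + 3) (4 * n3 + 6))| ≤ 1 / 24 := by
  have h := H1 (8) (5 * n2 + 3) (5 * n3 + 8) (5 * n4 + 3)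
  rw [Fn1 (8) (5 * n2 + 3) (by omega), Fn1 (5 * n3 + 8) (5 * n4 + 3) (by omega)] at h
  rw [H2 1 3 0 (4 * n2 + 2) (4 * n3 + 7) (4 * n4 + 2)
    (5 * n2 + 3) (5 * n3 + 8) (5 * n4 + 3)
    (by omega) (by omega) (by omega) (by omega) (by omega) (by omega)] at h
  rw [H2 2 1 3 (4 * n2 + 9) (4 * n3 + 6) (4 * n4 + 3)
    ((8) + (5 * n2 + 3)) (5 * n3 + 8) (5 * n4 + 3)
    (by omega) (by omega) (by omega) (by omega) (by omega) (by omega)] at h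
  rw [H2 0 2 1 (6) (4 * n2 + 4 * n3 + 9) (4 * n4 + 2)
    (8) ((5 * n2 + 3) + (5 * n3 + 8)) (5 * n4 + 3)
    (by omega) (by omega) (by omega) (by omega) (by omega) (by omega)] at h
  rw [H2 3 0 2 (7) (4 * n2 + 2) (4 * n3 + 4 * n4 + 9)
    (8) (5 * n2 + 3) ((5 * n3 + 8) + (5 * n4 + 3))
    (by omega) (by omega) (by omega) (by omega) (by omega) (by omega)] at h
  rw [H2 1 3 0 (6) (4 * n2 + 3) (4 * n3 + 6)
    (8) (5 * n2 + 3) (5 * n3 + 8)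
    (by omega) (by omega) (by omega) (by omega) (by omega) (by omega)] at h
  simpa using h

lemma type14 (n2 n3 n4 : ℕ) :
    |(1 : ℝ) - (T4 (4 * n2 + 3) (4 * n3 + 3) (4 * n4 + 7) - T4 (4 * n2 + 10) (4 * n3 + 3) (4 * n4 + 6)
      + T4 (6) (4 * n2 + 4 * n3 + 7) (4 * n4 + 6) - T4 (6) (4 * n2 + 3) (4 * n3 + 4 * n4 + 10)
      + T4 (7) (4 * n2 + 3) (4 * n3 + 3))| ≤ 1 / 24 := by
  have h := H1 (8) (5 * n2 + 4) (5 * n3 + 4) (5 * n4 + 8)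
  rw [Fn1 (8) (5 * n2 + 4) (by omega), Fn1 (5 * n3 + 4) (5 * n4 + 8) (by omega)] at h
  rw [H2 1 2 3 (4 * n2 + 3) (4 * n3 + 3) (4 * n4 + 7)
    (5 * n2 + 4) (5 * n3 + 4) (5 * n4 + 8)
    (by omega) (by omega) (by omega) (by omega) (by omega) (by omega)] at h
  rw [H2 2 0 1 (4 * n2 + 10) (4 * n3 + 3) (4 * n4 + 6)
    ((8) + (5 * n2 + 4)) (5 * n3 + 4) (5 * n4 + 8)
    (by omega) (by omega) (by omega) (by omega) (by omega) (by omega)] at h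
  rw [H2 1 3 0 (6) (4 * n2 + 4 * n3 + 7) (4 * n4 + 6)
    (8) ((5 * n2 + 4) + (5 * n3 + 4)) (5 * n4 + 8)
    (by omega) (by omega) (by omega) (by omega) (by omega) (by omega)] at h
  rw [H2 0 2 3 (6) (4 * n2 + 3) (4 * n3 + 4 * n4 + 10)
    (8) (5 * n2 + 4) ((5 * n3 + 4) + (5 * n4 + 8))
    (by omega) (by omega) (by omega) (by omega) (by omega) (by omega)] at h
  rw [H2 3 0 1 (7) (4 * n2 + 3) (4 * n3 + 3)
    (8) (5 * n2 + 4) (5 * n3 + 4)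
    (by omega) (by omega) (by omega) (by omega) (by omega) (by omega)] at h
  simpa using h

lemma type15 (n2 n3 n4 : ℕ) :
    |(0 : ℝ) - (T4 (4 * n2 + 3) (4 * n3 + 6) (4 * n4 + 1) - T4 (4 * n2 + 10) (4 * n3 + 5) (4 * n4 + 2)
      + T4 (6) (4 * n2 + 4 * n3 + 9) (4 * n4 + 2) - T4 (7) (4 * n2 + 3) (4 * n3 + 4 * n4 + 7)
      + T4 (6) (4 * n2 + 3) (4 * n3 + 6))| ≤ 1 / 24 := by
  have h := H1 (8) (5 * n2 + 4) (5 * n3 + 7) (5 * n4 + 2)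
  rw [Fn1 (8) (5 * n2 + 4) (by omega), Fn0 (5 * n3 + 7) (5 * n4 + 2) (by omega)] at h
  rw [H2 1 2 0 (4 * n2 + 3) (4 * n3 + 6) (4 * n4 + 1)
    (5 * n2 + 4) (5 * n3 + 7) (5 * n4 + 2)
    (by omega) (by omega) (by omega) (by omega) (by omega) (by omega)] at h
  rw [H2 2 0 3 (4 * n2 + 10) (4 * n3 + 5) (4 * n4 + 2)
    ((8) + (5 * n2 + 4)) (5 * n3 + 7) (5 * n4 + 2)
    (by omega) (by omega) (by omega) (by omega) (by omega) (by omega)] at h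
  rw [H2 1 3 2 (6) (4 * n2 + 4 * n3 + 9) (4 * n4 + 2)
    (8) ((5 * n2 + 4) + (5 * n3 + 7)) (5 * n4 + 2)
    (by omega) (by omega) (by omega) (by omega) (by omega) (by omega)] at h
  rw [H2 3 0 1 (7) (4 * n2 + 3) (4 * n3 + 4 * n4 + 7)
    (8) (5 * n2 + 4) ((5 * n3 + 7) + (5 * n4 + 2))
    (by omega) (by omega) (by omega) (by omega) (by omega) (by omega)] at h
  rw [H2 0 2 3 (6) (4 * n2 + 3) (4 * n3 + 6)
    (8) (5 * n2 + 4) (5 * n3 + 7)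
    (by omega) (by omega) (by omega) (by omega) (by omega) (by omega)] at h
  simpa using h

lemma type16 (n2 n3 n4 : ℕ) :
    |(0 : ℝ) - (T4 (4 * n2 + 5) (4 * n3 + 1) (4 * n4 + 5) - T4 (4 * n2 + 11) (4 * n3 + 2) (4 * n4 + 5)
      + T4 (7) (4 * n2 + 4 * n3 + 6) (4 * n4 + 5) - T4 (6) (4 * n2 + 5) (4 * n3 + 4 * n4 + 6)
      + T4 (6) (4 * n2 + 5) (4 * n3 + 2))| ≤ 1 / 24 := by
  have h := H1 (8) (5 * n2 + 6) (5 * n3 + 2) (5 * n4 + 6)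
  rw [Fn0 (8) (5 * n2 + 6) (by omega), Fn0 (5 * n3 + 2) (5 * n4 + 6) (by omega)] at h
  rw [H2 1 0 3 (4 * n2 + 5) (4 * n3 + 1) (4 * n4 + 5)
    (5 * n2 + 6) (5 * n3 + 2) (5 * n4 + 6)
    (by omega) (by omega) (by omega) (by omega) (by omega) (by omega)] at h
  rw [H2 2 3 1 (4 * n2 + 11) (4 * n3 + 2) (4 * n4 + 5)
    ((8) + (5 * n2 + 6)) (5 * n3 + 2) (5 * n4 + 6)
    (by omega) (by omega) (by omega) (by omega) (by omega) (by omega)] at h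
  rw [H2 3 0 2 (7) (4 * n2 + 4 * n3 + 6) (4 * n4 + 5)
    (8) ((5 * n2 + 6) + (5 * n3 + 2)) (5 * n4 + 6)
    (by omega) (by omega) (by omega) (by omega) (by omega) (by omega)] at h
  rw [H2 0 2 1 (6) (4 * n2 + 5) (4 * n3 + 4 * n4 + 6)
    (8) (5 * n2 + 6) ((5 * n3 + 2) + (5 * n4 + 6))
    (by omega) (by omega) (by omega) (by omega) (by omega) (by omega)] at h
  rw [H2 1 3 2 (6) (4 * n2 + 5) (4 * n3 + 2)
    (8) (5 * n2 + 6) (5 * n3 + 2)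
    (by omega) (by omega) (by omega) (by omega) (by omega) (by omega)] at h
  simpa using h

lemma type17 (n2 n3 n4 : ℕ) :
    |(0 : ℝ) - (T4 (4 * n2 + 5) (4 * n3 + 2) (4 * n4 + 3) - T4 (4 * n2 + 11) (4 * n3 + 3) (4 * n4 + 3)
      + T4 (7) (4 * n2 + 4 * n3 + 7) (4 * n4 + 3) - T4 (6) (4 * n2 + 5) (4 * n3 + 4 * n4 + 6)
      + T4 (6) (4 * n2 + 5) (4 * n3 + 2))| ≤ 1 / 24 := by
  have h := H1 (8) (5 * n2 + 6) (5 * n3 + 3) (5 * n4 + 4)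
  rw [Fn0 (8) (5 * n2 + 6) (by omega), Fn1 (5 * n3 + 3) (5 * n4 + 4) (by omega)] at h
  rw [H2 1 0 2 (4 * n2 + 5) (4 * n3 + 2) (4 * n4 + 3)
    (5 * n2 + 6) (5 * n3 + 3) (5 * n4 + 4)
    (by omega) (by omega) (by omega) (by omega) (by omega) (by omega)] at h
  rw [H2 2 3 0 (4 * n2 + 11) (4 * n3 + 3) (4 * n4 + 3)
    ((8) + (5 * n2 + 6)) (5 * n3 + 3) (5 * n4 + 4)
    (by omega) (by omega) (by omega) (by omega) (by omega) (by omega)] at h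
  rw [H2 3 0 1 (7) (4 * n2 + 4 * n3 + 7) (4 * n4 + 3)
    (8) ((5 * n2 + 6) + (5 * n3 + 3)) (5 * n4 + 4)
    (by omega) (by omega) (by omega) (by omega) (by omega) (by omega)] at h
  rw [H2 1 3 2 (6) (4 * n2 + 5) (4 * n3 + 4 * n4 + 6)
    (8) (5 * n2 + 6) ((5 * n3 + 3) + (5 * n4 + 4))
    (by omega) (by omega) (by omega) (by omega) (by omega) (by omega)] at h
  rw [H2 0 2 1 (6) (4 * n2 + 5) (4 * n3 + 2)
    (8) (5 * n2 + 6) (5 * n3 + 3)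
    (by omega) (by omega) (by omega) (by omega) (by omega) (by omega)] at h
  simpa using h

lemma type18 (n2 n3 n4 : ℕ) :
    |(0 : ℝ) - (T4 (4 * n2 + 1) (4 * n3 + 5) (4 * n4 + 5) - T4 (4 * n2 + 9) (4 * n3 + 5) (4 * n4 + 5)
      + T4 (7) (4 * n2 + 4 * n3 + 6) (4 * n4 + 5) - T4 (7) (4 * n2 + 2) (4 * n3 + 4 * n4 + 9)
      + T4 (7) (4 * n2 + 2) (4 * n3 + 5))| ≤ 1 / 24 := by
  have h := H1 (9) (5 * n2 + 2) (5 * n3 + 6) (5 * n4 + 6)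
  rw [Fn1 (9) (5 * n2 + 2) (by omega), Fn0 (5 * n3 + 6) (5 * n4 + 6) (by omega)] at h
  rw [H2 0 3 2 (4 * n2 + 1) (4 * n3 + 5) (4 * n4 + 5)
    (5 * n2 + 2) (5 * n3 + 6) (5 * n4 + 6)
    (by omega) (by omega) (by omega) (by omega) (by omega) (by omega)] at h
  rw [H2 3 2 1 (4 * n2 + 9) (4 * n3 + 5) (4 * n4 + 5)
    ((9) + (5 * n2 + 2)) (5 * n3 + 6) (5 * n4 + 6)
    (by omega) (by omega) (by omega) (by omega) (by omega) (by omega)] at h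
  rw [H2 0 1 3 (7) (4 * n2 + 4 * n3 + 6) (4 * n4 + 5)
    (9) ((5 * n2 + 2) + (5 * n3 + 6)) (5 * n4 + 6)
    (by omega) (by omega) (by omega) (by omega) (by omega) (by omega)] at h
  rw [H2 1 2 0 (7) (4 * n2 + 2) (4 * n3 + 4 * n4 + 9)
    (9) (5 * n2 + 2) ((5 * n3 + 6) + (5 * n4 + 6))
    (by omega) (by omega) (by omega) (by omega) (by omega) (by omega)] at h
  rw [H2 2 3 1 (7) (4 * n2 + 2) (4 * n3 + 5)
    (9) (5 * n2 + 2) (5 * n3 + 6)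
    (by omega) (by omega) (by omega) (by omega) (by omega) (by omega)] at h
  simpa using h

lemma type19 (n2 n3 n4 : ℕ) :
    |(1 : ℝ) - (T4 (4 * n2 + 1) (4 * n3 + 6) (4 * n4 + 3) - T4 (4 * n2 + 9) (4 * n3 + 6) (4 * n4 + 3)
      + T4 (7) (4 * n2 + 4 * n3 + 7) (4 * n4 + 3) - T4 (7) (4 * n2 + 2) (4 * n3 + 4 * n4 + 9)
      + T4 (7) (4 * n2 + 2) (4 * n3 + 5))| ≤ 1 / 24 := by
  have h := H1 (9) (5 * n2 + 2) (5 * n3 + 7) (5 * n4 + 4)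
  rw [Fn1 (9) (5 * n2 + 2) (by omega), Fn1 (5 * n3 + 7) (5 * n4 + 4) (by omega)] at h
  rw [H2 0 3 1 (4 * n2 + 1) (4 * n3 + 6) (4 * n4 + 3)
    (5 * n2 + 2) (5 * n3 + 7) (5 * n4 + 4)
    (by omega) (by omega) (by omega) (by omega) (by omega) (by omega)] at h
  rw [H2 3 2 0 (4 * n2 + 9) (4 * n3 + 6) (4 * n4 + 3)
    ((9) + (5 * n2 + 2)) (5 * n3 + 7) (5 * n4 + 4)
    (by omega) (by omega) (by omega) (by omega) (by omega) (by omega)] at h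
  rw [H2 0 1 2 (7) (4 * n2 + 4 * n3 + 7) (4 * n4 + 3)
    (9) ((5 * n2 + 2) + (5 * n3 + 7)) (5 * n4 + 4)
    (by omega) (by omega) (by omega) (by omega) (by omega) (by omega)] at h
  rw [H2 2 3 1 (7) (4 * n2 + 2) (4 * n3 + 4 * n4 + 9)
    (9) (5 * n2 + 2) ((5 * n3 + 7) + (5 * n4 + 4))
    (by omega) (by omega) (by omega) (by omega) (by omega) (by omega)] at h
  rw [H2 1 2 0 (7) (4 * n2 + 2) (4 * n3 + 5)
    (9) (5 * n2 + 2) (5 * n3 + 7)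
    (by omega) (by omega) (by omega) (by omega) (by omega) (by omega)] at h
  simpa using h

lemma type20 (n2 n3 n4 : ℕ) :
    |(1 : ℝ) - (T4 (4 * n2 + 2) (4 * n3 + 3) (4 * n4 + 6) - T4 (4 * n2 + 10) (4 * n3 + 3) (4 * n4 + 6)
      + T4 (7) (4 * n2 + 4 * n3 + 6) (4 * n4 + 5) - T4 (7) (4 * n2 + 2) (4 * n3 + 4 * n4 + 9)
      + T4 (7) (4 * n2 + 3) (4 * n3 + 3))| ≤ 1 / 24 := by
  have h := H1 (9) (5 * n2 + 3) (5 * n3 + 4) (5 * n4 + 7)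
  rw [Fn1 (9) (5 * n2 + 3) (by omega), Fn1 (5 * n3 + 4) (5 * n4 + 7) (by omega)] at h
  rw [H2 0 2 3 (4 * n2 + 2) (4 * n3 + 3) (4 * n4 + 6)
    (5 * n2 + 3) (5 * n3 + 4) (5 * n4 + 7)
    (by omega) (by omega) (by omega) (by omega) (by omega) (by omega)] at h
  rw [H2 3 1 2 (4 * n2 + 10) (4 * n3 + 3) (4 * n4 + 6)
    ((9) + (5 * n2 + 3)) (5 * n3 + 4) (5 * n4 + 7)
    (by omega) (by omega) (by omega) (by omega) (by omega) (by omega)] at h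
  rw [H2 1 2 0 (7) (4 * n2 + 4 * n3 + 6) (4 * n4 + 5)
    (9) ((5 * n2 + 3) + (5 * n3 + 4)) (5 * n4 + 7)
    (by omega) (by omega) (by omega) (by omega) (by omega) (by omega)] at h
  rw [H2 0 1 3 (7) (4 * n2 + 2) (4 * n3 + 4 * n4 + 9)
    (9) (5 * n2 + 3) ((5 * n3 + 4) + (5 * n4 + 7))
    (by omega) (by omega) (by omega) (by omega) (by omega) (by omega)] at h
  rw [H2 2 3 0 (7) (4 * n2 + 3) (4 * n3 + 3)
    (9) (5 * n2 + 3) (5 * n3 + 4)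
    (by omega) (by omega) (by omega) (by omega) (by omega) (by omega)] at h
  simpa using h

lemma type21 (n2 n3 n4 : ℕ) :
    |(0 : ℝ) - (T4 (4 * n2 + 2) (4 * n3 + 5) (4 * n4 + 2) - T4 (4 * n2 + 10) (4 * n3 + 5) (4 * n4 + 2)
      + T4 (7) (4 * n2 + 4 * n3 + 7) (4 * n4 + 3) - T4 (7) (4 * n2 + 3) (4 * n3 + 4 * n4 + 7)
      + T4 (7) (4 * n2 + 2) (4 * n3 + 5))| ≤ 1 / 24 := by
  have h := H1 (9) (5 * n2 + 3) (5 * n3 + 6) (5 * n4 + 3)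
  rw [Fn1 (9) (5 * n2 + 3) (by omega), Fn0 (5 * n3 + 6) (5 * n4 + 3) (by omega)] at h
  rw [H2 0 2 1 (4 * n2 + 2) (4 * n3 + 5) (4 * n4 + 2)
    (5 * n2 + 3) (5 * n3 + 6) (5 * n4 + 3)
    (by omega) (by omega) (by omega) (by omega) (by omega) (by omega)] at h
  rw [H2 3 1 0 (4 * n2 + 10) (4 * n3 + 5) (4 * n4 + 2)
    ((9) + (5 * n2 + 3)) (5 * n3 + 6) (5 * n4 + 3)
    (by omega) (by omega) (by omega) (by omega) (by omega) (by omega)] at h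
  rw [H2 1 2 3 (7) (4 * n2 + 4 * n3 + 7) (4 * n4 + 3)
    (9) ((5 * n2 + 3) + (5 * n3 + 6)) (5 * n4 + 3)
    (by omega) (by omega) (by omega) (by omega) (by omega) (by omega)] at h
  rw [H2 2 3 0 (7) (4 * n2 + 3) (4 * n3 + 4 * n4 + 7)
    (9) (5 * n2 + 3) ((5 * n3 + 6) + (5 * n4 + 3))
    (by omega) (by omega) (by omega) (by omega) (by omega) (by omega)] at h
  rw [H2 0 1 3 (7) (4 * n2 + 2) (4 * n3 + 5)
    (9) (5 * n2 + 3) (5 * n3 + 6)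
    (by omega) (by omega) (by omega) (by omega) (by omega) (by omega)] at h
  simpa using h

lemma type22 (n2 n3 n4 : ℕ) :
    |(0 : ℝ) - (T4 (4 * n2 + 3) (4 * n3 + 2) (4 * n4 + 5) - T4 (4 * n2 + 11) (4 * n3 + 2) (4 * n4 + 5)
      + T4 (7) (4 * n2 + 4 * n3 + 6) (4 * n4 + 5) - T4 (7) (4 * n2 + 3) (4 * n3 + 4 * n4 + 7)
      + T4 (7) (4 * n2 + 3) (4 * n3 + 3))| ≤ 1 / 24 := by
  have h := H1 (9) (5 * n2 + 4) (5 * n3 + 3) (5 * n4 + 6)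
  rw [Fn1 (9) (5 * n2 + 4) (by omega), Fn0 (5 * n3 + 3) (5 * n4 + 6) (by omega)] at h
  rw [H2 0 1 3 (4 * n2 + 3) (4 * n3 + 2) (4 * n4 + 5)
    (5 * n2 + 4) (5 * n3 + 3) (5 * n4 + 6)
    (by omega) (by omega) (by omega) (by omega) (by omega) (by omega)] at h
  rw [H2 3 0 2 (4 * n2 + 11) (4 * n3 + 2) (4 * n4 + 5)
    ((9) + (5 * n2 + 4)) (5 * n3 + 3) (5 * n4 + 6)
    (by omega) (by omega) (by omega) (by omega) (by omega) (by omega)] at h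
  rw [H2 2 3 1 (7) (4 * n2 + 4 * n3 + 6) (4 * n4 + 5)
    (9) ((5 * n2 + 4) + (5 * n3 + 3)) (5 * n4 + 6)
    (by omega) (by omega) (by omega) (by omega) (by omega) (by omega)] at h
  rw [H2 0 1 2 (7) (4 * n2 + 3) (4 * n3 + 4 * n4 + 7)
    (9) (5 * n2 + 4) ((5 * n3 + 3) + (5 * n4 + 6))
    (by omega) (by omega) (by omega) (by omega) (by omega) (by omega)] at h
  rw [H2 1 2 3 (7) (4 * n2 + 3) (4 * n3 + 3)
    (9) (5 * n2 + 4) (5 * n3 + 3)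
    (by omega) (by omega) (by omega) (by omega) (by omega) (by omega)] at h
  simpa using h

lemma type23 (n2 n3 n4 : ℕ) :
    |(1 : ℝ) - (T4 (4 * n2 + 3) (4 * n3 + 3) (4 * n4 + 3) - T4 (4 * n2 + 11) (4 * n3 + 3) (4 * n4 + 3)
      + T4 (7) (4 * n2 + 4 * n3 + 7) (4 * n4 + 3) - T4 (7) (4 * n2 + 3) (4 * n3 + 4 * n4 + 7)
      + T4 (7) (4 * n2 + 3) (4 * n3 + 3))| ≤ 1 / 24 := by
  have h := H1 (9) (5 * n2 + 4) (5 * n3 + 4) (5 * n4 + 4)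
  rw [Fn1 (9) (5 * n2 + 4) (by omega), Fn1 (5 * n3 + 4) (5 * n4 + 4) (by omega)] at h
  rw [H2 0 1 2 (4 * n2 + 3) (4 * n3 + 3) (4 * n4 + 3)
    (5 * n2 + 4) (5 * n3 + 4) (5 * n4 + 4)
    (by omega) (by omega) (by omega) (by omega) (by omega) (by omega)] at h
  rw [H2 3 0 1 (4 * n2 + 11) (4 * n3 + 3) (4 * n4 + 3)
    ((9) + (5 * n2 + 4)) (5 * n3 + 4) (5 * n4 + 4)
    (by omega) (by omega) (by omega) (by omega) (by omega) (by omega)] at h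
  rw [H2 2 3 0 (7) (4 * n2 + 4 * n3 + 7) (4 * n4 + 3)
    (9) ((5 * n2 + 4) + (5 * n3 + 4)) (5 * n4 + 4)
    (by omega) (by omega) (by omega) (by omega) (by omega) (by omega)] at h
  rw [H2 1 2 3 (7) (4 * n2 + 3) (4 * n3 + 4 * n4 + 7)
    (9) (5 * n2 + 4) ((5 * n3 + 4) + (5 * n4 + 4))
    (by omega) (by omega) (by omega) (by omega) (by omega) (by omega)] at h
  rw [H2 0 1 2 (7) (4 * n2 + 3) (4 * n3 + 3)
    (9) (5 * n2 + 4) (5 * n3 + 4)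
    (by omega) (by omega) (by omega) (by omega) (by omega) (by omega)] at h
  simpa using h

lemma pointwise (n2 n3 n4 : ℕ) :
    (1 : ℝ) ≤ 0 + T4 (4 * n2 + 5) (4 * n3 + 5) (4 * n4 + 5)
      - T4 (4 * n2 + 5) (4 * n3 + 6) (4 * n4 + 3)
      - T4 (4 * n2 + 6) (4 * n3 + 3) (4 * n4 + 6)
      + T4 (4 * n2 + 6) (4 * n3 + 5) (4 * n4 + 2)
      + T4 (4 * n2 + 7) (4 * n3 + 2) (4 * n4 + 5)
      - T4 (4 * n2 + 7) (4 * n3 + 3) (4 * n4 + 3)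
      - T4 (4 * n2 + 3) (4 * n3 + 6) (4 * n4 + 5)
      + T4 (4 * n2 + 3) (4 * n3 + 7) (4 * n4 + 3)
      + T4 (4 * n2 + 5) (4 * n3 + 2) (4 * n4 + 7)
      - T4 (4 * n2 + 5) (4 * n3 + 5) (4 * n4 + 1)
      - T4 (4 * n2 + 6) (4 * n3 + 1) (4 * n4 + 6)
      + T4 (4 * n2 + 6) (4 * n3 + 3) (4 * n4 + 2)
      + T4 (4 * n2 + 2) (4 * n3 + 5) (4 * n4 + 6)
      - T4 (4 * n2 + 2) (4 * n3 + 7) (4 * n4 + 2)
      - T4 (4 * n2 + 3) (4 * n3 + 3) (4 * n4 + 7)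
      + T4 (4 * n2 + 3) (4 * n3 + 6) (4 * n4 + 1)
      + T4 (4 * n2 + 5) (4 * n3 + 1) (4 * n4 + 5)
      - T4 (4 * n2 + 5) (4 * n3 + 2) (4 * n4 + 3)
      - T4 (4 * n2 + 1) (4 * n3 + 5) (4 * n4 + 5)
      + T4 (4 * n2 + 1) (4 * n3 + 6) (4 * n4 + 3)
      + T4 (4 * n2 + 2) (4 * n3 + 3) (4 * n4 + 6)
      - T4 (4 * n2 + 2) (4 * n3 + 5) (4 * n4 + 2)
      - T4 (4 * n2 + 3) (4 * n3 + 2) (4 * n4 + 5)
      + T4 (4 * n2 + 3) (4 * n3 + 3) (4 * n4 + 3)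
      := by
  have h0 := abs_le.1 (type0 T5 T4 H1 H2 n2 n3 n4)
  have h1 := abs_le.1 (type1 T5 T4 H1 H2 n2 n3 n4)
  have h2 := abs_le.1 (type2 T5 T4 H1 H2 n2 n3 n4)
  have h3 := abs_le.1 (type3 T5 T4 H1 H2 n2 n3 n4)
  have h4 := abs_le.1 (type4 T5 T4 H1 H2 n2 n3 n4)
  have h5 := abs_le.1 (type5 T5 T4 H1 H2 n2 n3 n4)
  have h6 := abs_le.1 (type6 T5 T4 H1 H2 n2 n3 n4)
  have h7 := abs_le.1 (type7 T5 T4 H1 H2 n2 n3 n4)
  have h8 := abs_le.1 (type8 T5 T4 H1 H2 n2 n3 n4)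
  have h9 := abs_le.1 (type9 T5 T4 H1 H2 n2 n3 n4)
  have h10 := abs_le.1 (type10 T5 T4 H1 H2 n2 n3 n4)
  have h11 := abs_le.1 (type11 T5 T4 H1 H2 n2 n3 n4)
  have h12 := abs_le.1 (type12 T5 T4 H1 H2 n2 n3 n4)
  have h13 := abs_le.1 (type13 T5 T4 H1 H2 n2 n3 n4)
  have h14 := abs_le.1 (type14 T5 T4 H1 H2 n2 n3 n4)
  have h15 := abs_le.1 (type15 T5 T4 H1 H2 n2 n3 n4)
  have h16 := abs_le.1 (type16 T5 T4 H1 H2 n2 n3 n4)
  have h17 := abs_le.1 (type17 T5 T4 H1 H2 n2 n3 n4)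
  have h18 := abs_le.1 (type18 T5 T4 H1 H2 n2 n3 n4)
  have h19 := abs_le.1 (type19 T5 T4 H1 H2 n2 n3 n4)
  have h20 := abs_le.1 (type20 T5 T4 H1 H2 n2 n3 n4)
  have h21 := abs_le.1 (type21 T5 T4 H1 H2 n2 n3 n4)
  have h22 := abs_le.1 (type22 T5 T4 H1 H2 n2 n3 n4)
  have h23 := abs_le.1 (type23 T5 T4 H1 H2 n2 n3 n4)
  linarith [h0.1, h0.2, h1.1, h1.2, h2.1, h2.2, h3.1, h3.2, h4.1, h4.2, h5.1, h5.2, h6.1, h6.2, h7.1, h7.2, h8.1, h8.2, h9.1, h9.2, h10.1, h10.2, h11.1, h11.2, h12.1, h12.2, h13.1, h13.2, h14.1, h14.2, h15.1, h15.2, h16.1, h16.2, h17.1, h17.2, h18.1, h18.2, h19.1, h19.2, h20.1, h20.2, h21.1, h21.2, h22.1, h22.2, h23.1, h23.2]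

lemma contra (K : ℝ) (hK : ∀ a b c, |T4 a b c| ≤ K) : False := by
  have key : ∀ N : ℕ, (N : ℝ) * (N * N) ≤ 144 * (N * (N * K)) := by
    intro N
    have h : (N : ℝ) * (N * N) ≤ 0 + Sm T4 N 5 5 5
      - Sm T4 N 5 6 3
      - Sm T4 N 6 3 6
      + Sm T4 N 6 5 2
      + Sm T4 N 7 2 5
      - Sm T4 N 7 3 3
      - Sm T4 N 3 6 5
      + Sm T4 N 3 7 3
      + Sm T4 N 5 2 7
      - Sm T4 N 5 5 1
      - Sm T4 N 6 1 6
      + Sm T4 N 6 3 2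
      + Sm T4 N 2 5 6
      - Sm T4 N 2 7 2
      - Sm T4 N 3 3 7
      + Sm T4 N 3 6 1
      + Sm T4 N 5 1 5
      - Sm T4 N 5 2 3
      - Sm T4 N 1 5 5
      + Sm T4 N 1 6 3
      + Sm T4 N 2 3 6
      - Sm T4 N 2 5 2
      - Sm T4 N 3 2 5
      + Sm T4 N 3 3 3
      := by
      have h0 : ∑ _n2 ∈ range N, ∑ _n3 ∈ range N, ∑ _n4 ∈ range N, (1 : ℝ) ≤ _ :=
        sum_le_sum fun n2 _ => sum_le_sum fun n3 _ => sum_le_sum fun n4 _ =>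
          pointwise T5 T4 H1 H2 n2 n3 n4
      simp only [sum_add_distrib, sum_sub_distrib, sum_const, card_range, nsmul_eq_mul,
        mul_one, mul_zero] at h0
      simp only [Sm]
      exact h0
    have k0 := abs_le.1 (Sm_mod T4 K hK N 5 5 5 (by norm_num) (by norm_num) (by norm_num)
      1 1 1 (by norm_num) (by norm_num) (by norm_num))
    have k1 := abs_le.1 (Sm_mod T4 K hK N 5 6 3 (by norm_num) (by norm_num) (by norm_num)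
      1 2 3 (by norm_num) (by norm_num) (by norm_num))
    have k2 := abs_le.1 (Sm_mod T4 K hK N 6 3 6 (by norm_num) (by norm_num) (by norm_num)
      2 3 2 (by norm_num) (by norm_num) (by norm_num))
    have k3 := abs_le.1 (Sm_mod T4 K hK N 6 5 2 (by norm_num) (by norm_num) (by norm_num)
      2 1 2 (by norm_num) (by norm_num) (by norm_num))
    have k4 := abs_le.1 (Sm_mod T4 K hK N 7 2 5 (by norm_num) (by norm_num) (by norm_num)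
      3 2 1 (by norm_num) (by norm_num) (by norm_num))
    have k5 := abs_le.1 (Sm_mod T4 K hK N 7 3 3 (by norm_num) (by norm_num) (by norm_num)
      3 3 3 (by norm_num) (by norm_num) (by norm_num))
    have k6 := abs_le.1 (Sm_mod T4 K hK N 3 6 5 (by norm_num) (by norm_num) (by norm_num)
      3 2 1 (by norm_num) (by norm_num) (by norm_num))
    have k7 := abs_le.1 (Sm_mod T4 K hK N 3 7 3 (by norm_num) (by norm_num) (by norm_num)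
      3 3 3 (by norm_num) (by norm_num) (by norm_num))
    have k8 := abs_le.1 (Sm_mod T4 K hK N 5 2 7 (by norm_num) (by norm_num) (by norm_num)
      1 2 3 (by norm_num) (by norm_num) (by norm_num))
    have k9 := abs_le.1 (Sm_mod T4 K hK N 5 5 1 (by norm_num) (by norm_num) (by norm_num)
      1 1 1 (by norm_num) (by norm_num) (by norm_num))
    have k10 := abs_le.1 (Sm_mod T4 K hK N 6 1 6 (by norm_num) (by norm_num) (by norm_num)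
      2 1 2 (by norm_num) (by norm_num) (by norm_num))
    have k11 := abs_le.1 (Sm_mod T4 K hK N 6 3 2 (by norm_num) (by norm_num) (by norm_num)
      2 3 2 (by norm_num) (by norm_num) (by norm_num))
    have k12 := abs_le.1 (Sm_mod T4 K hK N 2 5 6 (by norm_num) (by norm_num) (by norm_num)
      2 1 2 (by norm_num) (by norm_num) (by norm_num))
    have k13 := abs_le.1 (Sm_mod T4 K hK N 2 7 2 (by norm_num) (by norm_num) (by norm_num)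
      2 3 2 (by norm_num) (by norm_num) (by norm_num))
    have k14 := abs_le.1 (Sm_mod T4 K hK N 3 3 7 (by norm_num) (by norm_num) (by norm_num)
      3 3 3 (by norm_num) (by norm_num) (by norm_num))
    have k15 := abs_le.1 (Sm_mod T4 K hK N 3 6 1 (by norm_num) (by norm_num) (by norm_num)
      3 2 1 (by norm_num) (by norm_num) (by norm_num))
    have k16 := abs_le.1 (Sm_mod T4 K hK N 5 1 5 (by norm_num) (by norm_num) (by norm_num)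
      1 1 1 (by norm_num) (by norm_num) (by norm_num))
    have k17 := abs_le.1 (Sm_mod T4 K hK N 5 2 3 (by norm_num) (by norm_num) (by norm_num)
      1 2 3 (by norm_num) (by norm_num) (by norm_num))
    have k18 := abs_le.1 (Sm_mod T4 K hK N 1 5 5 (by norm_num) (by norm_num) (by norm_num)
      1 1 1 (by norm_num) (by norm_num) (by norm_num))
    have k19 := abs_le.1 (Sm_mod T4 K hK N 1 6 3 (by norm_num) (by norm_num) (by norm_num)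
      1 2 3 (by norm_num) (by norm_num) (by norm_num))
    have k20 := abs_le.1 (Sm_mod T4 K hK N 2 3 6 (by norm_num) (by norm_num) (by norm_num)
      2 3 2 (by norm_num) (by norm_num) (by norm_num))
    have k21 := abs_le.1 (Sm_mod T4 K hK N 2 5 2 (by norm_num) (by norm_num) (by norm_num)
      2 1 2 (by norm_num) (by norm_num) (by norm_num))
    have k22 := abs_le.1 (Sm_mod T4 K hK N 3 2 5 (by norm_num) (by norm_num) (by norm_num)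
      3 2 1 (by norm_num) (by norm_num) (by norm_num))
    have k23 := abs_le.1 (Sm_mod T4 K hK N 3 3 3 (by norm_num) (by norm_num) (by norm_num)
      3 3 3 (by norm_num) (by norm_num) (by norm_num))
    linarith [k0.1, k0.2, k1.1, k1.2, k2.1, k2.2, k3.1, k3.2, k4.1, k4.2, k5.1, k5.2, k6.1, k6.2, k7.1, k7.2, k8.1, k8.2, k9.1, k9.2, k10.1, k10.2, k11.1, k11.2, k12.1, k12.2, k13.1, k13.2, k14.1, k14.2, k15.1, k15.2, k16.1, k16.2, k17.1, k17.2, k18.1, k18.2, k19.1, k19.2, k20.1, k20.2, k21.1, k21.2, k22.1, k22.2, k23.1, k23.2]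
  obtain ⟨N, hN⟩ := exists_nat_gt (144 * K)
  have hK0 : 0 ≤ K := (abs_nonneg _).trans (hK 0 0 0)
  have hN0 : (0 : ℝ) < N := by linarith
  have h1 := key N
  have h2 : (N : ℝ) * N * (144 * K) < N * N * N := by
    apply mul_lt_mul_of_pos_left hN
    positivity
  nlinarith

end

end Pool.Agent.P.MP_2ca0d6_al.Cup
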