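import Mathlib
import Pool.Agent.P.MP_2ca0d6_al.CupD

/-!
No bounded cochain on positive words has coboundary within `1/24` of the cup square.
-/

set_option autoImplicit false
set_option linter.dupNamespace false

namespace Pool.Agent.P.MP_2ca0d6_al.Cup

open Classical Filter Topology

lemma exists_lim {X : Type} (B : X → ℝ) (K : ℝ) (hK : ∀ x, |B x| ≤ K) (V : Ultrafilter X) :
    ∃ t, |t| ≤ K ∧ Tendsto B V (𝓝 t) := by
  obtain ⟨t, ht, h⟩ := (isCompact_Icc (a := -K) (b := K)).ultrafilter_le_nhds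
    (Ultrafilter.map B V) (by
      rw [Ultrafilter.coe_map, le_principal_iff, mem_map]
      exact Eventually.of_forall fun x => abs_le.1 (hK x))
  exact ⟨t, abs_le.2 ht, h⟩

lemma tendsto_face {X Y : Type} (B : Y → ℝ) (V : Ultrafilter X) (g : X → Y) (t : ℝ)
    (h : Tendsto B ((V >>= fun w => pure (g w) : Ultrafilter Y) : Filter Y) (𝓝 t)) :
    Tendsto (fun w => B (g w)) V (𝓝 t) := fun _ hs => h hs

theorem no_primitive (B : Wd × Wd × Wd → ℝ) (K : ℝ) (hK : ∀ x, |B x| ≤ K)
    (hB : ∀ x y z w : Wd, |F x y * F z w -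
      (B (y, z, w) - B (x ++ y, z, w) + B (x, y ++ z, w) - B (x, y, z ++ w) + B (x, y, z))|
        ≤ 1 / 24) : False := by
  choose L hLK hL using exists_lim B K hK
  refine contra (fun a b c => L (law3 sp5 ini5 a b c)) (fun a b c => L (law3 sp4 ini4 a b c))
    ?_ ?_ K (fun a b c => hLK _)
  · intro a b c d
    have t0 := hL (law3 sp5 ini5 b c d)
    have t1 := hL (law3 sp5 ini5 (a + b) c d)
    have t2 := hL (law3 sp5 ini5 a (b + c) d)
    have t3 := hL (law3 sp5 ini5 a b (c + d))
    have t4 := hL (law3 sp5 ini5 a b c)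
    nth_rewrite 1 [← face0 sp5 ini5 stat5 a b c d] at t0
    nth_rewrite 1 [← face1 sp5 ini5 a b c d] at t1
    nth_rewrite 1 [← face2 sp5 ini5 a b c d] at t2
    nth_rewrite 1 [← face3 sp5 ini5 a b c d] at t3
    nth_rewrite 1 [← face4 sp5 ini5 a b c d] at t4
    have s0 := tendsto_face _ _ _ _ t0
    have s1 := tendsto_face _ _ _ _ t1
    have s2 := tendsto_face _ _ _ _ t2
    have s3 := tendsto_face _ _ _ _ t3
    have s4 := tendsto_face _ _ _ _ t4
    have s := ((tendsto_const_nhds (x := Fn a b * Fn c d)).sub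
      ((((s0.sub s1).add s2).sub s3).add s4)).abs
    refine le_of_tendsto s ?_
    filter_upwards [FF_law4 a b c d] with w hw
    rw [← hw]
    exact hB _ _ _ _
  · intro i i1 i2 a b c A B C hi h1 h2 hA hB hC
    have := law3_merge i hi a b c
    simp only [fine, nxt, h1, h2, ← hA, ← hB, ← hC] at this
    simp only [this]

end Pool.Agent.P.MP_2ca0d6_al.Cup
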