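import Mathlib
import Pool.Agent.P.MP_2ca0d6_al.CupE

/-!
Transfer of the anchor/pointer quasimorphism to every free group of rank at least two: the letter
`(n, β)` is written as `b ^ (2 n + β) a`.
-/

set_option autoImplicit false
set_option linter.dupNamespace false

namespace Pool.Agent.P.MP_2ca0d6_al.Cup

open Classical FreeGroup

variable {α : Type}

/-- read blocks ending in the letter `a` -/
noncomputable def dec (a : α) : ℕ → List α → Wd
  | _, [] => []
  | k, x :: u => if x = a then (k / 2, decide (k % 2 = 1)) :: dec a 0 u else dec a (k + 1) u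

theorem dec_realize : True := by have := @dec.eq_def; trivial

lemma dec_nil (a : α) (k : ℕ) : dec a k [] = [] := by simp only [dec]

lemma dec_cons (a : α) (k : ℕ) (x : α) (u : List α) : dec a k (x :: u) =
    if x = a then (k / 2, decide (k % 2 = 1)) :: dec a 0 u else dec a (k + 1) u := by
  simp only [dec]

lemma dec_append (a : α) (u v : List α) : ∀ k, ∃ l, dec a k (u ++ v) = dec a k u ++ dec a l v := by
  induction u with
  | nil => intro k; exact ⟨k, by simp [dec_nil]⟩
  | cons x u ih =>
    intro k
    by_cases h : x = a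
    · obtain ⟨l, hl⟩ := ih 0
      exact ⟨l, by simp [dec_cons, h, hl]⟩
    · obtain ⟨l, hl⟩ := ih (k + 1)
      exact ⟨l, by simp [dec_cons, h, hl]⟩

lemma c_cons (x : Let) (r : Wd) : c r ≤ c (x :: r) ∧ c (x :: r) ≤ c r + 1 := by
  have h := c_append [x] r
  have h0 : c [x] = 0 := by simp [c, hit]
  rw [h0] at h
  simpa using h

lemma c_dec (a : α) (v : List α) : ∀ k l, c (dec a k v) ≤ c (dec a l v) + 1 := by
  induction v with
  | nil => intro k l; simp [dec_nil]
  | cons x v ih =>
    intro k l
    by_cases h : x = a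
    · simp only [dec_cons, h, if_true]
      have h1 := c_cons (k / 2, decide (k % 2 = 1)) (dec a 0 v)
      have h2 := c_cons (l / 2, decide (l % 2 = 1)) (dec a 0 v)
      omega
    · simp only [dec_cons, h, if_false]
      exact ih _ _

/-- the count on positive words in the letters of `α` -/
noncomputable def c2 (a : α) (u : List α) : ℝ := c (dec a 0 u)

lemma c2_append (a : α) (u v : List α) :
    c2 a u + c2 a v - 1 ≤ c2 a (u ++ v) ∧ c2 a (u ++ v) ≤ c2 a u + c2 a v + 2 := by
  obtain ⟨l, hl⟩ := dec_append a u v 0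
  have h1 := c_append (dec a 0 u) (dec a l v)
  have h2 := c_dec a v 0 l
  have h3 := c_dec a v l 0
  simp only [c2, hl]
  constructor
  · have : c (dec a 0 u) + c (dec a 0 v) ≤ c (dec a 0 u ++ dec a l v) + 1 := by omega
    have : ((c (dec a 0 u) : ℝ) + c (dec a 0 v)) ≤ c (dec a 0 u ++ dec a l v) + 1 := by
      exact_mod_cast this
    linarith
  · have : c (dec a 0 u ++ dec a l v) ≤ c (dec a 0 u) + c (dec a 0 v) + 2 := by omega
    exact_mod_cast this

/-- the code of one letter -/
def encL (a b : α) (x : Let) : List α :=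
  List.replicate (2 * x.1 + (if x.2 = true then 1 else 0)) b ++ [a]

/-- the code of a word -/
def enc (a b : α) (w : Wd) : List α := w.flatMap (encL a b)

lemma enc_append (a b : α) (u v : Wd) : enc a b (u ++ v) = enc a b u ++ enc a b v := by
  simp [enc]

lemma dec_rep (a b : α) (hab : a ≠ b) (u : List α) (m : ℕ) :
    ∀ k, dec a k (List.replicate m b ++ u) = dec a (k + m) u := by
  induction m with
  | zero => intro k; simp
  | succ m ih =>
    intro k
    rw [List.replicate_succ, List.cons_append, dec_cons, if_neg hab.symm, ih]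
    congr 1
    ring

lemma dec_enc (a b : α) (hab : a ≠ b) (w : Wd) : dec a 0 (enc a b w) = w := by
  induction w with
  | nil => simp [enc, dec_nil]
  | cons x w ih =>
    have e : enc a b (x :: w) =
        List.replicate (2 * x.1 + (if x.2 = true then 1 else 0)) b ++ (a :: enc a b w) := by
      simp [enc, encL]
    rw [e, dec_rep a b hab, dec_cons, if_pos rfl, ih]
    obtain ⟨n, β⟩ := x
    cases β with
    | false =>
      have h1 : (0 + (2 * n + 0)) / 2 = n := by omega
      have h2 : (0 + (2 * n + 0)) % 2 = 0 := by omega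
      simp only [Bool.false_eq_true, if_false, h1, h2]
      rfl
    | true =>
      have h1 : (0 + (2 * n + 1)) / 2 = n := by omega
      have h2 : (0 + (2 * n + 1)) % 2 = 1 := by omega
      simp only [if_true, h1, h2]
      rfl

/-- the positive letters of a group word -/
def pos2 (w : List (α × Bool)) : List α := (w.filter (fun x => x.2)).map Prod.fst

lemma pos2_append (u v : List (α × Bool)) : pos2 (u ++ v) = pos2 u ++ pos2 v := by
  simp [pos2]

/-- the antisymmetrised count on group words -/
noncomputable def psi2 (a : α) (w : List (α × Bool)) : ℝ :=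
  c2 a (pos2 w) - c2 a (pos2 (invRev w))

lemma psi2_append (a : α) (u v : List (α × Bool)) :
    |psi2 a (u ++ v) - psi2 a u - psi2 a v| ≤ 3 := by
  have h1 := c2_append a (pos2 u) (pos2 v)
  have h2 := c2_append a (pos2 (invRev v)) (pos2 (invRev u))
  simp only [psi2, invRev_append, pos2_append]
  rw [abs_le]
  constructor <;> linarith [h1.1, h1.2, h2.1, h2.2]

lemma psi2_invRev (a : α) (u : List (α × Bool)) : psi2 a (invRev u) = - psi2 a u := by
  simp [psi2]

/-- the quasimorphism -/
noncomputable def phi2 (a : α) (g : FreeGroup α) : ℝ := psi2 a g.toWord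

lemma phi2_bdd (a : α) (x y : FreeGroup α) : |phi2 a y - phi2 a (x * y) + phi2 a x| ≤ 9 := by
  obtain ⟨A1, C, B1, h1, h2, h3⟩ := cancel_decomp y.toWord x.toWord
    isReduced_toWord isReduced_toWord
  have e1 : x = mk A1 * mk C := by rw [mul_mk, ← h1, mk_toWord]
  have e2 : y = (mk C)⁻¹ * mk B1 := by rw [inv_mk, mul_mk, ← h2, mk_toWord]
  have e3 : x * y = mk (A1 ++ B1) := by
    rw [← mul_mk, e1, e2]; group
  have e4 : (x * y).toWord = A1 ++ B1 := by rw [e3, toWord_mk, h3.reduce_eq]
  have p1 := psi2_append a A1 C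
  have p2 := psi2_append a (invRev C) B1
  have p3 := psi2_append a A1 B1
  rw [psi2_invRev] at p2
  simp only [phi2, e4]
  rw [h1, h2]
  rw [abs_le] at *
  constructor <;> linarith [p1.1, p1.2, p2.1, p2.2, p3.1, p3.2]

/-- the group element of a positive word -/
def emb2 (w : List α) : FreeGroup α := mk (w.map fun a => (a, true))

lemma emb2_append (u v : List α) : emb2 (u ++ v) = emb2 u * emb2 v := by
  simp [emb2, mul_mk]

lemma red_pos2 : ∀ (L : List (α × Bool)), (∀ l ∈ L, l.2 = true) → IsReduced L
  | [], _ => IsReduced.nil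
  | [_], _ => IsReduced.singleton
  | a :: b :: L, h => by
    refine List.isChain_cons_cons.2 ⟨fun _ => ?_, red_pos2 (b :: L) fun l hl => h l (by simp [hl])⟩
    rw [h a (by simp), h b (by simp)]

lemma phi2_emb2 (a : α) (w : List α) : phi2 a (emb2 w) = c2 a w := by
  have h1 : (emb2 w).toWord = w.map fun a => (a, true) := by
    rw [emb2, toWord_mk]
    refine (red_pos2 _ fun l hl => ?_).reduce_eq
    simp only [List.mem_map] at hl
    obtain ⟨a, -, rfl⟩ := hl
    rfl
  have h2 : pos2 (w.map fun a => (a, true)) = w := by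
    simp [pos2, List.filter_map, Function.comp_def]
  have h3 : pos2 (invRev (w.map fun a => (a, true))) = [] := by
    simp [pos2, invRev]
  simp [phi2, psi2, h1, h2, h3, c2, dec_nil]

theorem cup_main (a b : α) (hab : a ≠ b) :
    ∃ φ : FreeGroup α → ℝ, (∃ C : ℝ, ∀ x y, |φ y - φ (x * y) + φ x| ≤ C) ∧
      ∀ β : FreeGroup α → FreeGroup α → FreeGroup α → ℝ, (∃ C : ℝ, ∀ x y z, |β x y z| ≤ C) →
        ∃ x y z w, 1 / 24 < |(φ y - φ (x * y) + φ x) * (φ w - φ (z * w) + φ z) -
          (β y z w - β (x * y) z w + β x (y * z) w - β x y (z * w) + β x y z)| := by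
  refine ⟨phi2 a, ⟨9, phi2_bdd a⟩, ?_⟩
  rintro β ⟨K, hK⟩
  by_contra hcon
  push Not at hcon
  let e : Wd → FreeGroup α := fun w => emb2 (enc a b w)
  have e_app : ∀ u v, e (u ++ v) = e u * e v := fun u v => by
    simp only [e, enc_append, emb2_append]
  have e_phi : ∀ u, phi2 a (e u) = c u := fun u => by
    simp only [e, phi2_emb2, c2, dec_enc a b hab]
  have e_F : ∀ u v, phi2 a (e v) - phi2 a (e u * e v) + phi2 a (e u) = F u v := fun u v => by
    rw [← e_app, e_phi, e_phi, e_phi, F]; ring
  refine no_primitive (fun w => β (e w.1) (e w.2.1) (e w.2.2)) K (fun w => hK _ _ _) ?_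
  intro x y z w
  have := hcon (e x) (e y) (e z) (e w)
  simpa only [e_F, e_app] using this

end Pool.Agent.P.MP_2ca0d6_al.Cup
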