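import Pool.Agent.P.MP_2ca0d6_al.Main
import Pool.Agent.P.MP_2ca0d6_al.Defs

set_option autoImplicit false
set_option linter.dupNamespace false

namespace Pool.Agent.P.MP_2ca0d6_al

open FreeGroup Finset Filter Topology BoundedContinuousFunction

section
variable {G : Type}

lemma d_d (k : ℕ) : ∀ f : (Fin k → G) → ℝ, d (k + 1) (d k f) = 0 := by
  induction k with
  | zero =>
    intro f
    funext x
    rw [← Fin.cons_self_tail x, d_cons]
    simp only [d_apply, ct, Fin.sum_univ_succ, Fin.sum_univ_zero, Pi.zero_apply]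
    simp only [Fin.val_zero, pow_zero, one_mul, add_zero, sub_eq_zero]
    exact congrArg f (Subsingleton.elim _ _)
  | succ k ih =>
    intro f
    funext x
    rw [← Fin.cons_self_tail x, d_cons, ct_d, map_sub, ih]
    simp

variable [Group G]

/-- homogeneous cochain attached to an inhomogeneous one -/
def hat {n : ℕ} (f : (Fin n → G) → ℝ) (x : Fin (n + 1) → G) : ℝ :=
  f fun i => (x i.castSucc)⁻¹ * x i.succ

lemma hat_inv {n : ℕ} (f : (Fin n → G) → ℝ) (g : G) (x : Fin (n + 1) → G) :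
    hat f (fun i => g * x i) = hat f x := by
  unfold hat
  congr 1
  funext i
  group

lemma hat_partialProd {n : ℕ} (f : (Fin n → G) → ℝ) (g : Fin n → G) :
    hat f (Fin.partialProd g) = f g := by
  unfold hat
  congr 1
  funext i
  exact Fin.partialProd_right_inv g i

lemma delta_eq {n : ℕ} (F : (Fin (n + 1) → G) → ℝ) (hF : ∀ g x, F (fun i => g * x i) = F x)
    (g : Fin (n + 1) → G) :
    delta (fun h => F (Fin.partialProd h)) g = d (n + 1) F (Fin.partialProd g) := by
  rw [d_apply, Fin.sum_univ_succ]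
  unfold delta
  congr 1
  · simp only [Fin.val_zero, pow_zero, one_mul]
    rw [← hF (g 0)]
    congr 1
    funext i
    simp only [Fin.succAbove_zero, Function.comp]
    rw [Fin.partialProd_succ']
    rfl
  · refine sum_congr rfl fun j _ => ?_
    simp only [Fin.partialProd_contractNth, Fin.val_succ]

lemma delta_eq_hat {n : ℕ} (f : (Fin n → G) → ℝ) (g : Fin (n + 1) → G) :
    delta f g = d (n + 1) (hat f) (Fin.partialProd g) := by
  rw [← delta_eq _ (hat_inv f)]
  simp only [hat_partialProd]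

lemma d_inv {n : ℕ} (F : (Fin n → G) → ℝ) (hF : ∀ g x, F (fun i => g * x i) = F x)
    (g : G) (x : Fin (n + 1) → G) : d n F (fun i => g * x i) = d n F x := by
  rw [d_apply, d_apply]
  refine sum_congr rfl fun j _ => ?_
  rw [← hF g (x ∘ _)]
  rfl

lemma eq_mul_partialProd {n : ℕ} (x : Fin (n + 1) → G) :
    x = fun i => x 0 * Fin.partialProd (fun i : Fin n => (x i.castSucc)⁻¹ * x i.succ) i := by
  have := Fin.partialProd_left_inv x
  funext i
  exact (congrFun this i).symm

lemma hat_delta {n : ℕ} (f : (Fin n → G) → ℝ) : hat (delta f) = d (n + 1) (hat f) := by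
  funext x
  conv_rhs => rw [eq_mul_partialProd x, d_inv _ (hat_inv f), ← delta_eq_hat]
  rfl

lemma delta_delta {n : ℕ} (f : (Fin n → G) → ℝ) : delta (delta f) = 0 := by
  funext g
  rw [delta_eq_hat, hat_delta, d_d]
  rfl

/-- `delta` as a linear map -/
def deltaL (n : ℕ) : ((Fin n → G) → ℝ) →ₗ[ℝ] ((Fin (n + 1) → G) → ℝ) where
  toFun := delta
  map_add' f g := by
    funext x
    simp only [delta, Pi.add_apply, mul_add, sum_add_distrib]
    ring
  map_smul' r f := by
    funext x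
    simp only [delta, Pi.smul_apply, smul_eq_mul, RingHom.id_apply, mul_sum, mul_add]
    congr 1
    exact sum_congr rfl fun i _ => by ring

lemma delta_bd {n : ℕ} (f : (Fin n → G) → ℝ) {C : ℝ} (hf : ∀ x, |f x| ≤ C) (g : Fin (n + 1) → G) :
    |delta f g| ≤ (n + 2) * C := by
  unfold delta
  refine le_trans (abs_add_le _ _) ?_
  have h1 := hf fun i => g i.succ
  have h2 : |∑ j : Fin (n + 1), (-1 : ℝ) ^ ((j : ℕ) + 1) * f (Fin.contractNth j (· * ·) g)|
      ≤ (n + 1) * C := by
    refine le_trans (abs_sum_le_sum_abs _ _) ?_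
    refine le_trans (sum_le_card_nsmul _ _ C fun j _ => ?_) ?_
    · rw [abs_mul, abs_pow, abs_neg, abs_one, one_pow, one_mul]; exact hf _
    · simp
  linarith

lemma delta_tendsto {n : ℕ} {ι : Type} {l : Filter ι} (f : ι → (Fin n → G) → ℝ)
    (f0 : (Fin n → G) → ℝ) (h : ∀ x, Tendsto (fun i => f i x) l (𝓝 (f0 x))) (g : Fin (n + 1) → G) :
    Tendsto (fun i => delta (f i) g) l (𝓝 (delta f0 g)) := by
  unfold delta
  exact (h _).add (tendsto_finsetSum _ fun j _ => (h _).const_mul _)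

end

lemma open_map {X Y : Type} (T : (X → ℝ) →ₗ[ℝ] (Y → ℝ)) (N : ℝ)
    (hT : ∀ f C, (∀ x, |f x| ≤ C) → ∀ y, |T f y| ≤ N * C)
    (hcl : ∀ c : Y → ℝ, Bdd c → (∀ ε > 0, ∃ β, Bdd β ∧ ∀ y, |c y - T β y| ≤ ε) →
      ∃ β, Bdd β ∧ T β = c) :
    ∃ K : ℝ, ∀ β M, 0 ≤ M → Bdd β → (∀ y, |T β y| ≤ M) →
      ∃ β', (∀ x, |β' x| ≤ K * M) ∧ T β' = T β := by
  let _ : TopologicalSpace X := ⊥
  have _ : DiscreteTopology X := ⟨rfl⟩
  let _ : TopologicalSpace Y := ⊥
  have _ : DiscreteTopology Y := ⟨rfl⟩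
  have hb : ∀ (f : X →ᵇ ℝ) y, ‖T f y‖ ≤ N * ‖f‖ := fun f =>
    hT f ‖f‖ fun x => f.norm_coe_le_norm x
  let T1 : (X →ᵇ ℝ) →ₗ[ℝ] (Y →ᵇ ℝ) :=
    { toFun := fun f => ofNormedAddCommGroupDiscrete (T f) (N * ‖f‖) (hb f)
      map_add' := fun f g => by
        ext y
        change T (f + g) y = T f y + T g y
        rw [map_add]; rfl
      map_smul' := fun r f => by
        ext y
        change T (r • f) y = r * T f y
        rw [map_smul]; rfl }
  have hT1 : ∀ f, ⇑(T1 f) = T f := fun f => rfl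
  let T2 : (X →ᵇ ℝ) →L[ℝ] (Y →ᵇ ℝ) := T1.mkContinuous |N| fun f => by
    refine (norm_le (by positivity)).2 fun y => le_trans (hb f y) ?_
    exact mul_le_mul_of_nonneg_right (le_abs_self _) (norm_nonneg _)
  have hT2 : ∀ f, ⇑(T2 f) = T f := fun f => rfl
  have hclosed : IsClosed (LinearMap.range T1 : Set (Y →ᵇ ℝ)) := by
    refine isClosed_of_closure_subset fun c hc => ?_
    obtain ⟨β, ⟨C, hC⟩, hβ⟩ := hcl c ⟨‖c‖, fun y => c.norm_coe_le_norm y⟩ fun ε hε => by
      obtain ⟨b, ⟨f, rfl⟩, hb⟩ := Metric.mem_closure_iff.1 hc ε hε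
      refine ⟨f, ⟨‖f‖, fun x => f.norm_coe_le_norm x⟩, fun y => ?_⟩
      exact le_trans (dist_coe_le_dist (f := c) (g := T1 f) y) hb.le
    refine ⟨ofNormedAddCommGroupDiscrete β C hC, ?_⟩
    ext y
    exact congrFun hβ y
  have _ : CompleteSpace (LinearMap.range T1) := hclosed.completeSpace_coe
  let T3 : (X →ᵇ ℝ) →L[ℝ] LinearMap.range T1 :=
    T2.codRestrict (LinearMap.range T1) fun f => ⟨f, rfl⟩
  have hsurj : Function.Surjective T3 := by
    rintro ⟨_, f, rfl⟩
    exact ⟨f, rfl⟩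
  obtain ⟨K, hK0, hK⟩ := ContinuousLinearMap.exists_preimage_norm_le (σ := RingHom.id ℝ)
    (σ' := RingHom.id ℝ) (E := X →ᵇ ℝ) (F := LinearMap.range T1) T3 hsurj
  refine ⟨K, fun β M hM ⟨C, hC⟩ hβ => ?_⟩
  obtain ⟨f, hf, hfn⟩ := hK (T3 (ofNormedAddCommGroupDiscrete β C hC))
  refine ⟨f, fun x => le_trans (f.norm_coe_le_norm x) (le_trans hfn ?_), ?_⟩
  · refine mul_le_mul_of_nonneg_left ?_ hK0.le
    change ‖T2 (ofNormedAddCommGroupDiscrete β C hC)‖ ≤ M
    exact (norm_le hM).2 hβ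
  · have := congrArg (fun u : LinearMap.range T1 => ⇑(u : Y →ᵇ ℝ)) hf
    exact this

variable {α : Type}

theorem approx (n : ℕ) (hn : 2 ≤ n) (c : (Fin (n + 1) → FreeGroup α) → ℝ) (M : ℝ)
    (hM : ∀ g, |c g| ≤ M) (hc : delta c = 0) :
    ∃ β : ℕ → (Fin n → FreeGroup α) → ℝ, (∀ L, Bdd (β L)) ∧
      (∀ L g, |delta (β L) g| ≤ 13 * M) ∧
      ∀ g, Tendsto (fun L => delta (β L) g) atTop (𝓝 (c g)) := by
  classical
  obtain ⟨m, rfl⟩ : ∃ m, n = m + 2 := ⟨n - 2, by omega⟩
  have hc' : d (m + 4) (hat c) = 0 := by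
    rw [← hat_delta, hc]; rfl
  have hM' : ∀ t, |hat c t| ≤ M := fun t => hM _
  have hd := fun L => delta_eq (beta (hat c) L) (beta_inv (hat_inv c) L)
  refine ⟨fun L h => beta (hat c) L (Fin.partialProd h), fun L => ?_, fun L g => ?_, fun g => ?_⟩
  · obtain ⟨C, hC⟩ := beta_bd hM' L
    exact ⟨C, fun h => hC _⟩
  · rw [hd]; exact d_beta_bd hc' hM' L _
  · simp only [hd]
    rw [← hat_partialProd c g]
    exact d_beta_tendsto hc' hM' _

lemma pair_coboundary {G : Type} [Group G] [DecidableEq G] {n : ℕ} (z : (Fin (n + 1) → G) → ℝ)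
    (hz : Summable z) (hcyc : ∀ τ : Fin n → G, ∑' g, z g * delta (Pi.single τ 1) g = 0)
    (β : (Fin n → G) → ℝ) (hβ : Bdd β) : ∑' g, z g * delta β g = 0 := by
  obtain ⟨C, hC⟩ := hβ
  have hC0 : 0 ≤ C := le_trans (abs_nonneg _) (hC fun _ => 1)
  have hsum : ∀ (f : (Fin n → G) → ℝ) (B : ℝ), (∀ x, |f x| ≤ B) →
      Summable fun g => z g * delta f g := fun f B hf => by
    refine Summable.of_norm_bounded (hz.abs.mul_right ((n + 2) * B)) fun g => ?_
    rw [Real.norm_eq_abs, abs_mul]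
    exact mul_le_mul_of_nonneg_left (delta_bd f hf g) (abs_nonneg _)
  let bT : Finset (Fin n → G) → (Fin n → G) → ℝ := fun T x => if x ∈ T then β x else 0
  have hbT : ∀ T x, |bT T x| ≤ C := fun T x => by
    simp only [bT]; split_ifs
    · exact hC x
    · simpa using hC0
  have h0 : ∀ T, ∑' g, z g * delta (bT T) g = 0 := by
    intro T
    induction T using Finset.induction_on with
    | empty =>
      have : bT ∅ = 0 := by funext x; simp [bT]
      rw [this]
      have h2 : delta (0 : (Fin n → G) → ℝ) = 0 := (deltaL n).map_zero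
      simp [h2]
    | insert τ T hτ ih =>
      have : bT (insert τ T) = β τ • Pi.single τ (1 : ℝ) + bT T := by
        funext x
        by_cases hx : x = τ
        · subst hx; simp [bT, hτ]
        · simp [bT, hx]
      rw [this]
      have h2 : delta (β τ • Pi.single τ (1 : ℝ) + bT T)
          = β τ • delta (Pi.single τ (1 : ℝ)) + delta (bT T) := by
        change deltaL n _ = β τ • deltaL n _ + deltaL n _
        rw [map_add, map_smul]
      rw [h2]
      have h3 : ∀ g, z g * (β τ • delta (Pi.single τ (1 : ℝ)) + delta (bT T)) g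
          = β τ * (z g * delta (Pi.single τ (1 : ℝ)) g) + z g * delta (bT T) g := fun g => by
        simp only [Pi.add_apply, Pi.smul_apply, smul_eq_mul]; ring
      simp only [h3]
      have hs1 : Summable fun g => z g * delta (Pi.single τ (1 : ℝ)) g :=
        hsum _ 1 fun x => by
          by_cases hx : x = τ
          · subst hx; simp
          · simp [hx]
      rw [(hs1.mul_left _).tsum_add (hsum _ C (hbT T)), tsum_mul_left, hcyc, ih]
      simp
  have hlim : Tendsto (fun T => ∑' g, z g * delta (bT T) g) atTop (𝓝 (∑' g, z g * delta β g)) := by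
    refine tendsto_tsum_of_dominated_convergence (hz.abs.mul_right ((n + 2) * C))
      (fun g => (delta_tendsto bT β (fun x => ?_) g).const_mul _) (Eventually.of_forall fun T g => ?_)
    · refine tendsto_const_nhds.congr' ?_
      filter_upwards [eventually_ge_atTop ({x} : Finset (Fin n → G))] with T hT
      have : x ∈ T := hT (mem_singleton_self x)
      simp [bT, this]
    · rw [Real.norm_eq_abs, abs_mul]
      exact mul_le_mul_of_nonneg_left (delta_bd _ (hbT T) g) (abs_nonneg _)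
  simp only [h0] at hlim
  exact tendsto_nhds_unique hlim tendsto_const_nhds

theorem pair_zero [DecidableEq (FreeGroup α)] (n : ℕ) (hn : 2 ≤ n)
    (c z : (Fin (n + 1) → FreeGroup α) → ℝ) (hb : Bdd c) (hc : delta c = 0) (hz : Summable z)
    (hcyc : ∀ τ : Fin n → FreeGroup α, ∑' g, z g * delta (Pi.single τ 1) g = 0) :
    ∑' g, z g * c g = 0 := by
  obtain ⟨M, hM⟩ := hb
  obtain ⟨β, h1, h2, h3⟩ := approx n hn c M hM hc
  have hlim : Tendsto (fun L => ∑' g, z g * delta (β L) g) atTop (𝓝 (∑' g, z g * c g)) := by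
    refine tendsto_tsum_of_dominated_convergence (hz.abs.mul_right (13 * M))
      (fun g => (h3 g).const_mul _) (Eventually.of_forall fun L g => ?_)
    rw [Real.norm_eq_abs, abs_mul]
    exact mul_le_mul_of_nonneg_left (h2 L g) (abs_nonneg _)
  simp only [pair_coboundary z hz hcyc _ (h1 _)] at hlim
  exact tendsto_nhds_unique hlim tendsto_const_nhds

theorem dichotomy (n : ℕ) (hn : 2 ≤ n) :
    (∀ c : (Fin (n + 1) → FreeGroup α) → ℝ, Bdd c → delta c = 0 →
      ∃ β : (Fin n → FreeGroup α) → ℝ, Bdd β ∧ delta β = c) ∨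
    ∃ c : (Fin (n + 1) → FreeGroup α) → ℝ, Bdd c ∧ delta c = 0 ∧
      (∀ ε > 0, ∃ β : (Fin n → FreeGroup α) → ℝ, Bdd β ∧ ∀ g, |c g - delta β g| ≤ ε) ∧
      ¬ ∃ β : (Fin n → FreeGroup α) → ℝ, Bdd β ∧ delta β = c := by
  rw [or_iff_not_imp_right]
  intro H c ⟨M, hM⟩ hc
  obtain ⟨K, hK⟩ := open_map (deltaL (G := FreeGroup α) n) (n + 2) (fun f C hf => delta_bd f hf)
    (fun c' hb' happ => by
      by_contra hne
      refine H ⟨c', hb', ?_, happ, hne⟩
      funext g
      refine abs_nonpos_iff.1 (le_of_forall_pos_le_add fun ε hε => ?_)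
      obtain ⟨β, -, hβ⟩ := happ (ε / (n + 3)) (by positivity)
      have e : delta c' = delta (c' - delta β) := by
        change deltaL _ c' = deltaL _ (c' - delta β)
        rw [map_sub]
        change _ = _ - delta (delta β)
        rw [delta_delta, sub_zero]
      rw [e, zero_add]
      refine le_trans (delta_bd (c' - delta β) hβ g) (le_of_eq ?_)
      push_cast
      field_simp
      ring)
  have hM0 : 0 ≤ M := le_trans (abs_nonneg _) (hM fun _ => 1)
  obtain ⟨β, h1, h2, h3⟩ := approx n hn c M hM hc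
  choose γ hγ1 hγ2 using fun L => hK (β L) (13 * M) (by positivity) (h1 L) (h2 L)
  let U : Ultrafilter ℕ := Ultrafilter.of atTop
  have hU : (U : Filter ℕ) ≤ atTop := Ultrafilter.of_le _
  have hlim : ∀ x, ∃ a ∈ Set.Icc (-(K * (13 * M))) (K * (13 * M)),
      Tendsto (fun L => γ L x) U (𝓝 a) := fun x => by
    obtain ⟨a, ha, h⟩ := isCompact_Icc.ultrafilter_le_nhds (U.map fun L => γ L x)
      (s := Set.Icc (-(K * (13 * M))) (K * (13 * M))) (by
        rw [Ultrafilter.coe_map, le_principal_iff, Filter.mem_map]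
        exact Eventually.of_forall fun L => abs_le.1 (hγ1 L x))
    exact ⟨a, ha, h⟩
  choose b hb1 hb2 using hlim
  refine ⟨b, ⟨K * (13 * M), fun x => abs_le.2 (hb1 x)⟩, ?_⟩
  funext g
  have h4 := delta_tendsto γ b hb2 g
  have h5 : ∀ L, delta (γ L) = delta (β L) := hγ2
  simp only [h5] at h4
  exact tendsto_nhds_unique h4 ((h3 g).mono_left hU)

lemma cup_cocycle {G : Type} [Group G] (f h : G → G → ℝ)
    (hf : ∀ x y z, f y z - f (x * y) z + f x (y * z) - f x y = 0)
    (hh : ∀ x y z, h y z - h (x * y) z + h x (y * z) - h x y = 0) :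
    delta (fun g : Fin 4 → G => f (g 0) (g 1) * h (g 2) (g 3)) = 0 := by
  funext g
  have h1 := hf (g 0) (g 1) (g 2)
  have h2 := hh (g 2) (g 3) (g 4)
  simp [delta, Fin.sum_univ_succ, Fin.contractNth]
  linear_combination h (g 3) (g 4) * h1 + f (g 0) (g 1) * h2

end Pool.Agent.P.MP_2ca0d6_al
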