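import Pool.Agent.P.MP_2ca0d6_al.Geo

set_option autoImplicit false
set_option linter.dupNamespace false

namespace Pool.Agent.P.MP_2ca0d6_al

open FreeGroup Finset Filter Topology

section general
variable {G : Type}

/-- homogeneous coboundary, as a linear map -/
def d (k : ℕ) : ((Fin k → G) → ℝ) →ₗ[ℝ] ((Fin (k + 1) → G) → ℝ) where
  toFun f x := ∑ i : Fin (k + 1), (-1 : ℝ) ^ (i : ℕ) * f (x ∘ i.succAbove)
  map_add' f g := by
    funext x
    simp only [Pi.add_apply, mul_add, sum_add_distrib]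
  map_smul' r f := by
    funext x
    simp only [Pi.smul_apply, smul_eq_mul, RingHom.id_apply, mul_sum]
    exact sum_congr rfl fun i _ => by ring

lemma d_apply (k : ℕ) (f : (Fin k → G) → ℝ) (x : Fin (k + 1) → G) :
    d k f x = ∑ i : Fin (k + 1), (-1 : ℝ) ^ (i : ℕ) * f (x ∘ i.succAbove) := rfl

/-- contraction with a first vertex -/
def ct {k : ℕ} (f : (Fin (k + 1) → G) → ℝ) (a : G) : (Fin k → G) → ℝ :=
  fun z => f (Fin.cons a z)

lemma d_cons (k : ℕ) (f : (Fin (k + 1) → G) → ℝ) (a : G) (z : Fin (k + 1) → G) :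
    d (k + 1) f (Fin.cons a z) = f z - d k (ct f a) z := by
  rw [d_apply, d_apply, Fin.sum_univ_succ, sub_eq_add_neg, ← sum_neg_distrib]
  congr 1
  · simp only [Fin.val_zero, pow_zero, one_mul]
    congr 1
  · refine sum_congr rfl fun i _ => ?_
    have : (Fin.cons a z : Fin (k + 2) → G) ∘ i.succ.succAbove = Fin.cons a (z ∘ i.succAbove) := by
      funext j
      refine Fin.cases ?_ (fun j => ?_) j
      · simp
      · simp [Fin.succ_succAbove_succ]
    rw [this, Fin.val_succ, pow_succ]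
    unfold ct
    ring

lemma ct_d (k : ℕ) (f : (Fin (k + 1) → G) → ℝ) (a : G) :
    ct (d (k + 1) f) a = f - d k (ct f a) := by
  funext z; exact d_cons k f a z

lemma ct_sub {k : ℕ} (f g : (Fin (k + 1) → G) → ℝ) (a : G) : ct (f - g) a = ct f a - ct g a := rfl

/-- the coboundary in the first variables -/
def dx {V : Type} [AddCommGroup V] (K : G → G → V) (x y w : G) : V := K y w - K x w + K x y

/-- Alexander–Whitney type restriction -/
def AW {k : ℕ} (F : G → G → G → (Fin (k + 1) → G) → ℝ) (t : Fin (k + 3) → G) : ℝ :=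
  F (t 0) (t 1) (t 2) (Fin.tail (Fin.tail t))

lemma AW_cons {k : ℕ} (F : G → G → G → (Fin (k + 1) → G) → ℝ) (a b : G) (z : Fin (k + 1) → G) :
    AW F (Fin.cons a (Fin.cons b z)) = F a b (z 0) z := by
  simp [AW]
  rfl

lemma exists_cons3 {k : ℕ} (t : Fin (k + 3) → G) :
    ∃ (a b e : G) (z : Fin k → G), t = Fin.cons a (Fin.cons b (Fin.cons e z)) :=
  ⟨t 0, Fin.tail t 0, Fin.tail (Fin.tail t) 0, Fin.tail (Fin.tail (Fin.tail t)), by
    simp only [Fin.cons_self_tail]⟩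

lemma d_AW {k : ℕ} (K : G → G → (Fin (k + 1) → G) → ℝ) :
    d (k + 3) (AW (dx K)) = AW (dx fun a b => d (k + 1) (K a b)) := by
  funext t
  obtain ⟨a, b, e, z, rfl⟩ := exists_cons3 t
  rw [d_cons, d_cons, d_cons, AW_cons, AW_cons]
  have e1 : ct (AW (dx K)) a (Fin.cons e z) = dx K a e (z 0) z := AW_cons _ _ _ _
  have e2 : ct (ct (AW (dx K)) a) b z = dx K a b (z 0) z := AW_cons _ _ _ _
  have e3 : ct (ct (ct (AW (dx K)) a) b) e = ct (dx K a b e) e := by
    funext z'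
    exact AW_cons _ _ _ _
  have e4 : (dx fun a b => d (k + 1) (K a b)) a b e = d (k + 1) (dx K a b e) := by
    simp only [dx, map_add, map_sub]
  rw [e1, e2, e3, Fin.cons_zero, e4, d_cons]
  simp only [dx, Pi.add_apply, Pi.sub_apply]
  ring

variable {m : ℕ} (c : (Fin (m + 4) → G) → ℝ)

/-- double contraction -/
def c2 (x y : G) : (Fin (m + 2) → G) → ℝ := ct (ct c x) y
/-- triple contraction -/
def c3 (x y w : G) : (Fin (m + 1) → G) → ℝ := ct (ct (ct c x) y) w

variable {c}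

lemma d_ct1 (hc : d (m + 4) c = 0) (x : G) : d (m + 3) (ct c x) = c := by
  have := ct_d _ c x
  rw [hc] at this
  have h2 : ct (0 : (Fin (m + 5) → G) → ℝ) x = 0 := rfl
  rw [h2] at this
  exact (sub_eq_zero.1 this.symm).symm

lemma d_c2 (hc : d (m + 4) c = 0) (x y : G) : d (m + 2) (c2 c x y) = ct c x - ct c y := by
  have := ct_d _ (ct c x) y
  rw [d_ct1 hc] at this
  unfold c2
  rw [this]; abel

lemma d_c3 (hc : d (m + 4) c = 0) (x y w : G) :
    d (m + 1) (c3 c x y w) = c2 c y w - c2 c x w + c2 c x y := by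
  have := ct_d _ (c2 c x y) w
  rw [d_c2 hc, ct_sub] at this
  unfold c3
  have h2 : d (m + 1) (ct (c2 c x y) w) = c2 c x y - (ct (ct c x) w - ct (ct c y) w) := by
    rw [this]; abel
  unfold c2 at h2 ⊢
  rw [h2]; abel

/-- antisymmetrised double contraction -/
noncomputable def uu (c : (Fin (m + 4) → G) → ℝ) (x y : G) : (Fin (m + 2) → G) → ℝ :=
  (1 / 2 : ℝ) • (c2 c x y - c2 c y x)

noncomputable def kk (c : (Fin (m + 4) → G) → ℝ) (x y : G) : (Fin (m + 1) → G) → ℝ :=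
  (-1 / 2 : ℝ) • (c3 c x y x + c3 c x x x)

lemma d_kk (hc : d (m + 4) c = 0) (x y : G) : d (m + 1) (kk c x y) = uu c x y - c2 c x y := by
  unfold kk uu
  rw [map_smul, map_add, d_c3 hc, d_c3 hc]
  funext z
  simp only [Pi.add_apply, Pi.sub_apply, Pi.smul_apply, smul_eq_mul]
  ring

def b1 (c : (Fin (m + 4) → G) → ℝ) (t : Fin (m + 3) → G) : ℝ :=
  c (Fin.cons (t 0) (Fin.cons (t 1) (Fin.tail t)))

def b0 (c : (Fin (m + 4) → G) → ℝ) (t : Fin (m + 3) → G) : ℝ := c (Fin.cons (t 0) t)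

lemma d_b0 (hc : d (m + 4) c = 0) (a e : G) (z : Fin (m + 2) → G) :
    d (m + 3) (b0 c) (Fin.cons a (Fin.cons e z)) = c3 c e e (z 0) (Fin.tail z) := by
  rw [d_cons]
  have e1 : ct (b0 c) a = c2 c a a := rfl
  rw [e1, d_c2 hc, sub_self]
  simp only [b0, c3, ct, Fin.cons_zero, Fin.cons_self_tail, Pi.zero_apply, sub_zero]

lemma d_b1 (hc : d (m + 4) c = 0) (a b e : G) (z : Fin (m + 1) → G) :
    d (m + 3) (b1 c) (Fin.cons a (Fin.cons b (Fin.cons e z)))
      = c3 c b e e z - c3 c a e e z + c3 c b b e z := by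
  rw [d_cons, d_cons]
  have e1 : ct (ct (b1 c) a) b = c3 c a b b := rfl
  have e2 : ct (b1 c) a (Fin.cons e z) = c3 c a e e z := rfl
  have e3 : b1 c (Fin.cons b (Fin.cons e z)) = c3 c b e e z := rfl
  rw [e1, e2, e3, d_c3 hc]
  have e4 : c2 c b b (Fin.cons e z) = c3 c b b e z := rfl
  simp only [Pi.add_apply, Pi.sub_apply, e4]
  ring

lemma AW_c2 (hc : d (m + 4) c = 0) :
    AW (dx (c2 c)) = c + d (m + 3) (b1 c) - d (m + 3) (b0 c) := by
  funext t
  obtain ⟨a, b, e, z, rfl⟩ := exists_cons3 t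
  rw [AW_cons, Pi.sub_apply, Pi.add_apply, d_b1 hc, d_b0 hc]
  have e1 : ∀ x y, c2 c x y (Fin.cons e z) = c3 c x y e z := fun _ _ => rfl
  have e2 : c (Fin.cons a (Fin.cons b (Fin.cons e z))) = c3 c a b e z := rfl
  simp only [dx, Pi.add_apply, Pi.sub_apply, Fin.cons_zero, Fin.tail_cons, e1, e2]
  ring

end general

section free
variable {α : Type} [DecidableEq α] {m : ℕ}

/-- fan primitive -/
def K0 (c : (Fin (m + 4) → FreeGroup α) → ℝ) (x y : FreeGroup α) :
    (Fin (m + 1) → FreeGroup α) → ℝ :=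
  S (c3 c x) 1 x y - c3 c x x x

noncomputable def KK (c : (Fin (m + 4) → FreeGroup α) → ℝ) (x y : FreeGroup α) :
    (Fin (m + 1) → FreeGroup α) → ℝ :=
  (1 / 2 : ℝ) • (K0 c x y - K0 c y x)

variable {c : (Fin (m + 4) → FreeGroup α) → ℝ}

lemma d_K0 (hc : d (m + 4) c = 0) (x y : FreeGroup α) :
    d (m + 1) (K0 c x y) = S (c2 c) 1 x y - c2 c x y := by
  unfold K0 S
  rw [map_sub, map_sum, d_c3 hc]
  simp only [d_c3 hc]
  have e1 : ∀ n : ℕ, ∑ k ∈ range (n + 1), (c2 c (P x y (k - 1)) (P x y k) - c2 c x (P x y k)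
      + c2 c x (P x y (k - 1))) = ∑ k ∈ range (n + 1), c2 c (P x y (k - 1)) (P x y k)
        - c2 c x (P x y n) + c2 c x (P x y 0) := by
    intro n
    induction n with
    | zero => simp
    | succ n ih =>
      rw [sum_range_succ, ih, sum_range_succ _ (n + 1)]
      simp only [Nat.add_sub_cancel]
      abel
  rw [e1, P_zero, P_ge x y (Nat.le_succ _)]
  abel

lemma d_KK (hc : d (m + 4) c = 0) (x y : FreeGroup α) :
    d (m + 1) (KK c x y) = S (uu c) 1 x y - uu c x y := by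
  unfold KK
  rw [map_smul, map_sub, d_K0 hc, d_K0 hc, S_rev _ _ x y]
  unfold S uu
  rw [← smul_sum, sum_sub_distrib, ← smul_sub]
  congr 1
  abel

lemma S_apply {X : Type} (u : FreeGroup α → FreeGroup α → X → ℝ) (L : ℕ) (x y : FreeGroup α)
    (z : X) : S u L x y z = S (fun a b => u a b z) L x y := by
  unfold S; rw [Finset.sum_apply]

omit [DecidableEq α] in
lemma uu_anti (a b : FreeGroup α) (z : Fin (m + 2) → FreeGroup α) : uu c b a z = - uu c a b z := by
  simp only [uu, Pi.smul_apply, Pi.sub_apply, smul_eq_mul]; ring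

omit [DecidableEq α] in
lemma uu_bd {M : ℝ} (hM : ∀ t, |c t| ≤ M) (a b : FreeGroup α) (z : Fin (m + 2) → FreeGroup α) :
    |uu c a b z| ≤ M := by
  have h1 : |c2 c a b z| ≤ M := hM _
  have h2 : |c2 c b a z| ≤ M := hM _
  simp only [uu, Pi.smul_apply, Pi.sub_apply, smul_eq_mul]
  rw [abs_le] at *
  constructor <;> linarith [h1.1, h1.2, h2.1, h2.2]

lemma U_add {M : ℝ} (hM : ∀ t, |c t| ≤ M) (x y w : FreeGroup α) :
    dx (S (uu c) 1) x y w = 0 := by
  funext z
  have := tri_bound (fun a b => uu c a b z) 1 le_rfl (3 * M) (fun a b => uu_anti a b z)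
    (fun a b e _ _ _ => by
      have h1 := uu_bd hM a e z
      have h2 := uu_bd hM a b z
      have h3 := uu_bd hM b e z
      rw [abs_le] at *
      constructor <;> linarith [h1.1, h1.2, h2.1, h2.2, h3.1, h3.2]) x y w
  simp only [Nat.cast_one, sub_self, zero_mul, mul_zero, abs_nonpos_iff] at this
  simp only [dx, Pi.add_apply, Pi.sub_apply, S_apply, Pi.zero_apply]
  exact this

lemma SU_add {M : ℝ} (hM : ∀ t, |c t| ≤ M) (L : ℕ) (hL : 1 ≤ L) (x y w : FreeGroup α) :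
    dx (S (S (uu c) 1) L) x y w = 0 := by
  funext z
  have := tri_bound (fun a b => S (uu c) 1 a b z) L hL 0
    (fun a b => by
      rw [S_rev, S_apply, S_apply]
      unfold S
      rw [← sum_neg_distrib]
      exact sum_congr rfl fun k _ => uu_anti _ _ _)
    (fun a b e _ _ _ => by
      have h := congrFun (U_add hM a b e) z
      simp only [dx, Pi.add_apply, Pi.sub_apply, Pi.zero_apply] at h
      rw [abs_nonpos_iff]
      linarith) x y w
  simp only [mul_zero, abs_nonpos_iff] at this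
  simp only [dx, Pi.add_apply, Pi.sub_apply, Pi.zero_apply]
  rw [S_apply _ L, S_apply _ L, S_apply _ L]
  exact this

lemma K0_bd {M : ℝ} (hM : ∀ t, |c t| ≤ M) (a b : FreeGroup α) (z : Fin (m + 1) → FreeGroup α) :
    |K0 c a b z| ≤ (len a b + 3) * M := by
  have h1 : |c3 c a a a z| ≤ M := hM _
  have h2 : |S (c3 c a) 1 a b z| ≤ (len a b + 2) * M := by
    rw [S_apply]
    unfold S
    refine le_trans (abs_sum_le_sum_abs _ _) ?_
    refine le_trans (sum_le_card_nsmul _ _ M fun k _ => hM _) ?_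
    rw [card_range, nsmul_eq_mul]
    push_cast
    exact le_of_eq (by ring)
  simp only [K0, Pi.sub_apply]
  refine le_trans (abs_sub _ _) ?_
  linarith

lemma KK_bd {M : ℝ} (hM : ∀ t, |c t| ≤ M) (a b : FreeGroup α) (z : Fin (m + 1) → FreeGroup α) :
    |KK c a b z| ≤ (len a b + 3) * M := by
  have h1 := K0_bd hM a b z
  have h2 := K0_bd hM b a z
  rw [len_symm] at h2
  simp only [KK, Pi.smul_apply, Pi.sub_apply, smul_eq_mul]
  rw [abs_le] at *
  constructor <;> linarith [h1.1, h1.2, h2.1, h2.2]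

lemma dxSK_bd {M : ℝ} (hM : ∀ t, |c t| ≤ M) (L : ℕ) (hL : 1 ≤ L) (x y w : FreeGroup α)
    (z : Fin (m + 1) → FreeGroup α) :
    |dx (S (KK c) L) x y w z| ≤ 3 * (((L : ℝ) - 1) * (3 * ((L + 3) * M))) := by
  have hM0 : 0 ≤ M := le_trans (abs_nonneg _) (hM fun _ => 1)
  have hb : ∀ a b, len a b ≤ L → |KK c a b z| ≤ (L + 3) * M := fun a b h => by
    refine le_trans (KK_bd hM a b z) (mul_le_mul_of_nonneg_right ?_ hM0)
    have : (len a b : ℝ) ≤ L := by exact_mod_cast h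
    linarith
  have := tri_bound (fun a b => KK c a b z) L hL (3 * ((L + 3) * M))
    (fun a b => by simp only [KK, Pi.smul_apply, Pi.sub_apply, smul_eq_mul]; ring)
    (fun a b e h1 h2 h3 => by
      have h1 := hb _ _ h1
      have h2 := hb _ _ h2
      have h3 := hb _ _ h3
      rw [abs_le] at *
      constructor <;> linarith [h1.1, h1.2, h2.1, h2.2, h3.1, h3.2]) x y w
  simp only [dx, Pi.add_apply, Pi.sub_apply, S_apply]
  exact this

lemma dxSu_bd {M : ℝ} (hM : ∀ t, |c t| ≤ M) (L : ℕ) (hL : 1 ≤ L) (x y w : FreeGroup α)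
    (z : Fin (m + 2) → FreeGroup α) :
    |dx (S (uu c) L) x y w z| ≤ 3 * (((L : ℝ) - 1) * (3 * M)) := by
  have := tri_bound (fun a b => uu c a b z) L hL (3 * M) (fun a b => uu_anti a b z)
    (fun a b e _ _ _ => by
      have h1 := uu_bd hM a e z
      have h2 := uu_bd hM a b z
      have h3 := uu_bd hM b e z
      rw [abs_le] at *
      constructor <;> linarith [h1.1, h1.2, h2.1, h2.2, h3.1, h3.2]) x y w
  simp only [dx, Pi.add_apply, Pi.sub_apply, S_apply]
  exact this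

/-- the approximating primitive -/
noncomputable def beta (c : (Fin (m + 4) → FreeGroup α) → ℝ) (L : ℕ) :
    (Fin (m + 3) → FreeGroup α) → ℝ :=
  (-(1 / ((L + 1 : ℕ) : ℝ))) • AW (dx (S (KK c) (L + 1))) - AW (dx (kk c)) - b1 c + b0 c

lemma d_beta (hc : d (m + 4) c = 0) {M : ℝ} (hM : ∀ t, |c t| ≤ M) (L : ℕ) :
    d (m + 3) (beta c L) = (1 / ((L + 1 : ℕ) : ℝ)) • AW (dx (S (uu c) (L + 1)))
      - AW (dx (uu c)) + c := by
  unfold beta
  rw [map_add, map_sub, map_sub, map_smul, d_AW, d_AW]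
  have e1 : (fun a b => d (m + 1) (S (KK c) (L + 1) a b))
      = fun a b => S (S (uu c) 1) (L + 1) a b - S (uu c) (L + 1) a b := by
    funext a b
    conv_lhs => unfold S
    rw [map_sum]
    simp only [d_KK hc]
    rw [sum_sub_distrib]
    rfl
  have e2 : AW (dx fun a b => S (S (uu c) 1) (L + 1) a b - S (uu c) (L + 1) a b)
      = - AW (dx (S (uu c) (L + 1))) := by
    funext t
    have := congrFun (SU_add hM (L + 1) (Nat.le_add_left _ _) (t 0) (t 1) (t 2))
      (Fin.tail (Fin.tail t))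
    simp only [AW, dx, Pi.add_apply, Pi.sub_apply, Pi.neg_apply, Pi.zero_apply] at this ⊢
    linarith
  have e3 : AW (dx fun a b => d (m + 1) (kk c a b)) = AW (dx (uu c)) - AW (dx (c2 c)) := by
    funext t
    simp only [AW, dx, d_kk hc, Pi.add_apply, Pi.sub_apply]
    ring
  rw [e1, e2, e3, AW_c2 hc]
  funext t
  simp only [Pi.add_apply, Pi.sub_apply, Pi.neg_apply, Pi.smul_apply, smul_eq_mul]
  ring

lemma beta_bd {M : ℝ} (hM : ∀ t, |c t| ≤ M) (L : ℕ) : ∃ C, ∀ t, |beta c L t| ≤ C := by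
  refine ⟨|(-(1 / ((L + 1 : ℕ) : ℝ)))| *
    (3 * (((((L + 1 : ℕ) : ℝ)) - 1) * (3 * ((((L + 1 : ℕ) : ℝ) + 3) * M)))) + 3 * M + M + M,
    fun t => ?_⟩
  have h1 := dxSK_bd hM (L + 1) (Nat.le_add_left _ _) (t 0) (t 1) (t 2) (Fin.tail (Fin.tail t))
  have hk : ∀ a b z, |kk c a b z| ≤ M := fun a b z => by
    have h1 : |c3 c a b a z| ≤ M := hM _
    have h2 : |c3 c a a a z| ≤ M := hM _
    simp only [kk, Pi.smul_apply, Pi.add_apply, smul_eq_mul]
    rw [abs_le] at *
    constructor <;> linarith [h1.1, h1.2, h2.1, h2.2]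
  have h2 : |AW (dx (kk c)) t| ≤ 3 * M := by
    have h1 := hk (t 1) (t 2) (Fin.tail (Fin.tail t))
    have h2 := hk (t 0) (t 2) (Fin.tail (Fin.tail t))
    have h3 := hk (t 0) (t 1) (Fin.tail (Fin.tail t))
    simp only [AW, dx, Pi.add_apply, Pi.sub_apply]
    rw [abs_le] at *
    constructor <;> linarith [h1.1, h1.2, h2.1, h2.2, h3.1, h3.2]
  have h3 : |b1 c t| ≤ M := hM _
  have h4 : |b0 c t| ≤ M := hM _
  have h5 : |(-(1 / ((L + 1 : ℕ) : ℝ))) * AW (dx (S (KK c) (L + 1))) t| ≤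
      |(-(1 / ((L + 1 : ℕ) : ℝ)))| *
      (3 * (((((L + 1 : ℕ) : ℝ)) - 1) * (3 * ((((L + 1 : ℕ) : ℝ) + 3) * M)))) := by
    rw [abs_mul]
    exact mul_le_mul_of_nonneg_left h1 (abs_nonneg _)
  simp only [beta, Pi.add_apply, Pi.sub_apply, Pi.smul_apply, smul_eq_mul]
  rw [abs_le] at h2 h3 h4 h5 ⊢
  constructor <;> linarith [h5.1, h5.2, h2.1, h2.2, h3.1, h3.2, h4.1, h4.2]

lemma d_beta_bd (hc : d (m + 4) c = 0) {M : ℝ} (hM : ∀ t, |c t| ≤ M) (L : ℕ)
    (t : Fin (m + 4) → FreeGroup α) : |d (m + 3) (beta c L) t| ≤ 13 * M := by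
  have hM0 : 0 ≤ M := le_trans (abs_nonneg _) (hM fun _ => 1)
  rw [d_beta hc hM]
  have h1 := dxSu_bd hM (L + 1) (Nat.le_add_left _ _) (t 0) (t 1) (t 2) (Fin.tail (Fin.tail t))
  have hL : (0 : ℝ) < ((L + 1 : ℕ) : ℝ) := by positivity
  have h2 : |(1 / ((L + 1 : ℕ) : ℝ)) * AW (dx (S (uu c) (L + 1))) t| ≤ 9 * M := by
    rw [abs_mul, abs_of_pos (by positivity), one_div, inv_mul_le_iff₀ hL]
    refine le_trans h1 ?_
    nlinarith
  have h3 := uu_bd hM (t 1) (t 2) (Fin.tail (Fin.tail t))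
  have h4 := uu_bd hM (t 0) (t 2) (Fin.tail (Fin.tail t))
  have h5 := uu_bd hM (t 0) (t 1) (Fin.tail (Fin.tail t))
  have h6 := hM t
  simp only [Pi.add_apply, Pi.sub_apply, Pi.smul_apply, smul_eq_mul]
  have e : AW (dx (uu c)) t = uu c (t 1) (t 2) (Fin.tail (Fin.tail t))
    - uu c (t 0) (t 2) (Fin.tail (Fin.tail t)) + uu c (t 0) (t 1) (Fin.tail (Fin.tail t)) := rfl
  rw [e]
  rw [abs_le] at *
  constructor <;> linarith [h2.1, h2.2, h3.1, h3.2, h4.1, h4.2, h5.1, h5.2, h6.1, h6.2]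

lemma S_tendsto (u : FreeGroup α → FreeGroup α → ℝ) (M : ℝ) (hM : ∀ a b, |u a b| ≤ M)
    (x y : FreeGroup α) :
    Tendsto (fun L : ℕ => (1 / ((L + 1 : ℕ) : ℝ)) * S u (L + 1) x y) atTop (𝓝 (u x y)) := by
  rw [tendsto_iff_norm_sub_tendsto_zero]
  have h0 : Tendsto (fun L : ℕ => ((5 * len x y + 1) * M) * (1 / ((L : ℝ) + 1))) atTop (𝓝 0) := by
    simpa using tendsto_one_div_add_atTop_nhds_zero_nat.const_mul ((5 * len x y + 1) * M)
  refine squeeze_zero (fun _ => norm_nonneg _) (fun L => ?_) h0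
  have hL : (0 : ℝ) < ((L + 1 : ℕ) : ℝ) := by positivity
  have h := S_approx u M hM x y (L + 1)
  have e : (1 / ((L + 1 : ℕ) : ℝ)) * S u (L + 1) x y - u x y
      = (S u (L + 1) x y - ((L + 1 : ℕ) : ℝ) * u x y) * (1 / ((L + 1 : ℕ) : ℝ)) := by
    field_simp
  rw [Real.norm_eq_abs, e, abs_mul, abs_of_pos (a := 1 / _) (by positivity)]
  push_cast at h ⊢
  exact mul_le_mul_of_nonneg_right h (by positivity)

lemma d_beta_tendsto (hc : d (m + 4) c = 0) {M : ℝ} (hM : ∀ t, |c t| ≤ M)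
    (t : Fin (m + 4) → FreeGroup α) :
    Tendsto (fun L => d (m + 3) (beta c L) t) atTop (𝓝 (c t)) := by
  simp only [d_beta hc hM]
  set z := Fin.tail (Fin.tail t)
  have h := fun a b => S_tendsto (fun a b => uu c a b z) M (fun a b => uu_bd hM a b z) a b
  have h2 := ((((h (t 1) (t 2)).sub (h (t 0) (t 2))).add (h (t 0) (t 1))).sub_const
    (AW (dx (uu c)) t)).add_const (c t)
  have e : AW (dx (uu c)) t = uu c (t 1) (t 2) z - uu c (t 0) (t 2) z + uu c (t 0) (t 1) z := rfl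
  rw [← e, sub_self, zero_add] at h2
  refine h2.congr fun L => ?_
  simp only [Pi.add_apply, Pi.sub_apply, Pi.smul_apply, smul_eq_mul]
  have e2 : AW (dx (S (uu c) (L + 1))) t = S (uu c) (L + 1) (t 1) (t 2) z
    - S (uu c) (L + 1) (t 0) (t 2) z + S (uu c) (L + 1) (t 0) (t 1) z := rfl
  rw [e2, S_apply, S_apply, S_apply]
  ring

omit [DecidableEq α] in
lemma cons_mul {k : ℕ} (g a : FreeGroup α) (z : Fin k → FreeGroup α) :
    (Fin.cons (g * a) (fun i => g * z i) : Fin (k + 1) → FreeGroup α)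
      = fun i => g * (Fin.cons a z : Fin (k + 1) → FreeGroup α) i := by
  funext i
  refine Fin.cases ?_ (fun i => ?_) i <;> simp

lemma S_mul {X : Type} (u : FreeGroup α → FreeGroup α → X → ℝ) (g : FreeGroup α) (z z' : X)
    (h : ∀ a b, u (g * a) (g * b) z' = u a b z) (L : ℕ) (x y : FreeGroup α) :
    S u L (g * x) (g * y) z' = S u L x y z := by
  rw [S_apply, S_apply]
  unfold S
  simp only [len_mul, P_mul, h]

lemma beta_inv (hi : ∀ g t, c (fun i => g * t i) = c t) (L : ℕ) (g : FreeGroup α)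
    (t : Fin (m + 3) → FreeGroup α) : beta c L (fun i => g * t i) = beta c L t := by
  have h3 : ∀ x y w z, c3 c (g * x) (g * y) (g * w) (fun i => g * z i) = c3 c x y w z := by
    intro x y w z
    simp only [c3, ct, cons_mul, hi]
  have hK0 : ∀ x y z, K0 c (g * x) (g * y) (fun i => g * z i) = K0 c x y z := by
    intro x y z
    simp only [K0, Pi.sub_apply, h3]
    congr 1
    rw [S_apply, S_apply]
    unfold S
    simp only [len_mul, P_mul, h3]
  have hK : ∀ x y z, KK c (g * x) (g * y) (fun i => g * z i) = KK c x y z := by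
    intro x y z
    simp only [KK, Pi.sub_apply, Pi.smul_apply, hK0]
  have hk : ∀ x y z, kk c (g * x) (g * y) (fun i => g * z i) = kk c x y z := by
    intro x y z
    simp only [kk, Pi.add_apply, Pi.smul_apply, h3]
  have ht : Fin.tail (Fin.tail fun i => g * t i) = fun i => g * Fin.tail (Fin.tail t) i := rfl
  have ht1 : (Fin.tail fun i => g * t i) = fun i => g * Fin.tail t i := rfl
  have hS := fun x y z => S_mul (KK c) g z (fun i => g * z i) (fun a b => hK a b z) (L + 1) x y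
  simp only [beta, Pi.add_apply, Pi.sub_apply, Pi.smul_apply, AW, dx, ht, hS, hk, b1, b0]
  rw [ht1, cons_mul, cons_mul, hi, cons_mul, hi]

end free

end Pool.Agent.P.MP_2ca0d6_al
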