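import Pool.Agent.P.MP_2ca0d6_al.Final

set_option autoImplicit false
set_option linter.dupNamespace false

namespace Pool.Agent.P.MP_2ca0d6_al.Pos

open Finset Pool.Agent.P.MP_2ca0d6_al

open Classical in
/-- extension by zero of the restriction of a cochain to tuples in `A` -/
noncomputable def res {X : Type} {k : ℕ} (A : X → Prop) (c : (Fin k → X) → ℝ) :
    (Fin k → X) → ℝ :=
  fun t => if ∀ i, A (t i) then c t else 0

open Classical in
lemma d_res {X : Type} {k : ℕ} (A : X → Prop) (c : (Fin k → X) → ℝ) (hc : d k c = 0)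
    (t : Fin (k + 1) → X) :
    d k (res A c) t = ∑ j : Fin (k + 1),
      if ¬ A (t j) ∧ ∀ i, A (t (j.succAbove i)) then
        (-1 : ℝ) ^ (j : ℕ) * c (t ∘ j.succAbove) else 0 := by
  by_cases hall : ∀ j, A (t j)
  · have h1 : d k (res A c) t = d k c t := by
      rw [d_apply, d_apply]
      refine sum_congr rfl fun j _ => ?_
      unfold res
      rw [if_pos (show ∀ i, A ((t ∘ j.succAbove) i) from fun i => hall _)]
    rw [h1, hc]
    refine (sum_eq_zero fun j _ => ?_).symm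
    rw [if_neg fun h => h.1 (hall j)]
  · rw [d_apply]
    refine sum_congr rfl fun j _ => ?_
    unfold res
    by_cases h : ∀ i, A (t (j.succAbove i))
    · have hj : ¬ A (t j) := fun hj => hall fun l => Fin.succAboveCases j hj h l
      rw [if_pos (show ∀ i, A ((t ∘ j.succAbove) i) from h), if_pos ⟨hj, h⟩]
    · rw [if_neg (show ¬ ∀ i, A ((t ∘ j.succAbove) i) from h), if_neg fun h' => h h'.2, mul_zero]

lemma d_comp {X Y : Type} {k : ℕ} (φ : X → Y) (c : (Fin k → Y) → ℝ) (t : Fin (k + 1) → X) :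
    d k (fun z => c (φ ∘ z)) t = d k c (φ ∘ t) := rfl

lemma d_comp_zero {X Y : Type} {k : ℕ} (φ : X → Y) (c : (Fin k → Y) → ℝ) (hc : d k c = 0) :
    d k (fun z => c (φ ∘ z)) = 0 := by
  funext t
  rw [d_comp, hc]; rfl

/-- all entries of the tuple lie in `[a, b]` -/
def In (a b : ℕ) {k : ℕ} (t : Fin k → ℕ) : Prop := ∀ i, a ≤ t i ∧ t i ≤ b

instance (a b : ℕ) {k : ℕ} (t : Fin k → ℕ) : Decidable (In a b t) := by
  unfold In; infer_instance

/-- the finite combinatorial problem: cocycles on intervals with bounded overlap whose approximate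
primitives have large `ℓ²` overlap -/
structure Ex (k : ℕ) (C K : ℝ) {T : Type} (s : Finset T) (a b : T → ℕ)
    (c : T → (Fin (k + 1) → ℕ) → ℝ) : Prop where
  le : ∀ ι ∈ s, a ι ≤ b ι
  cocy : ∀ ι, d (k + 1) (c ι) = 0
  ovl : ∀ t, ∑ ι ∈ s, (if In (a ι) (b ι) t then |c ι t| else 0) ≤ C
  low : ∀ (u : T → (Fin k → ℕ) → ℝ) (e : T → (Fin (k + 1) → ℕ) → ℝ),
    (∀ ι ∈ s, ∀ t, In (a ι) (b ι) t → d k (u ι) t + e ι t = c ι t) →
    (∀ t, ∑ ι ∈ s, (if In (a ι) (b ι) t then e ι t ^ 2 else 0) ≤ 1 / 4) →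
    ∃ t, K < ∑ ι ∈ s, (if In (a ι) (b ι) t then u ι t ^ 2 else 0)

lemma ex_zero (K : ℝ) : ∃ M : ℕ, Ex 0 1 K (range M) id id fun _ _ => 1 := by
  obtain ⟨M, hM⟩ := exists_nat_gt (4 * K)
  refine ⟨M, fun _ _ => le_rfl, fun ι => ?_, fun t => ?_, fun u e h1 h2 => ?_⟩
  · funext t
    simp [d_apply, Fin.sum_univ_succ]
  · have : ∀ ι ∈ range M, (if In (id ι) (id ι) t then |(1 : ℝ)| else 0) ≤
        if t 0 = ι then 1 else 0 := by
      intro ι _
      split_ifs with h h'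
      · simp
      · exact absurd (le_antisymm (h 0).2 (h 0).1) h'
      · exact zero_le_one
      · exact le_rfl
    refine (sum_le_sum this).trans ?_
    rw [sum_ite_eq]
    split_ifs <;> norm_num
  · refine ⟨Fin.elim0, ?_⟩
    have : ∀ ι ∈ range M, (1 / 4 : ℝ) ≤
        if In (id ι) (id ι) (Fin.elim0 : Fin 0 → ℕ) then u ι Fin.elim0 ^ 2 else 0 := by
      intro ι hι
      rw [if_pos (show In (id ι) (id ι) (Fin.elim0 : Fin 0 → ℕ) from fun i => i.elim0)]
      have hin : In (id ι) (id ι) (fun _ : Fin (0 + 1) => ι) := fun _ => ⟨le_rfl, le_rfl⟩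
      have e1 := h1 ι hι _ hin
      have e2 : d 0 (u ι) (fun _ => ι) = u ι Fin.elim0 := by
        simp only [d_apply, Fin.sum_univ_succ, Fin.sum_univ_zero, Fin.val_zero, pow_zero, one_mul,
          add_zero]
        exact congrArg _ (Subsingleton.elim _ _)
      have e3 : e ι (fun _ => ι) ^ 2 ≤ 1 / 4 := by
        refine le_trans ?_ (h2 fun _ => ι)
        refine le_trans (le_of_eq ?_) (single_le_sum (f := fun κ =>
          if In (id κ) (id κ) (fun _ : Fin (0 + 1) => ι) then e κ (fun _ => ι) ^ 2 else 0)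
          (fun κ _ => by split_ifs <;> positivity) hι)
        rw [if_pos hin]
      rw [e2] at e1
      nlinarith [sq_nonneg (e ι (fun _ => ι) - 1 / 2)]
    have h3 := sum_le_sum this
    rw [sum_const, card_range, nsmul_eq_mul] at h3
    linarith

lemma Ex.reindex {k : ℕ} {C K : ℝ} {T T' : Type} [DecidableEq T'] {s : Finset T} {a b : T → ℕ}
    {c : T → (Fin (k + 1) → ℕ) → ℝ} (h : Ex k C K s a b c) (φ : T → T') (ψ : T' → T)
    (hφ : ∀ x, ψ (φ x) = x) : Ex k C K (s.image φ) (a ∘ ψ) (b ∘ ψ) (c ∘ ψ) := by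
  have hinj : Set.InjOn φ s := fun x _ y _ hxy => by rw [← hφ x, hxy, hφ]
  refine ⟨fun ι hι => ?_, fun ι => h.cocy _, fun t => ?_, fun u e h1 h2 => ?_⟩
  · obtain ⟨x, hx, rfl⟩ := mem_image.1 hι
    simpa [hφ] using h.le x hx
  · rw [sum_image hinj]
    simpa [hφ] using h.ovl t
  · obtain ⟨t, ht⟩ := h.low (u ∘ φ) (e ∘ φ) (fun ι hι t ht => by
      have := h1 (φ ι) (mem_image_of_mem φ hι) t (by simpa [hφ] using ht)
      simpa [hφ] using this) (fun t => by
      have := h2 t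
      rw [sum_image hinj] at this
      simpa [hφ] using this)
    refine ⟨t, ?_⟩
    rw [sum_image hinj]
    simpa [hφ] using ht

/-! ### binary digits -/

lemma div_pow_mono {y y' m m' : ℕ} (h : y / 2 ^ m = y' / 2 ^ m) (hm : m ≤ m') :
    y / 2 ^ m' = y' / 2 ^ m' := by
  obtain ⟨r, rfl⟩ := Nat.exists_eq_add_of_le hm
  rw [pow_add, ← Nat.div_div_eq_div_mul, ← Nat.div_div_eq_div_mul, h]

/-- the join level of two leaves of the binary tree -/
noncomputable def E (y y' : ℕ) : ℕ := sInf {m | y / 2 ^ m = y' / 2 ^ m}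

lemma E_le_iff (y y' m : ℕ) : E y y' ≤ m ↔ y / 2 ^ m = y' / 2 ^ m := by
  constructor
  · intro h
    have hne : {m | y / 2 ^ m = y' / 2 ^ m}.Nonempty := by
      refine ⟨y + y', ?_⟩
      have h1 : y + y' < 2 ^ (y + y') := Nat.lt_two_pow_self
      show y / 2 ^ (y + y') = y' / 2 ^ (y + y')
      rw [Nat.div_eq_of_lt (by omega), Nat.div_eq_of_lt (by omega)]
    exact div_pow_mono (Nat.sInf_mem hne) h
  · intro h
    exact Nat.sInf_le h

lemma E_comm (y y' : ℕ) : E y y' = E y' y := by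
  unfold E
  congr 1
  ext m
  exact eq_comm

lemma E_congr {x x' y a : ℕ} (h : x / 2 ^ a = x' / 2 ^ a) (hy : y / 2 ^ a ≠ x / 2 ^ a) :
    E x y = E x' y := by
  have key : ∀ m, E x y ≤ m ↔ E x' y ≤ m := by
    intro m
    rw [E_le_iff, E_le_iff]
    rcases le_total a m with hm | hm
    · rw [div_pow_mono h hm]
    · constructor
      · intro h1; exact absurd (div_pow_mono h1 hm).symm hy
      · intro h1; exact absurd ((div_pow_mono h1 hm).symm.trans h.symm) hy
  exact le_antisymm ((key _).2 le_rfl) ((key _).1 le_rfl)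

/-- a leaf whose join level with `y` is `i + 2` -/
def fl (y i : ℕ) : ℕ :=
  (if y / 2 ^ (i + 1) % 2 = 0 then y / 2 ^ (i + 1) + 1 else y / 2 ^ (i + 1) - 1) * 2 ^ (i + 1)

lemma E_fl (y i : ℕ) : E (fl y i) y = i + 2 := by
  have h1 : fl y i / 2 ^ (i + 1) =
      if y / 2 ^ (i + 1) % 2 = 0 then y / 2 ^ (i + 1) + 1 else y / 2 ^ (i + 1) - 1 :=
    Nat.mul_div_cancel _ (by positivity)
  have h2 : E (fl y i) y ≤ i + 2 := by
    rw [E_le_iff, pow_succ 2 (i + 1), ← Nat.div_div_eq_div_mul, ← Nat.div_div_eq_div_mul, h1]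
    generalize y / 2 ^ (i + 1) = q
    split_ifs <;> omega
  have h3 : ¬ E (fl y i) y ≤ i + 1 := by
    rw [E_le_iff, h1]
    generalize y / 2 ^ (i + 1) = q
    split_ifs <;> omega
  omega

lemma fl_congr {y y' a i : ℕ} (h : y / 2 ^ (a + 1) = y' / 2 ^ (a + 1)) (hi : a ≤ i) :
    fl y i = fl y' i := by
  unfold fl
  rw [div_pow_mono h (by omega : a + 1 ≤ i + 1)]

lemma kill (a S : ℕ) (hS : a + 1 ≤ S) (G : ℕ → ℝ)
    (hG : ∀ y y', y / 2 ^ (a + 1) = y' / 2 ^ (a + 1) → G y = G y') :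
    ∑ y ∈ range (2 ^ S), (-1 : ℝ) ^ (y / 2 ^ a) * G y = 0 := by
  obtain ⟨r, rfl⟩ := Nat.exists_eq_add_of_le hS
  rw [pow_add, mul_comm]
  generalize 2 ^ r = m
  induction m with
  | zero => simp
  | succ m ih =>
    rw [add_mul, one_mul, sum_range_add, ih, zero_add]
    have hp : 0 < 2 ^ a := by positivity
    have h2 : 2 ^ (a + 1) = 2 ^ a + 2 ^ a := by ring
    have hG' : ∀ x ∈ range (2 ^ (a + 1)), G (m * 2 ^ (a + 1) + x) = G (m * 2 ^ (a + 1)) := by
      intro x hx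
      apply hG
      rw [Nat.mul_div_cancel _ (by positivity), add_comm, Nat.add_mul_div_right _ _ (by positivity),
        Nat.div_eq_of_lt (mem_range.1 hx), zero_add]
    rw [sum_congr rfl fun x hx => by rw [hG' x hx], ← sum_mul]
    have h3 : ∀ x, (m * 2 ^ (a + 1) + x) / 2 ^ a = 2 * m + x / 2 ^ a := by
      intro x
      rw [show m * 2 ^ (a + 1) + x = x + (2 * m) * 2 ^ a by ring, Nat.add_mul_div_right _ _ hp,
        add_comm]
    simp only [h3]
    rw [h2, sum_range_add]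
    have e1 : ∀ x ∈ range (2 ^ a), (-1 : ℝ) ^ (2 * m + x / 2 ^ a) = 1 := by
      intro x hx
      rw [Nat.div_eq_of_lt (mem_range.1 hx)]
      simp
    have e2 : ∀ x ∈ range (2 ^ a), (-1 : ℝ) ^ (2 * m + (2 ^ a + x) / 2 ^ a) = -1 := by
      intro x hx
      rw [Nat.add_div_left _ hp, Nat.div_eq_of_lt (mem_range.1 hx)]
      simp [pow_succ]
    rw [sum_congr rfl e1, sum_congr rfl e2]
    simp

lemma in_node (j m y : ℕ) : (j * 2 ^ m ≤ y ∧ y ≤ j * 2 ^ m + (2 ^ m - 1)) ↔ y / 2 ^ m = j := by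
  have hp : 0 < 2 ^ m := by positivity
  rw [Nat.div_eq_iff hp]
  omega

end Pool.Agent.P.MP_2ca0d6_al.Pos
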