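import Pool.Agent.P.MP_2ca0d6_al.PosA

set_option autoImplicit false
set_option linter.dupNamespace false

namespace Pool.Agent.P.MP_2ca0d6_al.Pos

open Finset Pool.Agent.P.MP_2ca0d6_al

open Classical in
/-- the stepping-up of a cochain along the binary tree -/
noncomputable def up {k : ℕ} (a : ℕ) (c : (Fin (k + 1) → ℕ) → ℝ) (t : Fin (k + 2) → ℕ) : ℝ :=
  ∑ j : Fin (k + 2), if ∀ i, t (j.succAbove i) / 2 ^ a ≠ t j / 2 ^ a then
    (-1 : ℝ) ^ (t j / 2 ^ a) *
      ((-1 : ℝ) ^ (j : ℕ) * c fun i => max a (E (t j) (t (j.succAbove i)) - 2)) else 0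

lemma up_eq {k : ℕ} (a : ℕ) (c : (Fin (k + 1) → ℕ) → ℝ) (hc : d (k + 1) c = 0) (Q : ℕ)
    (t : Fin (k + 2) → ℕ) (ht : ∀ j, t j < Q) :
    up a c t = (∑ q ∈ range Q, (-1 : ℝ) ^ q • d (k + 1) (res (fun y => y / 2 ^ a ≠ q)
      (fun z => c ((fun y => max a (E (q * 2 ^ a) y - 2)) ∘ z)))) t := by
  classical
  rw [Finset.sum_apply]
  simp only [Pi.smul_apply, smul_eq_mul]
  rw [sum_congr rfl fun q _ => by rw [d_res _ _ (d_comp_zero _ c hc), mul_sum], sum_comm]
  unfold up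
  refine sum_congr rfl fun j _ => ?_
  have hq : t j / 2 ^ a ∈ range Q := mem_range.2 (lt_of_le_of_lt (Nat.div_le_self _ _) (ht j))
  rw [sum_eq_single_of_mem _ hq]
  · by_cases h : ∀ i, t (j.succAbove i) / 2 ^ a ≠ t j / 2 ^ a
    · rw [if_pos h, if_pos ⟨by simp, h⟩]
      congr 3
      funext i
      simp only [Function.comp]
      rw [E_congr (x := t j) (x' := t j / 2 ^ a * 2 ^ a)
        (by rw [Nat.mul_div_cancel _ (by positivity)]) (h i)]
    · rw [if_neg h, if_neg fun h' => h h'.2, mul_zero]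
  · intro q _ hne
    rw [if_neg fun h' => h'.1 (Ne.symm hne), mul_zero]

lemma up_cocy {k : ℕ} (a : ℕ) (c : (Fin (k + 1) → ℕ) → ℝ) (hc : d (k + 1) c = 0) :
    d (k + 2) (up a c) = 0 := by
  funext t
  obtain ⟨Q, hQ⟩ : ∃ Q, ∀ j, t j < Q :=
    ⟨univ.sup t + 1, fun j => Nat.lt_succ_of_le (le_sup (f := t) (mem_univ j))⟩
  have h1 : d (k + 2) (up a c) t = d (k + 2) (∑ q ∈ range Q, (-1 : ℝ) ^ q • d (k + 1)
      (res (fun y => y / 2 ^ a ≠ q)
      (fun z => c ((fun y => max a (E (q * 2 ^ a) y - 2)) ∘ z)))) t := by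
    rw [d_apply, d_apply]
    refine sum_congr rfl fun j _ => ?_
    rw [up_eq a c hc Q (t ∘ j.succAbove) fun i => hQ _]
  rw [h1, map_sum]
  simp only [map_smul, d_d, smul_zero, sum_const_zero]

lemma up_ovl {k : ℕ} {C K : ℝ} {T : Type} {s : Finset T} {a b : T → ℕ}
    {c : T → (Fin (k + 1) → ℕ) → ℝ} (h : Ex k C K s a b c) (t : Fin (k + 2) → ℕ) :
    ∑ ι ∈ s, (if ∀ j, t j / 2 ^ (b ι + 2) = t 0 / 2 ^ (b ι + 2) then |up (a ι) (c ι) t| else 0)
      ≤ 2 * (k + 2) * C := by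
  classical
  let τ : Fin (k + 2) → Fin (k + 1) → ℕ := fun j i => E (t j) (t (j.succAbove i)) - 2
  let m : Fin (k + 2) → ℕ := fun j =>
    univ.inf' univ_nonempty fun i : Fin (k + 1) => E (t j) (t (j.succAbove i))
  let τ' : Fin (k + 2) → Fin (k + 1) → ℕ := fun j i => max (m j - 1) (τ j i)
  have key : ∀ ι ∈ s,
      (if ∀ j, t j / 2 ^ (b ι + 2) = t 0 / 2 ^ (b ι + 2) then |up (a ι) (c ι) t| else 0) ≤
      ∑ j : Fin (k + 2), ((if In (a ι) (b ι) (τ j) then |c ι (τ j)| else 0) +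
        (if In (a ι) (b ι) (τ' j) then |c ι (τ' j)| else 0)) := by
    intro ι hι
    have hnn : ∀ j, 0 ≤ (if In (a ι) (b ι) (τ j) then |c ι (τ j)| else 0) ∧
        0 ≤ (if In (a ι) (b ι) (τ' j) then |c ι (τ' j)| else 0) := fun j =>
      ⟨by split_ifs <;> positivity, by split_ifs <;> positivity⟩
    by_cases hb : ∀ j, t j / 2 ^ (b ι + 2) = t 0 / 2 ^ (b ι + 2)
    swap
    · rw [if_neg hb]
      exact sum_nonneg fun j _ => add_nonneg (hnn j).1 (hnn j).2
    rw [if_pos hb]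
    refine (abs_sum_le_sum_abs _ _).trans (sum_le_sum fun j _ => ?_)
    by_cases hj : ∀ i, t (j.succAbove i) / 2 ^ a ι ≠ t j / 2 ^ a ι
    swap
    · rw [if_neg hj, abs_zero]
      exact add_nonneg (hnn j).1 (hnn j).2
    rw [if_pos hj, abs_mul, abs_mul, abs_pow, abs_pow, abs_neg, abs_one, one_pow, one_pow, one_mul,
      one_mul]
    have hup : ∀ i, E (t j) (t (j.succAbove i)) ≤ b ι + 2 := fun i =>
      (E_le_iff _ _ _).2 ((hb _).trans (hb _).symm)
    have hlo : ∀ i, a ι < E (t j) (t (j.succAbove i)) := fun i =>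
      lt_of_not_ge fun h' => hj i ((E_le_iff _ _ _).1 h').symm
    have hm : ∀ i, m j ≤ E (t j) (t (j.succAbove i)) := fun i =>
      inf'_le (fun i : Fin (k + 1) => E (t j) (t (j.succAbove i))) (mem_univ i)
    have hm' : a ι < m j := (lt_inf'_iff _).2 fun i _ => hlo i
    have hab := h.le ι hι
    rcases Nat.lt_or_ge (a ι + 1) (m j) with h1 | h1
    · have e : (fun i => max (a ι) (E (t j) (t (j.succAbove i)) - 2)) = τ j := by
        funext i
        have := hm i
        exact max_eq_right (by omega)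
      have hin : In (a ι) (b ι) (τ j) := fun i => by
        have := hm i
        have := hup i
        simp only [τ]
        omega
      rw [e, if_pos hin]
      exact le_add_of_nonneg_right (hnn j).2
    · have e : (fun i => max (a ι) (E (t j) (t (j.succAbove i)) - 2)) = τ' j := by
        funext i
        simp only [τ', τ]
        congr 1
        omega
      have hin : In (a ι) (b ι) (τ' j) := fun i => by
        have := hup i
        simp only [τ', τ]
        omega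
      rw [e, if_pos hin]
      exact le_add_of_nonneg_left (hnn j).1
  refine (sum_le_sum key).trans ?_
  rw [sum_comm]
  refine (sum_le_card_nsmul _ _ (C + C) fun j _ => ?_).trans (le_of_eq ?_)
  · rw [sum_add_distrib]
    exact add_le_add (h.ovl _) (h.ovl _)
  · simp
    ring

/-- the test tuples -/
def tup {k : ℕ} (y : ℕ) (i : Fin k → ℕ) : Fin (k + 1) → ℕ := Fin.cons y (fl y ∘ i)

lemma E_tup {k : ℕ} (y : ℕ) (i : Fin k → ℕ) (l : Fin k) : E (tup y i l.succ) y = i l + 2 := by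
  simp [tup, E_fl]

lemma up_avg {k : ℕ} (a S : ℕ) (hS : a + 1 ≤ S) (c : (Fin (k + 1) → ℕ) → ℝ)
    (i : Fin (k + 1) → ℕ) (hi : ∀ l, a ≤ i l) :
    ∑ y ∈ range (2 ^ S), (-1 : ℝ) ^ (y / 2 ^ a) * up a c (tup y i) = 2 ^ S * c i := by
  classical
  unfold up
  simp only [Fin.sum_univ_succ (n := k + 1), mul_add, sum_add_distrib]
  have h0 : ∀ y ∈ range (2 ^ S), (-1 : ℝ) ^ (y / 2 ^ a) *
      (if ∀ l, tup y i ((0 : Fin (k + 2)).succAbove l) / 2 ^ a ≠ tup y i 0 / 2 ^ a then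
      (-1 : ℝ) ^ (tup y i 0 / 2 ^ a) * ((-1 : ℝ) ^ ((0 : Fin (k + 2)) : ℕ) *
        c fun l => max a (E (tup y i 0) (tup y i ((0 : Fin (k + 2)).succAbove l)) - 2)) else 0)
      = c i := by
    intro y _
    have e0 : tup y i 0 = y := rfl
    simp only [Fin.succAbove_zero, e0]
    rw [if_pos fun l hl => by
      have h1 := (E_le_iff _ _ _).2 hl
      have h2 := E_tup y i l
      have := hi l
      omega]
    have e : (fun l => max a (E y (tup y i l.succ) - 2)) = i := by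
      funext l
      rw [E_comm, E_tup]
      have := hi l
      omega
    rw [e, ← mul_assoc, ← mul_pow]
    simp
  rw [sum_congr rfl h0, kill a S hS]
  · simp
  · intro y y' hy
    refine sum_congr rfl fun j _ => ?_
    have e1 : ∀ l : Fin (k + 1), tup y i l.succ = tup y' i l.succ := fun l => fl_congr hy (hi l)
    have e2 : ∀ l, E (tup y i j.succ) (tup y i (j.succ.succAbove l)) =
        E (tup y' i j.succ) (tup y' i (j.succ.succAbove l)) := by
      intro l
      generalize j.succ.succAbove l = p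
      refine Fin.cases ?_ (fun p => ?_) p
      · exact (E_tup y i j).trans (E_tup y' i j).symm
      · rw [e1, e1]
    have e3 : (∀ l, tup y i (j.succ.succAbove l) / 2 ^ a ≠ tup y i j.succ / 2 ^ a) ↔
        ∀ l, tup y' i (j.succ.succAbove l) / 2 ^ a ≠ tup y' i j.succ / 2 ^ a := by
      refine forall_congr' fun l => not_congr ?_
      rw [← E_le_iff, ← E_le_iff, E_comm, e2, E_comm]
    simp only [e2, e3]
    rw [e1]

lemma jensen (n : ℕ) (hn : 0 < n) (ε f : ℕ → ℝ) (hε : ∀ y, ε y ^ 2 = 1) :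
    ((n : ℝ)⁻¹ * ∑ y ∈ range n, ε y * f y) ^ 2 ≤ (n : ℝ)⁻¹ * ∑ y ∈ range n, f y ^ 2 := by
  have h := sq_sum_le_card_mul_sum_sq (s := range n) (f := fun y => ε y * f y)
  simp only [mul_pow, hε, one_mul, card_range] at h
  have hn' : (0 : ℝ) < n := by exact_mod_cast hn
  rw [mul_pow]
  calc (n : ℝ)⁻¹ ^ 2 * (∑ y ∈ range n, ε y * f y) ^ 2
      ≤ (n : ℝ)⁻¹ ^ 2 * (n * ∑ y ∈ range n, f y ^ 2) := by gcongr
    _ = _ := by field_simp

theorem Ex.step {k : ℕ} {C K : ℝ} {T : Type} {s : Finset T} {a b : T → ℕ}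
    {c : T → (Fin (k + 1) → ℕ) → ℝ} (h : Ex k C K s a b c) (S : ℕ) (hS : ∀ ι ∈ s, b ι + 2 ≤ S) :
    Ex (k + 1) (2 * (k + 2) * C) K (range (2 ^ S) ×ˢ s) (fun p => p.1 * 2 ^ (b p.2 + 2))
      (fun p => p.1 * 2 ^ (b p.2 + 2) + (2 ^ (b p.2 + 2) - 1)) fun p => up (a p.2) (c p.2) := by
  classical
  have hp : 0 < 2 ^ S := by positivity
  have hp' : (0 : ℝ) < ((2 ^ S : ℕ) : ℝ) := by exact_mod_cast hp
  refine ⟨fun p _ => Nat.le_add_right _ _, fun p => up_cocy _ _ (h.cocy _), fun t => ?_,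
    fun u e h1 h2 => ?_⟩
  · refine le_trans ?_ (up_ovl h t)
    rw [sum_product_right]
    refine sum_le_sum fun ι _ => ?_
    have key : ∀ j ∈ range (2 ^ S), (if In (j * 2 ^ (b ι + 2))
        (j * 2 ^ (b ι + 2) + (2 ^ (b ι + 2) - 1)) t then |up (a ι) (c ι) t| else 0) ≤
        if t 0 / 2 ^ (b ι + 2) = j then (if ∀ l, t l / 2 ^ (b ι + 2) = t 0 / 2 ^ (b ι + 2) then
          |up (a ι) (c ι) t| else 0) else 0 := by
      intro j _
      by_cases hin : In (j * 2 ^ (b ι + 2)) (j * 2 ^ (b ι + 2) + (2 ^ (b ι + 2) - 1)) t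
      · have := fun l => (in_node _ _ _).1 (hin l)
        rw [if_pos hin, if_pos (this 0), if_pos fun l => (this l).trans (this 0).symm]
      · rw [if_neg hin]
        split_ifs <;> positivity
    refine (sum_le_sum key).trans ?_
    rw [sum_ite_eq]
    split_ifs <;> first | positivity | exact le_rfl
  · have hin : ∀ {m : ℕ} (ι : T) (y : ℕ) (i : Fin m → ℕ), In (a ι) (b ι) i →
        In (y / 2 ^ (b ι + 2) * 2 ^ (b ι + 2))
          (y / 2 ^ (b ι + 2) * 2 ^ (b ι + 2) + (2 ^ (b ι + 2) - 1)) (tup y i) := by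
      intro m ι y i hi l
      rw [in_node]
      refine Fin.cases rfl (fun l => ?_) l
      rw [← E_le_iff, E_tup]
      have := (hi l).2
      omega
    have hmem : ∀ ι ∈ s, ∀ y ∈ range (2 ^ S), (y / 2 ^ (b ι + 2), ι) ∈ range (2 ^ S) ×ˢ s :=
      fun ι hι y hy => mem_product.2
        ⟨mem_range.2 (lt_of_le_of_lt (Nat.div_le_self _ _) (mem_range.1 hy)), hι⟩
    have hsq : ∀ {m : ℕ} (f : ℕ × T → (Fin (m + 1) → ℕ) → ℝ) (i : Fin m → ℕ),
        ∑ ι ∈ s, (if In (a ι) (b ι) i then (((2 ^ S : ℕ) : ℝ)⁻¹ * ∑ y ∈ range (2 ^ S),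
          (-1 : ℝ) ^ (y / 2 ^ a ι) * f (y / 2 ^ (b ι + 2), ι) (tup y i)) ^ 2 else 0) ≤
        ((2 ^ S : ℕ) : ℝ)⁻¹ * ∑ y ∈ range (2 ^ S), ∑ p ∈ range (2 ^ S) ×ˢ s,
          if In (p.1 * 2 ^ (b p.2 + 2)) (p.1 * 2 ^ (b p.2 + 2) + (2 ^ (b p.2 + 2) - 1)) (tup y i)
          then f p (tup y i) ^ 2 else 0 := by
      intro m f i
      simp only [sum_product_right]
      rw [sum_comm, mul_sum]
      refine sum_le_sum fun ι hι => ?_
      by_cases hi : In (a ι) (b ι) i
      · rw [if_pos hi]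
        refine (jensen _ hp _ _ fun y => by rw [← pow_mul, mul_comm, pow_mul]; simp).trans ?_
        refine mul_le_mul_of_nonneg_left (sum_le_sum fun y hy => ?_) (by positivity)
        refine le_trans (le_of_eq ?_) (single_le_sum (f := fun j =>
          if In (j * 2 ^ (b ι + 2)) (j * 2 ^ (b ι + 2) + (2 ^ (b ι + 2) - 1)) (tup y i)
          then f (j, ι) (tup y i) ^ 2 else 0) (fun j _ => by split_ifs <;> positivity)
          (mem_product.1 (hmem ι hι y hy)).1)
        rw [if_pos (hin ι y i hi)]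
      · rw [if_neg hi]
        refine mul_nonneg (by positivity) (sum_nonneg fun y _ => sum_nonneg fun j _ => ?_)
        split_ifs <;> positivity
    obtain ⟨i, hi⟩ := h.low
      (fun ι i => - (((2 ^ S : ℕ) : ℝ)⁻¹ * ∑ y ∈ range (2 ^ S),
          (-1 : ℝ) ^ (y / 2 ^ a ι) * u (y / 2 ^ (b ι + 2), ι) (tup y i)))
      (fun ι i => ((2 ^ S : ℕ) : ℝ)⁻¹ * ∑ y ∈ range (2 ^ S),
          (-1 : ℝ) ^ (y / 2 ^ a ι) * e (y / 2 ^ (b ι + 2), ι) (tup y i))
      (fun ι hι i hi => by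
        have hab := h.le ι hι
        have hS' := hS ι hι
        have e1 := up_avg (a ι) S (by omega) (c ι) i fun l => (hi l).1
        have e2 : ∀ y ∈ range (2 ^ S), (-1 : ℝ) ^ (y / 2 ^ a ι) * up (a ι) (c ι) (tup y i) =
            (-1 : ℝ) ^ (y / 2 ^ a ι) * u (y / 2 ^ (b ι + 2), ι) (fl y ∘ i) -
            (-1 : ℝ) ^ (y / 2 ^ a ι) * d k (fun i' => u (y / 2 ^ (b ι + 2), ι) (tup y i')) i +
            (-1 : ℝ) ^ (y / 2 ^ a ι) * e (y / 2 ^ (b ι + 2), ι) (tup y i) := by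
          intro y hy
          have := h1 _ (hmem ι hι y hy) _ (hin ι y i hi)
          simp only at this
          rw [← this, ← mul_sub, ← mul_add]
          congr 2
          exact d_cons _ _ _ _
        rw [sum_congr rfl e2, sum_add_distrib, sum_sub_distrib, kill (a ι) S (by omega) _
          (fun y y' hy => by
            rw [div_pow_mono hy (by omega : a ι + 1 ≤ b ι + 2)]
            congr 1
            funext l
            exact fl_congr hy (hi l).1)] at e1
        have e3 : d k (fun i => - (((2 ^ S : ℕ) : ℝ)⁻¹ * ∑ y ∈ range (2 ^ S),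
            (-1 : ℝ) ^ (y / 2 ^ a ι) * u (y / 2 ^ (b ι + 2), ι) (tup y i))) i =
            - (((2 ^ S : ℕ) : ℝ)⁻¹ * ∑ y ∈ range (2 ^ S), (-1 : ℝ) ^ (y / 2 ^ a ι) *
              d k (fun i' => u (y / 2 ^ (b ι + 2), ι) (tup y i')) i) := by
          simp only [d_apply, mul_sum, mul_neg, sum_neg_distrib]
          rw [sum_comm]
          congr 1
          exact sum_congr rfl fun y _ => sum_congr rfl fun l _ => by ring
        rw [e3]
        push_cast at e1 ⊢
        field_simp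
        linarith)
      (fun i => (hsq e i).trans (by
        rw [inv_mul_le_iff₀ hp']
        refine (sum_le_card_nsmul _ _ _ fun y _ => h2 (tup y i)).trans (le_of_eq ?_)
        simp))
    simp only [neg_sq] at hi
    have h3 := hi.trans_le (hsq u i)
    by_contra hcon
    push Not at hcon
    rw [lt_inv_mul_iff₀ hp'] at h3
    have h4 := sum_le_card_nsmul (range (2 ^ S)) _ K fun y _ => hcon (tup y i)
    rw [card_range, nsmul_eq_mul] at h4
    exact absurd h3 (not_lt.2 h4)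

theorem ex_all (k : ℕ) : ∃ C : ℝ, ∀ K : ℝ, ∃ (s : Finset ℕ) (a b : ℕ → ℕ)
    (c : ℕ → (Fin (k + 1) → ℕ) → ℝ), Ex k C K s a b c := by
  induction k with
  | zero =>
    refine ⟨1, fun K => ?_⟩
    obtain ⟨M, hM⟩ := ex_zero K
    exact ⟨_, _, _, _, hM⟩
  | succ k ih =>
    obtain ⟨C, hC⟩ := ih
    refine ⟨2 * (k + 2) * C, fun K => ?_⟩
    obtain ⟨s, a, b, c, h⟩ := hC K
    have h' := h.step (s.sup b + 2) fun ι hι => Nat.add_le_add_right (le_sup hι) 2
    exact ⟨_, _, _, _, h'.reindex (fun p => Nat.pair p.1 p.2) Nat.unpair fun p => by simp⟩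

end Pool.Agent.P.MP_2ca0d6_al.Pos
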