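import Pool.Agent.P.MP_2ca0d6_al.PosB

set_option autoImplicit false
set_option linter.dupNamespace false
set_option linter.unusedSectionVars false
set_option linter.unusedVariables false

namespace Pool.Agent.P.MP_2ca0d6_al.Pos

open Finset FreeGroup Pool.Agent.P.MP_2ca0d6_al

section lists
variable {β : Type} {A B : β}

lemma rep_inj (hAB : A ≠ B) : ∀ (n n' : ℕ) (V V' : List β),
    List.replicate n B ++ A :: V = List.replicate n' B ++ A :: V' → n = n'
  | 0, 0, _, _, _ => rfl
  | 0, n' + 1, _, _, h => absurd (List.cons.inj h).1 hAB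
  | n + 1, 0, _, _, h => absurd (List.cons.inj h).1.symm hAB
  | n + 1, n' + 1, V, V', h => congrArg (· + 1) (rep_inj hAB n n' V V' (List.cons.inj h).2)

lemma rep_cancel (hAB : A ≠ B) : ∀ (n : ℕ) (D X V Y : List β),
    D ++ A :: X = List.replicate n B ++ A :: V → ∃ Z, D ++ A :: Y = List.replicate n B ++ A :: Z
  | 0, [], _, _, Y, _ => ⟨Y, rfl⟩
  | 0, e :: D, _, _, Y, h => ⟨D ++ A :: Y, by rw [(List.cons.inj h).1]; rfl⟩
  | n + 1, [], _, _, _, h => absurd (List.cons.inj h).1 hAB
  | n + 1, e :: D, X, V, Y, h => by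
    obtain ⟨Z, hZ⟩ := rep_cancel hAB n D X V Y (List.cons.inj h).2
    exact ⟨Z, by rw [(List.cons.inj h).1, List.cons_append, hZ]; rfl⟩

end lists

variable {α : Type} [DecidableEq α] (A B : α)

/-- the half-tree beyond the edge from `g` to `g * A` -/
def H (g x : FreeGroup α) : Prop := ∃ V, (g⁻¹ * x).toWord = (A, true) :: V

/-- the block `A B^n` -/
def blk (n : ℕ) : List (α × Bool) := (A, true) :: List.replicate n (B, true)

/-- positive elements -/
def Ps (w : FreeGroup α) : Prop := ∀ l ∈ w.toWord, l.2 = true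

variable {A B}

lemma H_mul (h g x : FreeGroup α) : H A (h * g) (h * x) ↔ H A g x := by
  unfold H
  rw [show (h * g)⁻¹ * (h * x) = g⁻¹ * x by group]

lemma red_of_pos : ∀ (L : List (α × Bool)), (∀ l ∈ L, l.2 = true) → IsReduced L
  | [], _ => IsReduced.nil
  | [_], _ => IsReduced.singleton
  | a :: b :: L, h => by
    refine List.isChain_cons_cons.2 ⟨fun _ => ?_, red_of_pos (b :: L) fun l hl => h l (by simp [hl])⟩
    rw [h a (by simp), h b (by simp)]

lemma toWord_blk (n : ℕ) : (mk (blk A B n)).toWord = blk A B n := by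
  rw [toWord_mk]
  refine (red_of_pos _ fun l hl => ?_).reduce_eq
  simp only [blk, List.mem_cons, List.mem_replicate] at hl
  rcases hl with rfl | ⟨-, rfl⟩ <;> rfl

lemma Ps_blk (n : ℕ) : Ps (mk (blk A B n)) := by
  intro l hl
  rw [toWord_blk] at hl
  simp only [blk, List.mem_cons, List.mem_replicate] at hl
  rcases hl with rfl | ⟨-, rfl⟩ <;> rfl

lemma Ps_one : Ps (1 : FreeGroup α) := by
  intro l hl
  simp at hl

lemma Ps_of (a : α) : Ps (of a) := by
  intro l hl
  simp only [toWord_of, List.mem_singleton] at hl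
  rw [hl]

lemma Ps.mul {u v : FreeGroup α} (hu : Ps u) (hv : Ps v) : Ps (u * v) := by
  intro l hl
  rcases List.mem_append.1 ((toWord_mul_sublist u v).subset hl) with h | h
  · exact hu l h
  · exact hv l h

lemma Ps.not_mem_inv {u : FreeGroup α} (hu : Ps u) (a : α) : (a, true) ∉ u⁻¹.toWord := by
  intro h
  rw [toWord_inv] at h
  simp only [invRev, List.mem_reverse, List.mem_map] at h
  obtain ⟨l, hl, e⟩ := h
  have := hu l hl
  have e2 := congrArg Prod.snd e
  simp [this] at e2

lemma word_split {g x z : FreeGroup α} (hx : ¬ H A g x) (hz : H A g z) :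
    (x⁻¹ * z).toWord = (x⁻¹ * g).toWord ++ (g⁻¹ * z).toWord := by
  rw [show x⁻¹ * z = (x⁻¹ * g) * (g⁻¹ * z) by group, toWord_mul]
  apply IsReduced.reduce_eq
  obtain ⟨V, hV⟩ := hz
  unfold FreeGroup.IsReduced
  rw [List.isChain_append]
  refine ⟨isReduced_toWord, isReduced_toWord, fun p hp q hq hpq => ?_⟩
  rw [hV] at hq
  simp only [List.head?_cons, Option.mem_def, Option.some.injEq] at hq
  subst hq
  by_contra hne
  apply hx
  obtain ⟨L, hL⟩ := List.getLast?_eq_some_iff.1 hp
  refine ⟨invRev L, ?_⟩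
  rw [show g⁻¹ * x = (x⁻¹ * g)⁻¹ by group, toWord_inv, hL, invRev_append]
  obtain ⟨p1, p2⟩ := p
  simp only at hpq hne
  subst hpq
  cases p2 <;> simp_all [invRev]

lemma H_pos {g x x' : FreeGroup α} (h : H A g x') (hp : Ps (x'⁻¹ * x)) : H A g x := by
  by_contra hx
  have h1 := word_split hx h
  obtain ⟨V, hV⟩ := h
  apply hp.not_mem_inv A
  rw [show (x'⁻¹ * x)⁻¹ = x⁻¹ * x' by group, h1, hV]
  simp

lemma not_H_self (g : FreeGroup α) : ¬ H A g g := by
  rintro ⟨V, hV⟩
  simp at hV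

lemma not_H_of_pos {g x : FreeGroup α} (hp : Ps (x⁻¹ * g)) : ¬ H A g x :=
  fun h => not_H_self g (H_pos h hp)

lemma H_blk (g x : FreeGroup α) (n : ℕ) :
    H A (g * mk (blk A B n)) x ↔ ∃ V, (g⁻¹ * x).toWord = blk A B n ++ (A, true) :: V := by
  constructor
  · intro h
    have h1 := word_split (x := g) (not_H_of_pos (by simpa using Ps_blk n)) h
    obtain ⟨V, hV⟩ := h
    exact ⟨V, by rw [h1, hV, inv_mul_cancel_left, toWord_blk]⟩
  · rintro ⟨V, hV⟩
    refine ⟨V, ?_⟩
    have h1 : (g * mk (blk A B n))⁻¹ * x = mk ((A, true) :: V) := by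
      rw [mul_inv_rev, mul_assoc, ← mk_toWord (x := g⁻¹ * x), hV, ← mul_mk, inv_mul_cancel_left]
    rw [h1, toWord_mk]
    exact IsReduced.reduce_eq (List.IsChain.right_of_append (hV ▸ isReduced_toWord))

lemma H_nest {g x : FreeGroup α} {n : ℕ} (h : H A (g * mk (blk A B n)) x) : H A g x := by
  obtain ⟨V, hV⟩ := (H_blk g x n).1 h
  exact ⟨_, hV⟩

lemma H_blk_self (g : FreeGroup α) (n : ℕ) : H A g (g * mk (blk A B n)) :=
  ⟨_, by rw [inv_mul_cancel_left, toWord_blk]; rfl⟩

lemma H_of_self (g : FreeGroup α) : H A g (g * of A) :=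
  ⟨[], by rw [inv_mul_cancel_left, toWord_of]⟩

lemma fwd (hAB : A ≠ B) {v z : FreeGroup α} {n n' : ℕ} (h : H A (v * mk (blk A B n)) z)
    (h' : H A (v * mk (blk A B n')) z) : n = n' := by
  obtain ⟨V, hV⟩ := (H_blk v z n).1 h
  obtain ⟨V', hV'⟩ := (H_blk v z n').1 h'
  exact rep_inj (by simpa using hAB) _ _ _ _ (List.cons.inj (hV.symm.trans hV')).2

lemma bwd (hAB : A ≠ B) {w w' x : FreeGroup α} {n n' : ℕ}
    (e : w * mk (blk A B n) = w' * mk (blk A B n')) (h : ¬ H A w x) (h' : ¬ H A w' x) :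
    n = n' := by
  have h1 := word_split h (H_blk_self (B := B) w n)
  have h2 := word_split h' (H_blk_self (B := B) w' n')
  rw [inv_mul_cancel_left, toWord_blk] at h1 h2
  rw [e, h2] at h1
  have h3 := congrArg List.reverse h1
  simp only [blk, List.reverse_append, List.reverse_cons, List.reverse_replicate,
    List.append_assoc, List.singleton_append] at h3
  exact (rep_inj (by simpa using hAB) _ _ _ _ h3).symm

lemma bracket (hAB : A ≠ B) {v v' x y z : FreeGroup α} {n n' : ℕ}
    (h1 : ¬ H A v x) (h2 : H A v y) (h3 : ¬ H A (v * mk (blk A B n)) y)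
    (h4 : H A (v * mk (blk A B n)) z)
    (h1' : ¬ H A v' x) (h2' : H A v' y) (h3' : ¬ H A (v' * mk (blk A B n')) y)
    (h4' : H A (v' * mk (blk A B n')) z) : v = v' ∧ n = n' := by
  wlog hl : (x⁻¹ * v).toWord.length ≤ (x⁻¹ * v').toWord.length generalizing v v' n n'
  · obtain ⟨e1, e2⟩ := this h1' h2' h3' h4' h1 h2 h3 h4 (le_of_not_ge hl)
    exact ⟨e1.symm, e2.symm⟩
  have z1 := word_split h1 (H_nest h4)
  have z2 := word_split h1' (H_nest h4')
  have y1 := word_split h1 h2
  have y2 := word_split h1' h2'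
  obtain ⟨D, hD⟩ : (x⁻¹ * v).toWord <+: (x⁻¹ * v').toWord :=
    List.prefix_of_prefix_length_le ⟨_, y1.symm⟩ ⟨_, y2.symm⟩ hl
  rw [← hD, List.append_assoc] at z2 y2
  have z3 := List.append_cancel_left (z1.symm.trans z2)
  have y3 := List.append_cancel_left (y1.symm.trans y2)
  cases D with
  | nil =>
    have e : v = v' := by
      rw [List.append_nil, toWord_inj] at hD
      exact mul_left_cancel hD
    subst e
    exact ⟨rfl, fwd hAB h4 h4'⟩
  | cons e D =>
    exfalso
    obtain ⟨V, hV⟩ := (H_blk v z n).1 h4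
    obtain ⟨V', hV'⟩ := H_nest h4'
    obtain ⟨Y', hY'⟩ := h2'
    rw [hV, hV'] at z3
    rw [hY'] at y3
    obtain ⟨e1, e2⟩ := List.cons.inj z3
    obtain ⟨Z, hZ⟩ := rep_cancel (by simpa using hAB) n D V' V Y' e2.symm
    refine h3 ((H_blk v y n).2 ⟨Z, ?_⟩)
    rw [y3, List.cons_append, hZ, ← e1]
    rfl

variable (A B)

/-- the vertices of a chain of blocks -/
def vx (g : FreeGroup α) (n : ℕ → ℕ) : ℕ → FreeGroup α
  | 0 => g
  | s + 1 => vx g n s * mk (blk A B (n s))

theorem vx_realize : True := by have := @vx.eq_def; trivial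

/-- the index of the block below a point -/
noncomputable def idx (g : FreeGroup α) (n : ℕ → ℕ) (x : FreeGroup α) : ℕ :=
  sInf {s | ¬ H A (vx A B g n (s + 1)) x}

variable {A B}

lemma vx_mul (h g : FreeGroup α) (n : ℕ → ℕ) (s : ℕ) : vx A B (h * g) n s = h * vx A B g n s := by
  induction s with
  | zero => rfl
  | succ s ih => rw [vx, vx, ih, mul_assoc]

lemma idx_mul (h g x : FreeGroup α) (n : ℕ → ℕ) : idx A B (h * g) n (h * x) = idx A B g n x := by
  unfold idx
  simp only [vx_mul, H_mul]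

lemma vx_nest {g x : FreeGroup α} {n : ℕ → ℕ} {s t : ℕ} (hst : s ≤ t) (h : H A (vx A B g n t) x) :
    H A (vx A B g n s) x := by
  induction t, hst using Nat.le_induction with
  | base => exact h
  | succ t _ ih => exact ih (H_nest h)

lemma vx_pos (g : FreeGroup α) (n : ℕ → ℕ) {s t : ℕ} (hst : s ≤ t) :
    Ps ((vx A B g n s)⁻¹ * vx A B g n t) := by
  induction t, hst using Nat.le_induction with
  | base => simpa using Ps_one
  | succ t _ ih => rw [vx, ← mul_assoc]; exact ih.mul (Ps_blk _)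

lemma vx_congr (g : FreeGroup α) {n n' : ℕ → ℕ} {s : ℕ} (h : ∀ t < s, n t = n' t) :
    vx A B g n s = vx A B g n' s := by
  induction s with
  | zero => rfl
  | succ s ih => rw [vx, vx, ih fun t ht => h t (by omega), h s (by omega)]

lemma vx_add (g : FreeGroup α) (n : ℕ → ℕ) (s t : ℕ) :
    vx A B g n (s + t) = vx A B (vx A B g n s) (fun u => n (s + u)) t := by
  induction t with
  | zero => rfl
  | succ t ih => rw [← add_assoc, vx, vx, ih]

lemma idx_spec {g x : FreeGroup α} {n : ℕ → ℕ} {r : ℕ} (h1 : H A g x)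
    (h2 : ¬ H A (vx A B g n r) x) :
    idx A B g n x < r ∧ H A (vx A B g n (idx A B g n x)) x ∧
      ¬ H A (vx A B g n (idx A B g n x + 1)) x := by
  obtain ⟨r, rfl⟩ : ∃ r', r = r' + 1 := by
    cases r with
    | zero => exact absurd h1 h2
    | succ r => exact ⟨r, rfl⟩
  have hm : r ∈ {s | ¬ H A (vx A B g n (s + 1)) x} := h2
  refine ⟨Nat.lt_succ_of_le (Nat.sInf_le hm), ?_, Nat.sInf_mem ⟨r, hm⟩⟩
  rcases h : idx A B g n x with _ | m
  · exact h1
  · by_contra hc
    have : idx A B g n x ≤ m := Nat.sInf_le hc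
    omega

lemma chain (hAB : A ≠ B) {g g' x z : FreeGroup α} {n n' : ℕ → ℕ} {r s : ℕ} (hs : s ≤ r)
    (h1 : ¬ H A g x) (h1' : ¬ H A g' x) (h2 : H A (vx A B g n r) z) (h2' : H A (vx A B g' n' r) z)
    (e : vx A B g n s = vx A B g' n' s) : g = g' ∧ ∀ t < r, n t = n' t := by
  have hb : ∀ s, vx A B g n s = vx A B g' n' s → g = g' ∧ ∀ t < s, n t = n' t := by
    intro s
    induction s with
    | zero => exact fun e => ⟨e, fun t ht => absurd ht (Nat.not_lt_zero _)⟩
    | succ s ih =>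
      intro e
      have e1 : n s = n' s := bwd hAB e (fun h => h1 (vx_nest (Nat.zero_le s) h))
        fun h => h1' (vx_nest (Nat.zero_le s) h)
      rw [vx, vx, e1] at e
      obtain ⟨e2, e3⟩ := ih (mul_right_cancel e)
      refine ⟨e2, fun t ht => ?_⟩
      rcases Nat.lt_succ_iff_lt_or_eq.1 ht with h | rfl
      · exact e3 t h
      · exact e1
  apply hb
  have hf : ∀ t, s ≤ t → t ≤ r → vx A B g n t = vx A B g' n' t := by
    intro t hst
    induction t, hst using Nat.le_induction with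
    | base => exact fun _ => e
    | succ t _ ih =>
      intro ht
      have e1 := ih (by omega)
      have a1 := vx_nest ht h2
      have a2 := vx_nest ht h2'
      rw [vx] at a1 a2
      rw [← e1] at a2
      rw [vx, vx, ← e1, fwd hAB a1 a2]
  exact hf r hs le_rfl

end Pool.Agent.P.MP_2ca0d6_al.Pos
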