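import Pool.Agent.P.MP_2ca0d6_al.PosC

set_option autoImplicit false
set_option linter.dupNamespace false
set_option linter.unusedSectionVars false
set_option linter.unusedVariables false

namespace Pool.Agent.P.MP_2ca0d6_al.Pos

open Finset FreeGroup Pool.Agent.P.MP_2ca0d6_al

variable {α : Type} [DecidableEq α] (A B : α) {k : ℕ}

/-- the points hanging off the segment -/
def Mid (g : FreeGroup α) (n : ℕ → ℕ) (r : ℕ) (x : FreeGroup α) : Prop :=
  H A g x ∧ ¬ H A (vx A B g n r) x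

/-- the position of a point along the segment -/
noncomputable def pos (g : FreeGroup α) (n : ℕ → ℕ) (lo : ℕ) (x : FreeGroup α) : ℕ :=
  lo + idx A B g n x / 2

/-- the cocycle attached to one segment -/
noncomputable def core (g : FreeGroup α) (n : ℕ → ℕ) (r lo : ℕ) (c : (Fin (k + 1) → ℕ) → ℝ) :
    (Fin (k + 3) → FreeGroup α) → ℝ :=
  d (k + 2) (res (H A g) (d (k + 1) (res (Mid A B g n r) fun z => c (pos A B g n lo ∘ z))))

/-- the point `l` is before the segment, the point `j` after it, and all others hang off it -/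
def Role (g : FreeGroup α) (n : ℕ → ℕ) (r : ℕ) (x : Fin (k + 3) → FreeGroup α)
    (l : Fin (k + 3)) (j : Fin (k + 2)) : Prop :=
  ¬ H A g (x l) ∧ H A (vx A B g n r) (x (l.succAbove j)) ∧
    ∀ i : Fin (k + 1), Mid A B g n r (x (l.succAbove (j.succAbove i)))

variable {A B}

open Classical in
lemma core_eq (g : FreeGroup α) (n : ℕ → ℕ) (r lo : ℕ) (c : (Fin (k + 1) → ℕ) → ℝ)
    (hc : d (k + 1) c = 0) (x : Fin (k + 3) → FreeGroup α) :
    core A B g n r lo c x = ∑ l : Fin (k + 3), ∑ j : Fin (k + 2), if Role A B g n r x l j then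
      (-1 : ℝ) ^ (l : ℕ) * ((-1 : ℝ) ^ (j : ℕ) *
        c fun i => pos A B g n lo (x (l.succAbove (j.succAbove i)))) else 0 := by
  unfold core
  rw [d_res _ _ (d_d _ _)]
  refine sum_congr rfl fun l _ => ?_
  by_cases hl : ¬ H A g (x l) ∧ ∀ i, H A g (x (l.succAbove i))
  · rw [if_pos hl, d_res _ _ (d_comp_zero _ c hc), mul_sum]
    refine sum_congr rfl fun j _ => ?_
    by_cases hj : Role A B g n r x l j
    · rw [if_pos hj, if_pos ⟨fun h => h.2 hj.2.1, hj.2.2⟩]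
      rfl
    · rw [if_neg hj, if_neg, mul_zero]
      rintro ⟨h1, h2⟩
      refine hj ⟨hl.1, ?_, h2⟩
      by_contra h3
      exact h1 ⟨hl.2 j, h3⟩
  · rw [if_neg hl]
    refine (sum_eq_zero fun j _ => if_neg fun hj => hl ⟨hj.1, fun i => ?_⟩).symm
    exact Fin.succAboveCases j (vx_nest (Nat.zero_le r) hj.2.1) (fun i => (hj.2.2 i).1) i

lemma core_mul (h g : FreeGroup α) (n : ℕ → ℕ) (r lo : ℕ) (c : (Fin (k + 1) → ℕ) → ℝ)
    (hc : d (k + 1) c = 0) (x : Fin (k + 3) → FreeGroup α) :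
    core A B (h * g) n r lo c (fun i => h * x i) = core A B g n r lo c x := by
  rw [core_eq _ _ _ _ _ hc, core_eq _ _ _ _ _ hc]
  refine sum_congr rfl fun l _ => sum_congr rfl fun j _ => ?_
  have : Role A B (h * g) n r (fun i => h * x i) l j ↔ Role A B g n r x l j := by
    simp only [Role, Mid, vx_mul, H_mul]
  simp only [pos, idx_mul]
  classical
  exact if_congr this rfl rfl

lemma compare (hAB : A ≠ B) {g x y z v : FreeGroup α} {n : ℕ → ℕ} {r m : ℕ}
    (h1 : ¬ H A g x) (h2 : H A (vx A B g n r) z) (h3 : Mid A B g n r y)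
    (h1' : ¬ H A v x) (h2' : H A v y) (h3' : ¬ H A (v * mk (blk A B m)) y)
    (h4' : H A (v * mk (blk A B m)) z) :
    vx A B g n (idx A B g n y) = v ∧ n (idx A B g n y) = m := by
  obtain ⟨a1, a2, a3⟩ := idx_spec h3.1 h3.2
  exact bracket hAB (fun h => h1 (vx_nest (Nat.zero_le _) h)) a2 a3
    (vx_nest (Nat.succ_le_of_lt a1) h2) h1' h2' h3' h4'

/-- an injective code -/
def enc (N τ : ℕ) (S : Finset ℕ) : ℕ := Encodable.encode (N, τ, S)

lemma enc_inj {N τ N' τ' : ℕ} {S S' : Finset ℕ} (h : enc N τ S = enc N' τ' S') :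
    N = N' ∧ τ = τ' ∧ S = S' := by
  simpa using Encodable.encode_injective h

/-- labels of segments -/
abbrev Lab : Type := ℕ × ℕ × (ℕ → Finset ℕ)

/-- exponents of the blocks of a segment -/
def ex (lo : ℕ → ℕ → ℕ) (Q : Lab) (t : ℕ) : ℕ := enc Q.1 (2 * lo Q.1 Q.2.1 + t) (Q.2.2 t)

/-- number of blocks of a segment -/
def ln (lo hi : ℕ → ℕ → ℕ) (Q : Lab) : ℕ := 2 * (hi Q.1 Q.2.1 + 1 - lo Q.1 Q.2.1)

/-- admissible labels -/
def Valid (s : ℕ → Finset ℕ) (lo hi : ℕ → ℕ → ℕ) (Q : Lab) : Prop :=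
  Q.2.1 ∈ s Q.1 ∧ ∀ t, ln lo hi Q ≤ t → Q.2.2 t = ∅

/-- a sign -/
def sg (ι : ℕ) (S : Finset ℕ) : ℝ := if ι ∈ S then -1 else 1

lemma abs_sg (ι : ℕ) (S : Finset ℕ) : |sg ι S| = 1 := by
  unfold sg
  split_ifs <;> simp

variable (A B)

open Classical in
/-- the contribution of one segment -/
noncomputable def term (s : ℕ → Finset ℕ) (lo hi : ℕ → ℕ → ℕ)
    (c : ℕ → ℕ → (Fin (k + 1) → ℕ) → ℝ) (P : FreeGroup α × Lab) :
    (Fin (k + 3) → FreeGroup α) → ℝ :=
  (if Valid s lo hi P.2 then sg P.2.2.1 (P.2.2.2 0) * sg P.2.2.1 (P.2.2.2 (ln lo hi P.2 - 1))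
    else 0) • core A B P.1 (ex lo P.2) (ln lo hi P.2) (lo P.2.1 P.2.2.1) (c P.2.1 P.2.2.1)

/-- the cocycle -/
noncomputable def cF (s : ℕ → Finset ℕ) (lo hi : ℕ → ℕ → ℕ)
    (c : ℕ → ℕ → (Fin (k + 1) → ℕ) → ℝ) (x : Fin (k + 3) → FreeGroup α) : ℝ :=
  ∑' P, term A B s lo hi c P x

variable {A B} {s : ℕ → Finset ℕ} {lo hi : ℕ → ℕ → ℕ} {c : ℕ → ℕ → (Fin (k + 1) → ℕ) → ℝ}

lemma pos_in {P : FreeGroup α × Lab} {y : FreeGroup α}
    (h : Mid A B P.1 (ex lo P.2) (ln lo hi P.2) y) :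
    lo P.2.1 P.2.2.1 ≤ pos A B P.1 (ex lo P.2) (lo P.2.1 P.2.2.1) y ∧
      pos A B P.1 (ex lo P.2) (lo P.2.1 P.2.2.1) y ≤ hi P.2.1 P.2.2.1 := by
  have := (idx_spec h.1 h.2).1
  unfold ln at this
  unfold pos
  omega

lemma role_key (hAB : A ≠ B) {P P' : FreeGroup α × Lab} {x : Fin (k + 3) → FreeGroup α}
    {l : Fin (k + 3)} {j : Fin (k + 2)} (hP : Valid s lo hi P.2) (hP' : Valid s lo hi P'.2)
    (h : Role A B P.1 (ex lo P.2) (ln lo hi P.2) x l j)
    (h' : Role A B P'.1 (ex lo P'.2) (ln lo hi P'.2) x l j) :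
    P.2.1 = P'.2.1 ∧ (∀ i, pos A B P.1 (ex lo P.2) (lo P.2.1 P.2.2.1)
      (x (l.succAbove (j.succAbove i))) = pos A B P'.1 (ex lo P'.2) (lo P'.2.1 P'.2.2.1)
      (x (l.succAbove (j.succAbove i)))) ∧ (P.2.2.1 = P'.2.2.1 → P = P') := by
  have key := fun i => by
    obtain ⟨a1, a2, a3⟩ := idx_spec (h'.2.2 i).1 (h'.2.2 i).2
    exact compare hAB h.1 h.2.1 (h.2.2 i) (fun h0 => h'.1 (vx_nest (Nat.zero_le _) h0)) a2 a3
      (vx_nest (Nat.succ_le_of_lt a1) h'.2.1)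
  have hN := (enc_inj (key 0).2).1
  refine ⟨hN, fun i => ?_, fun hι => ?_⟩
  · have := (enc_inj (key i).2).2.1
    unfold pos
    omega
  · obtain ⟨g, N, ι, ε⟩ := P
    obtain ⟨g', N', ι', ε'⟩ := P'
    simp only at hN hι
    subst hN hι
    have e1 := (enc_inj (key 0).2).2.1
    have e2 := (key 0).1
    simp only [add_right_inj] at e1
    rw [← e1] at e2
    obtain ⟨e3, e4⟩ := chain hAB (idx_spec (h.2.2 0).1 (h.2.2 0).2).1.le h.1 h'.1 h.2.1 h'.2.1 e2
    simp only at e3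
    subst e3
    have : ε = ε' := by
      funext t
      rcases Nat.lt_or_ge t (ln lo hi (N, ι, ε)) with ht | ht
      · exact (enc_inj (e4 t ht)).2.2
      · exact (hP.2 t ht).trans (hP'.2 t ht).symm
    rw [this]

lemma term_bd (hAB : A ≠ B) {C : ℝ} (hE : ∀ N : ℕ, Ex k C N (s N) (lo N) (hi N) (c N))
    (x : Fin (k + 3) → FreeGroup α) (U : Finset (FreeGroup α × Lab)) :
    ∑ P ∈ U, |term A B s lo hi c P x| ≤ (k + 3) * ((k + 2) * C) := by
  classical
  have key : ∀ P ∈ U, |term A B s lo hi c P x| ≤ ∑ l : Fin (k + 3), ∑ j : Fin (k + 2),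
      if Valid s lo hi P.2 ∧ Role A B P.1 (ex lo P.2) (ln lo hi P.2) x l j then
      |c P.2.1 P.2.2.1 fun i => pos A B P.1 (ex lo P.2) (lo P.2.1 P.2.2.1)
        (x (l.succAbove (j.succAbove i)))| else 0 := by
    intro P _
    unfold term
    rw [Pi.smul_apply, smul_eq_mul]
    by_cases hv : Valid s lo hi P.2
    · rw [if_pos hv, abs_mul, abs_mul, abs_sg, abs_sg, one_mul, one_mul,
        core_eq _ _ _ _ _ ((hE _).cocy _)]
      refine (abs_sum_le_sum_abs _ _).trans (sum_le_sum fun l _ => ?_)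
      refine (abs_sum_le_sum_abs _ _).trans (sum_le_sum fun j _ => le_of_eq ?_)
      simp only [hv, true_and]
      split_ifs
      · simp [abs_mul]
      · simp
    · simp [hv]
  refine (sum_le_sum key).trans ?_
  rw [sum_comm]
  refine (sum_le_card_nsmul _ _ ((k + 2) * C) fun l _ => ?_).trans (le_of_eq (by simp))
  rw [sum_comm]
  refine (sum_le_card_nsmul _ _ C fun j _ => ?_).trans (le_of_eq (by simp))
  rw [← sum_filter]
  set U' := U.filter fun P => Valid s lo hi P.2 ∧ Role A B P.1 (ex lo P.2) (ln lo hi P.2) x l j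
    with hU'
  rcases U'.eq_empty_or_nonempty with h0 | ⟨P0, hP0⟩
  · rw [h0, sum_empty]
    exact le_trans (sum_nonneg fun _ _ => by split_ifs <;> positivity) ((hE 0).ovl 0)
  have hk : ∀ P ∈ U', ∀ P' ∈ U', _ := fun P hP P' hP' =>
    role_key hAB (mem_filter.1 hP).2.1 (mem_filter.1 hP').2.1 (mem_filter.1 hP).2.2
      (mem_filter.1 hP').2.2
  let τ : Fin (k + 1) → ℕ := fun i => pos A B P0.1 (ex lo P0.2) (lo P0.2.1 P0.2.2.1)
    (x (l.succAbove (j.succAbove i)))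
  refine le_trans ?_ ((hE P0.2.1).ovl τ)
  have e1 : ∀ P ∈ U', |c P.2.1 P.2.2.1 fun i => pos A B P.1 (ex lo P.2) (lo P.2.1 P.2.2.1)
        (x (l.succAbove (j.succAbove i)))| =
      if In (lo P0.2.1 P.2.2.1) (hi P0.2.1 P.2.2.1) τ then |c P0.2.1 P.2.2.1 τ| else 0 := by
    intro P hP
    obtain ⟨a1, a2, -⟩ := hk P hP P0 hP0
    have a3 : (fun i => pos A B P.1 (ex lo P.2) (lo P.2.1 P.2.2.1)
        (x (l.succAbove (j.succAbove i)))) = τ := funext a2
    rw [if_pos, a3, a1]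
    rw [← a1, ← a3]
    exact fun i => pos_in ((mem_filter.1 hP).2.2.2.2 i)
  rw [sum_congr rfl e1, ← sum_image (f := fun ι =>
    if In (lo P0.2.1 ι) (hi P0.2.1 ι) τ then |c P0.2.1 ι τ| else 0) (g := fun P => P.2.2.1)
    fun P hP P' hP' => (hk P hP P' hP').2.2]
  refine sum_le_sum_of_subset_of_nonneg (fun ι hι => ?_) fun _ _ _ => by split_ifs <;> positivity
  obtain ⟨P, hP, rfl⟩ := mem_image.1 hι
  rw [← (hk P hP P0 hP0).1]
  exact (mem_filter.1 hP).2.1.1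

lemma term_summable (hAB : A ≠ B) {C : ℝ} (hE : ∀ N : ℕ, Ex k C N (s N) (lo N) (hi N) (c N))
    (x : Fin (k + 3) → FreeGroup α) : Summable fun P => term A B s lo hi c P x :=
  (summable_of_sum_le (fun _ => abs_nonneg _) (term_bd hAB hE x)).of_abs

lemma cF_bd (hAB : A ≠ B) {C : ℝ} (hE : ∀ N : ℕ, Ex k C N (s N) (lo N) (hi N) (c N)) :
    Bdd (cF A B s lo hi c) := by
  refine ⟨(k + 3) * ((k + 2) * C), fun x => ?_⟩
  have hs := (term_summable hAB hE x).abs
  have h1 : ‖∑' P, term A B s lo hi c P x‖ ≤ ∑' P, ‖term A B s lo hi c P x‖ :=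
    norm_tsum_le_tsum_norm (f := fun P => term A B s lo hi c P x) hs
  have h2 : ∑' P, |term A B s lo hi c P x| ≤ (k + 3) * ((k + 2) * C) :=
    hs.tsum_le_of_sum_le (term_bd hAB hE x)
  simp only [Real.norm_eq_abs] at h1
  exact h1.trans h2

lemma cF_cocy (hAB : A ≠ B) {C : ℝ} (hE : ∀ N : ℕ, Ex k C N (s N) (lo N) (hi N) (c N)) :
    d (k + 3) (cF A B s lo hi c) = 0 := by
  funext x
  rw [d_apply]
  unfold cF
  simp only [← tsum_mul_left]
  rw [← Summable.tsum_finsetSum fun i _ => (term_summable hAB hE _).mul_left _]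
  have : ∀ P, ∑ i : Fin (k + 3 + 1), (-1 : ℝ) ^ (i : ℕ) * term A B s lo hi c P (x ∘ i.succAbove)
      = 0 := by
    intro P
    rw [← d_apply]
    unfold term core
    rw [map_smul, d_d, smul_zero]
    rfl
  simp [this]

lemma cF_inv {C : ℝ} (hE : ∀ N : ℕ, Ex k C N (s N) (lo N) (hi N) (c N)) (h : FreeGroup α)
    (x : Fin (k + 3) → FreeGroup α) :
    cF A B s lo hi c (fun i => h * x i) = cF A B s lo hi c x := by
  unfold cF
  rw [← (Equiv.prodCongr (Equiv.mulLeft h) (Equiv.refl Lab)).tsum_eq]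
  refine tsum_congr fun P => ?_
  unfold term
  simp only [Pi.smul_apply]
  congr 1
  exact core_mul _ _ _ _ _ _ ((hE _).cocy _) _

end Pool.Agent.P.MP_2ca0d6_al.Pos
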