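import Pool.Agent.P.MP_2ca0d6_al.PosD

set_option autoImplicit false
set_option linter.dupNamespace false
set_option linter.unusedSectionVars false
set_option linter.unusedVariables false

namespace Pool.Agent.P.MP_2ca0d6_al.Pos

open Finset FreeGroup Pool.Agent.P.MP_2ca0d6_al

variable {α : Type} [DecidableEq α] (A B : α) {k : ℕ}

/-- the vertices of the test path -/
def GG (N : ℕ) (e : ℕ → Finset ℕ) (τ : ℕ) : FreeGroup α := vx A B 1 (fun τ => enc N τ (e τ)) τ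

/-- the inner points of a test tuple -/
def YY (N : ℕ) (e : ℕ → Finset ℕ) {m : ℕ} (t : Fin m → ℕ) : Fin m → FreeGroup α :=
  fun i => GG A B N e (2 * t i + 1)

/-- the test tuples -/
def XX (N R : ℕ) (e : ℕ → Finset ℕ) {m : ℕ} (t : Fin m → ℕ) : Fin (m + 2) → FreeGroup α :=
  Fin.cons 1 (Fin.cons (GG A B N e R * of A) (YY A B N e t))

/-- the segments on the test path -/
def seg (lo hi : ℕ → ℕ → ℕ) (N : ℕ) (e : ℕ → Finset ℕ) (ι : ℕ) : FreeGroup α × Lab :=
  (GG A B N e (2 * lo N ι), N, ι,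
    fun t => if t < 2 * (hi N ι + 1 - lo N ι) then e (2 * lo N ι + t) else ∅)

variable {A B} {s : ℕ → Finset ℕ} {lo hi : ℕ → ℕ → ℕ} {c : ℕ → ℕ → (Fin (k + 1) → ℕ) → ℝ}

lemma GG_add (N : ℕ) (e : ℕ → Finset ℕ) (m u : ℕ) : GG A B N e (m + u) =
    GG A B N e m * vx A B 1 (fun v => enc N (m + v) (e (m + v))) u := by
  unfold GG
  rw [vx_add, ← vx_mul, mul_one]

lemma vx_seg (N : ℕ) (e : ℕ → Finset ℕ) (ι : ℕ) :
    vx A B (seg A B lo hi N e ι).1 (ex lo (seg A B lo hi N e ι).2)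
      (ln lo hi (seg A B lo hi N e ι).2) =
      GG A B N e (2 * lo N ι + 2 * (hi N ι + 1 - lo N ι)) := by
  unfold GG
  rw [vx_add]
  refine vx_congr _ fun t ht => ?_
  have ht' : t < 2 * (hi N ι + 1 - lo N ι) := ht
  simp only [ex, seg, if_pos ht']

lemma H_top {N R τ : ℕ} {e : ℕ → Finset ℕ} (h : τ ≤ R) :
    H A (GG A B N e τ) (GG A B N e R * of A) := vx_nest h (H_of_self _)

lemma not_H_one (N τ : ℕ) (e : ℕ → Finset ℕ) : ¬ H A (GG A B N e τ) 1 :=
  not_H_of_pos (vx_pos 1 _ (Nat.zero_le τ))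

lemma role_zero {g : FreeGroup α} {n : ℕ → ℕ} {r N R : ℕ} {e : ℕ → Finset ℕ} {t : Fin (k + 1) → ℕ}
    (ht : ∀ i, 2 * t i + 1 ≤ R) {l : Fin (k + 3)} {j : Fin (k + 2)}
    (h : Role A B g n r (XX A B N R e t) l j) : l = 0 ∧ j = 0 := by
  have hl : l = 0 := by
    by_contra hl
    obtain ⟨l, rfl⟩ := Fin.exists_succ_eq.2 hl
    have h1 : ∀ i, H A g (XX A B N R e t (l.succ.succAbove i)) := fun i =>
      Fin.succAboveCases j (vx_nest (Nat.zero_le r) h.2.1) (fun i => (h.2.2 i).1) i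
    have h2 := h1 0
    rw [Fin.succ_succAbove_zero] at h2
    refine h.1 (H_pos h2 ?_)
    refine Fin.cases ?_ (fun l => ?_) l
    · show Ps (1⁻¹ * (GG A B N e R * of A))
      rw [← mul_assoc]
      exact (vx_pos 1 _ (Nat.zero_le R)).mul (Ps_of A)
    · exact vx_pos 1 _ (Nat.zero_le _)
  subst hl
  refine ⟨rfl, ?_⟩
  by_contra hj
  obtain ⟨j, rfl⟩ := Fin.exists_succ_eq.2 hj
  have h2 := (h.2.2 0).2
  rw [Fin.succ_succAbove_zero] at h2
  refine h2 (H_pos h.2.1 ?_)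
  show Ps ((GG A B N e (2 * t j + 1))⁻¹ * (GG A B N e R * of A))
  rw [← mul_assoc]
  exact (vx_pos 1 _ (ht j)).mul (Ps_of A)

lemma role_pos (hAB : A ≠ B) {P : FreeGroup α × Lab} {N R : ℕ} {e : ℕ → Finset ℕ}
    {t : Fin (k + 1) → ℕ} (ht : ∀ i, 2 * t i + 1 ≤ R)
    (h : Role A B P.1 (ex lo P.2) (ln lo hi P.2) (XX A B N R e t) 0 0) :
    P.2.1 = N ∧ ∀ i, pos A B P.1 (ex lo P.2) (lo P.2.1 P.2.2.1) (YY A B N e t i) = t i := by
  have key := fun i => (enc_inj (compare hAB (v := GG A B N e (2 * t i))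
    (m := enc N (2 * t i) (e (2 * t i))) (y := YY A B N e t i) h.1 h.2.1 (h.2.2 i)
    (not_H_one _ _ _) (H_blk_self _ _) (not_H_self _) (H_top (ht i))).2)
  refine ⟨(key 0).1, fun i => ?_⟩
  have := (key i).2.1
  unfold pos
  omega

lemma role_seg {N R ι : ℕ} {e : ℕ → Finset ℕ} {t : Fin (k + 1) → ℕ}
    (hR : 2 * (hi N ι + 1) ≤ R) (hin : In (lo N ι) (hi N ι) t) :
    Role A B (seg A B lo hi N e ι).1 (ex lo (seg A B lo hi N e ι).2)
      (ln lo hi (seg A B lo hi N e ι).2) (XX A B N R e t) 0 0 := by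
  have h0 := hin 0
  refine ⟨not_H_one _ _ _, ?_, fun i => ⟨?_, ?_⟩⟩
  · rw [vx_seg]
    exact H_top (by omega)
  · have := hin i
    exact vx_nest (by omega : 2 * lo N ι ≤ 2 * t i) (H_blk_self _ _)
  · rw [vx_seg]
    have := hin i
    exact not_H_of_pos (vx_pos 1 _ (by omega : 2 * t i + 1 ≤ _))

lemma valid_seg {N ι : ℕ} {e : ℕ → Finset ℕ} (hι : ι ∈ s N) :
    Valid s lo hi (seg A B lo hi N e ι).2 :=
  ⟨hι, fun t ht => if_neg (not_lt.2 ht)⟩

lemma cF_eval (hAB : A ≠ B) {C : ℝ} (hE : ∀ N : ℕ, Ex k C N (s N) (lo N) (hi N) (c N))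
    {N R : ℕ} (hR : ∀ ι ∈ s N, 2 * (hi N ι + 1) ≤ R) (e : ℕ → Finset ℕ) {t : Fin (k + 1) → ℕ}
    (ht : ∀ i, 2 * t i + 1 ≤ R) :
    cF A B s lo hi c (XX A B N R e t) = ∑ ι ∈ s N, if In (lo N ι) (hi N ι) t then
      sg ι (e (2 * lo N ι)) * sg ι (e (2 * hi N ι + 1)) * c N ι t else 0 := by
  classical
  have hcore : ∀ P : FreeGroup α × Lab,
      core A B P.1 (ex lo P.2) (ln lo hi P.2) (lo P.2.1 P.2.2.1) (c P.2.1 P.2.2.1)
        (XX A B N R e t) = if Role A B P.1 (ex lo P.2) (ln lo hi P.2) (XX A B N R e t) 0 0 then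
        c P.2.1 P.2.2.1 t else 0 := by
    intro P
    rw [core_eq _ _ _ _ _ ((hE _).cocy _), Fintype.sum_eq_single 0, Fintype.sum_eq_single 0]
    · split_ifs with h
      · simp only [Fin.val_zero, pow_zero, one_mul]
        exact congrArg _ (funext (role_pos hAB ht h).2)
      · rfl
    · exact fun j hj => if_neg fun h => hj (role_zero ht h).2
    · exact fun l hl => sum_eq_zero fun j _ => if_neg fun h => hl (role_zero ht h).1
  have hin : ∀ P : FreeGroup α × Lab,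
      Role A B P.1 (ex lo P.2) (ln lo hi P.2) (XX A B N R e t) 0 0 →
      In (lo N P.2.2.1) (hi N P.2.2.1) t := by
    intro P h i
    obtain ⟨e1, e2⟩ := role_pos hAB ht h
    have e3 := pos_in (y := YY A B N e t i) (h.2.2 i)
    rwa [e2 i, e1] at e3
  unfold cF
  rw [tsum_eq_sum (s := (s N).image (seg A B lo hi N e)), sum_image
    fun ι _ κ _ h => congrArg (fun P : FreeGroup α × Lab => P.2.2.1) h]
  · refine sum_congr rfl fun ι hι => ?_
    unfold term
    rw [Pi.smul_apply, smul_eq_mul, if_pos (valid_seg hι), hcore]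
    by_cases h : In (lo N ι) (hi N ι) t
    · rw [if_pos h, if_pos (role_seg (hR ι hι) h)]
      have hle := (hE N).le ι hι
      have e1 : (seg A B lo hi N e ι).2.2.2 0 = e (2 * lo N ι) := if_pos (by omega)
      have e2 : (seg A B lo hi N e ι).2.2.2 (ln lo hi (seg A B lo hi N e ι).2 - 1) =
          e (2 * hi N ι + 1) := by
        have e3 : ln lo hi (seg A B lo hi N e ι).2 = 2 * (hi N ι + 1 - lo N ι) := rfl
        rw [e3]
        refine (if_pos (by omega)).trans (congrArg e (by omega))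
      rw [e1, e2]
      rfl
    · rw [if_neg h, if_neg fun h' => h (hin _ h'), mul_zero]
  · intro P hP
    unfold term
    rw [Pi.smul_apply, smul_eq_mul, hcore]
    by_cases hv : Valid s lo hi P.2
    swap
    · rw [if_neg hv, zero_mul]
    rw [if_neg (c := Role A B P.1 (ex lo P.2) (ln lo hi P.2) (XX A B N R e t) 0 0), mul_zero]
    intro h
    have hι : P.2.2.1 ∈ s N := (role_pos hAB ht h).1 ▸ hv.1
    exact hP (mem_image.2 ⟨P.2.2.1, hι,
      ((role_key hAB hv (valid_seg hι) h (role_seg (hR _ hι) (hin P h))).2.2 rfl).symm⟩)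

/-! ### Walsh characters -/

lemma flip_zero {Ω : Type} (O : Finset Ω) (σ : Ω → Ω) (h1 : ∀ ω ∈ O, σ ω ∈ O)
    (h2 : ∀ ω, σ (σ ω) = ω) (f : Ω → ℝ) (hf : ∀ ω, f (σ ω) = - f ω) : ∑ ω ∈ O, f ω = 0 := by
  have : ∑ ω ∈ O, f ω = ∑ ω ∈ O, - f ω :=
    sum_nbij' σ σ h1 h1 (fun ω _ => h2 ω) (fun ω _ => h2 ω) fun ω _ => by rw [hf, neg_neg]
  rw [sum_neg_distrib] at this
  linarith

lemma bessel {Ω T : Type} [DecidableEq T] (O : Finset Ω) (hO : O.Nonempty) (s : Finset T)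
    (W : T → Ω → ℝ)
    (hW : ∀ ι ∈ s, ∀ κ ∈ s, ∑ ω ∈ O, W ι ω * W κ ω = if ι = κ then (#O : ℝ) else 0)
    (f : Ω → ℝ) (m : ℝ) (hf : ∀ ω, |f ω| ≤ m) :
    ∑ ι ∈ s, ((#O : ℝ)⁻¹ * ∑ ω ∈ O, W ι ω * f ω) ^ 2 ≤ m ^ 2 := by
  have hp : (0 : ℝ) < #O := by exact_mod_cast hO.card_pos
  set a : T → ℝ := fun ι => (#O : ℝ)⁻¹ * ∑ ω ∈ O, W ι ω * f ω with ha
  have h1 : ∑ ω ∈ O, f ω * ∑ ι ∈ s, a ι * W ι ω = #O * ∑ ι ∈ s, a ι ^ 2 := by
    simp only [mul_sum]
    rw [sum_comm]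
    refine sum_congr rfl fun ι _ => ?_
    have : ∑ ω ∈ O, W ι ω * f ω = #O * a ι := by
      simp only [ha]
      field_simp
    calc ∑ ω ∈ O, f ω * (a ι * W ι ω) = a ι * ∑ ω ∈ O, W ι ω * f ω := by
          rw [mul_sum]; exact sum_congr rfl fun ω _ => by ring
      _ = _ := by rw [this]; ring
  have h2 : ∑ ω ∈ O, (∑ ι ∈ s, a ι * W ι ω) ^ 2 = #O * ∑ ι ∈ s, a ι ^ 2 := by
    simp only [sq, sum_mul_sum]
    rw [sum_comm, mul_sum]
    refine sum_congr rfl fun ι hι => ?_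
    rw [sum_comm]
    have : ∀ κ ∈ s, ∑ ω ∈ O, a ι * W ι ω * (a κ * W κ ω) =
        if ι = κ then a ι * a κ * #O else 0 := by
      intro κ hκ
      calc ∑ ω ∈ O, a ι * W ι ω * (a κ * W κ ω) = a ι * a κ * ∑ ω ∈ O, W ι ω * W κ ω := by
            rw [mul_sum]; exact sum_congr rfl fun ω _ => by ring
        _ = _ := by rw [hW ι hι κ hκ]; split_ifs <;> simp
    rw [sum_congr rfl this, sum_ite_eq, if_pos hι]
    ring
  have h3 : 0 ≤ ∑ ω ∈ O, (f ω - ∑ ι ∈ s, a ι * W ι ω) ^ 2 := sum_nonneg fun _ _ => sq_nonneg _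
  have h4 : ∑ ω ∈ O, f ω ^ 2 ≤ #O * m ^ 2 := by
    rw [← nsmul_eq_mul]
    exact sum_le_card_nsmul _ _ _ fun ω _ => sq_le_sq' (abs_le.1 (hf ω)).1 (abs_le.1 (hf ω)).2
  simp only [sub_sq, sum_add_distrib, sum_sub_distrib, mul_assoc, ← mul_sum] at h3
  rw [h1, h2] at h3
  exact le_of_mul_le_mul_left (by linarith) hp

lemma sg_flip (ι : ℕ) (S : Finset ℕ) : sg ι (symmDiff S {ι}) = - sg ι S := by
  unfold sg
  by_cases h : ι ∈ S <;> simp [mem_symmDiff, h]

lemma sg_flip_ne {ι κ : ℕ} (h : κ ≠ ι) (S : Finset ℕ) : sg κ (symmDiff S {ι}) = sg κ S := by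
  unfold sg
  simp [mem_symmDiff, h]

lemma sg_sq (ι : ℕ) (S : Finset ℕ) : sg ι S * sg ι S = 1 := by
  unfold sg
  split_ifs <;> simp

/-- the letters of the random path -/
def lt (a b : ℕ → ℕ) (ω : Finset ℕ × Finset ℕ) (τ : ℕ) : Finset ℕ :=
  ω.1.filter (fun κ => 2 * a κ = τ) ∪ ω.2.filter fun κ => 2 * b κ + 1 = τ

lemma sg_lt1 (a b : ℕ → ℕ) (ω : Finset ℕ × Finset ℕ) (ι : ℕ) :
    sg ι (lt a b ω (2 * a ι)) = sg ι ω.1 := by
  have : ¬ 2 * b ι + 1 = 2 * a ι := by omega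
  simp [sg, lt, this]

lemma sg_lt2 (a b : ℕ → ℕ) (ω : Finset ℕ × Finset ℕ) (ι : ℕ) :
    sg ι (lt a b ω (2 * b ι + 1)) = sg ι ω.2 := by
  have : ¬ 2 * a ι = 2 * b ι + 1 := by omega
  simp [sg, lt, this]

lemma lt_flip1 (a b : ℕ → ℕ) (ω : Finset ℕ × Finset ℕ) (ι τ : ℕ) (h : 2 * a ι ≠ τ) :
    lt a b (symmDiff ω.1 {ι}, ω.2) τ = lt a b ω τ := by
  unfold lt
  congr 1
  ext κ
  by_cases hκ : κ = ι
  · subst hκ; simp [h]
  · simp [mem_symmDiff, hκ]

lemma lt_flip2 (a b : ℕ → ℕ) (ω : Finset ℕ × Finset ℕ) (ι τ : ℕ) (h : 2 * b ι + 1 ≠ τ) :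
    lt a b (ω.1, symmDiff ω.2 {ι}) τ = lt a b ω τ := by
  unfold lt
  congr 1
  ext κ
  by_cases hκ : κ = ι
  · subst hκ; simp [h]
  · simp [mem_symmDiff, hκ]

lemma flip_mem {S T : Finset ℕ} {ι : ℕ} (hι : ι ∈ S) (hT : T ∈ S.powerset) :
    symmDiff T {ι} ∈ S.powerset :=
  mem_powerset.2 (symmDiff_le_sup.trans (sup_le (mem_powerset.1 hT) (singleton_subset_iff.2 hι)))

theorem lower (hAB : A ≠ B) {C : ℝ} (hE : ∀ N : ℕ, Ex k C N (s N) (lo N) (hi N) (c N))
    (β : (Fin (k + 2) → FreeGroup α) → ℝ) (hβ : Bdd β) (hinv : ∀ g x, β (fun i => g * x i) = β x) :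
    ∃ x, 1 / 2 < |cF A B s lo hi c x - d (k + 2) β x| := by
  classical
  by_contra hcon
  push Not at hcon
  obtain ⟨M, hM⟩ := hβ
  obtain ⟨N, hN⟩ := exists_nat_ge (M ^ 2)
  let R := 2 * ((s N).sup (hi N) + 1)
  have hR : ∀ ι ∈ s N, 2 * (hi N ι + 1) ≤ R := fun ι hι => by
    have := le_sup (f := hi N) hι
    omega
  let O := (s N).powerset ×ˢ (s N).powerset
  have hO : O.Nonempty := ⟨(∅, ∅), by simp [O]⟩
  have hp : (0 : ℝ) < #O := by exact_mod_cast hO.card_pos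
  let W : ℕ → Finset ℕ × Finset ℕ → ℝ := fun ι ω => sg ι ω.1 * sg ι ω.2
  have f1 : ∀ ι ∈ s N, ∀ f : Finset ℕ × Finset ℕ → ℝ,
      (∀ ω, f (symmDiff ω.1 {ι}, ω.2) = f ω) → ∑ ω ∈ O, W ι ω * f ω = 0 := fun ι hι f hf =>
    flip_zero O (fun ω => (symmDiff ω.1 {ι}, ω.2))
      (fun ω hω => mem_product.2 ⟨flip_mem hι (mem_product.1 hω).1, (mem_product.1 hω).2⟩)
      (fun ω => by simp) _ fun ω => by simp only [W, hf, sg_flip]; ring
  have f2 : ∀ ι ∈ s N, ∀ f : Finset ℕ × Finset ℕ → ℝ,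
      (∀ ω, f (ω.1, symmDiff ω.2 {ι}) = f ω) → ∑ ω ∈ O, W ι ω * f ω = 0 := fun ι hι f hf =>
    flip_zero O (fun ω => (ω.1, symmDiff ω.2 {ι}))
      (fun ω hω => mem_product.2 ⟨(mem_product.1 hω).1, flip_mem hι (mem_product.1 hω).2⟩)
      (fun ω => by simp) _ fun ω => by simp only [W, hf, sg_flip]; ring
  have hW : ∀ ι ∈ s N, ∀ κ ∈ s N, ∑ ω ∈ O, W ι ω * W κ ω = if ι = κ then (#O : ℝ) else 0 := by
    intro ι hι κ _
    split_ifs with h
    · subst h
      have : ∀ ω ∈ O, W ι ω * W ι ω = 1 := fun ω _ => by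
        simp only [W]
        rw [mul_mul_mul_comm, sg_sq, sg_sq, one_mul]
      rw [sum_congr rfl this]
      simp
    · exact f1 ι hι _ fun ω => by simp only [W, sg_flip_ne (Ne.symm h)]
  let L := lt (lo N) (hi N)
  obtain ⟨t, ht⟩ := (hE N).low
    (fun ι t => (#O : ℝ)⁻¹ * ∑ ω ∈ O, W ι ω * β (XX A B N R (L ω) t))
    (fun ι t => (#O : ℝ)⁻¹ * ∑ ω ∈ O, W ι ω *
      (cF A B s lo hi c (XX A B N R (L ω) t) - d (k + 2) β (XX A B N R (L ω) t)))
    (fun ι hι t hin => by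
      have hRι := hR ι hι
      have ht : ∀ i, 2 * t i + 1 ≤ R := fun i => by have := (hin i).2; omega
      have e1 : ∑ ω ∈ O, W ι ω * cF A B s lo hi c (XX A B N R (L ω) t) = #O * c N ι t := by
        simp only [cF_eval hAB hE hR _ ht, L, sg_lt1, sg_lt2, mul_sum]
        rw [sum_comm]
        have : ∀ κ ∈ s N, ∑ ω ∈ O, W ι ω * (if In (lo N κ) (hi N κ) t then
            sg κ ω.1 * sg κ ω.2 * c N κ t else 0) = if ι = κ then #O * c N ι t else 0 := by
          intro κ hκ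
          by_cases h : In (lo N κ) (hi N κ) t
          · simp only [if_pos h, ← mul_assoc (W ι _), ← sum_mul]
            have := hW ι hι κ hκ
            simp only [W, ← mul_assoc] at this ⊢
            rw [this]
            split_ifs with h'
            · rw [h']
            · exact zero_mul _
          · simp only [if_neg h, mul_zero, sum_const_zero]
            rw [if_neg]
            rintro rfl
            exact h hin
        rw [sum_congr rfl this, sum_ite_eq, if_pos hι]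
      have e2 : ∀ ω, d (k + 2) β (XX A B N R (L ω) t) =
          β (Fin.cons (GG A B N (L ω) R * of A) (YY A B N (L ω) t)) -
          (β (Fin.cons 1 (YY A B N (L ω) t)) - d k (fun t' => β (XX A B N R (L ω) t')) t) := by
        intro ω
        unfold XX
        rw [d_cons, d_cons]
        rfl
      have e3 : ∑ ω ∈ O, W ι ω * β (Fin.cons (GG A B N (L ω) R * of A) (YY A B N (L ω) t)) = 0 := by
        refine f1 ι hι _ fun ω => ?_
        have hs : ∀ ω' : Finset ℕ × Finset ℕ,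
            (Fin.cons (GG A B N (L ω') R * of A) (YY A B N (L ω') t) :
            Fin (k + 2) → FreeGroup α) = fun i => GG A B N (L ω') (2 * lo N ι + 1) *
            (Fin.cons (vx A B 1 (fun v => enc N (2 * lo N ι + 1 + v) (L ω' (2 * lo N ι + 1 + v)))
              (R - (2 * lo N ι + 1)) * of A) (fun i => vx A B 1
              (fun v => enc N (2 * lo N ι + 1 + v) (L ω' (2 * lo N ι + 1 + v)))
              (2 * t i - 2 * lo N ι)) : Fin (k + 2) → FreeGroup α) i := by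
          intro ω'
          funext i
          refine Fin.cases ?_ (fun i => ?_) i
          · have := (hin 0).1
            have := ht 0
            simp only [Fin.cons_zero]
            rw [← mul_assoc, ← GG_add, Nat.add_sub_cancel' (by omega)]
          · have := (hin i).1
            simp only [Fin.cons_succ, YY]
            rw [← GG_add]
            congr 1
            omega
        rw [hs, hs, hinv, hinv]
        have : ∀ v, L (symmDiff ω.1 {ι}, ω.2) (2 * lo N ι + 1 + v) = L ω (2 * lo N ι + 1 + v) :=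
          fun v => lt_flip1 _ _ _ _ _ (by omega)
        simp only [this]
      have e4 : ∑ ω ∈ O, W ι ω * β (Fin.cons 1 (YY A B N (L ω) t)) = 0 := by
        refine f2 ι hι _ fun ω => ?_
        have : YY A B N (L (ω.1, symmDiff ω.2 {ι})) t = YY A B N (L ω) t := by
          funext i
          have := (hin i).2
          refine vx_congr _ fun τ hτ => ?_
          rw [show L (ω.1, symmDiff ω.2 {ι}) τ = L ω τ from lt_flip2 _ _ _ _ _ (by omega)]
        rw [this]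
      have e5 : d k (fun t => (#O : ℝ)⁻¹ * ∑ ω ∈ O, W ι ω * β (XX A B N R (L ω) t)) t =
          (#O : ℝ)⁻¹ * ∑ ω ∈ O, W ι ω * d k (fun t' => β (XX A B N R (L ω) t')) t := by
        simp only [d_apply, mul_sum]
        rw [sum_comm]
        exact sum_congr rfl fun y _ => sum_congr rfl fun l _ => by ring
      rw [e5]
      simp only [e2, mul_sub, sum_sub_distrib, e1, e3, e4]
      field_simp
      ring)
    (fun t => by
      refine le_trans (sum_le_sum fun ι _ => ?_)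
        ((bessel O hO (s N) W hW _ (1 / 2) fun ω => hcon (XX A B N R (L ω) t)).trans
          (by norm_num))
      split_ifs
      · exact le_rfl
      · positivity)
  refine absurd (ht.trans_le ?_) (not_lt.2 hN)
  refine le_trans (sum_le_sum fun ι _ => ?_)
    (bessel O hO (s N) W hW _ M fun ω => hM (XX A B N R (L ω) t))
  split_ifs
  · exact le_rfl
  · positivity

theorem main (α : Type) (a b : α) (hab : a ≠ b) (n : ℕ) (hn : 1 ≤ n) :
    ∃ c : (Fin (n + 1) → FreeGroup α) → ℝ, Bdd c ∧ delta c = 0 ∧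
      ∀ β : (Fin n → FreeGroup α) → ℝ, Bdd β → ∃ g, 1 / 2 < |c g - delta β g| := by
  classical
  obtain ⟨k, rfl⟩ : ∃ k, n = k + 1 := ⟨n - 1, by omega⟩
  obtain ⟨C, hC⟩ := ex_all k
  choose s lo hi c hE using fun N : ℕ => hC N
  refine ⟨fun h => cF a b s lo hi c (Fin.partialProd h), ?_, ?_, fun β hβ => ?_⟩
  · obtain ⟨M, hM⟩ := cF_bd hab hE
    exact ⟨M, fun h => hM _⟩
  · funext g
    rw [delta_eq _ (cF_inv hE), cF_cocy hab hE]
    rfl
  · obtain ⟨M, hM⟩ := hβ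
    obtain ⟨x, hx⟩ := lower hab hE (hat β) ⟨M, fun x => hM _⟩ (hat_inv β)
    refine ⟨fun i => (x i.castSucc)⁻¹ * x i.succ, ?_⟩
    rw [← hat_delta, eq_mul_partialProd x, cF_inv hE, hat_inv, hat_partialProd] at hx
    exact hx

end Pool.Agent.P.MP_2ca0d6_al.Pos
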